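import Mathlib

/-!
# The weighted Wiener algebra of doubly periodic real-analytic functions (Hartley basis)

`A = ℓ¹(ℤ²; ℝ)`; the element `e k` represents the function
`(x, y) ↦ 2^{-|k₁|-|k₂|} cas (2π (k₁ x + k₂ y))`, `cas θ = cos θ + sin θ`.
-/

namespace MP_114753_an

open Real

noncomputable section

abbrev Idx := ℤ × ℤ

abbrev A := lp (fun _ : Idx => ℝ) 1

def e (k : Idx) : A := lp.single 1 k (1 : ℝ)

theorem norm_e (k : Idx) : ‖e k‖ = 1 := by
  unfold e
  rw [lp.norm_single one_pos]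
  simp

theorem summable_abs (c : A) : Summable (fun k => |c k|) := by
  have h := (lp.memℓp c).summable (by simp)
  simpa using h

theorem norm_eq (c : A) : ‖c‖ = ∑' k, |c k| := by
  have h := lp.norm_eq_tsum_rpow (p := 1) (by simp) c
  simpa using h

theorem hasSum_e (c : A) : HasSum (fun k => c k • e k) c := by
  have h := lp.hasSum_single (p := 1) (by simp) c
  have h2 : (fun k => c k • e k) = (fun k => lp.single 1 k (c k)) := by
    funext k
    unfold e
    rw [← lp.single_smul]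
    simp
  rw [h2]
  exact h

section mk

variable {G : Type*} [NormedAddCommGroup G] [NormedSpace ℝ G] [CompleteSpace G]

theorem summable_smul (v : Idx → G) (C : ℝ) (hv : ∀ k, ‖v k‖ ≤ C) (c : A) :
    Summable (fun k => c k • v k) := by
  apply Summable.of_norm_bounded (g := fun k => |c k| * C) ((summable_abs c).mul_right C)
  intro k
  rw [norm_smul]
  exact mul_le_mul_of_nonneg_left (hv k) (abs_nonneg _)

def mkL (v : Idx → G) (C : ℝ) (hv : ∀ k, ‖v k‖ ≤ C) : A →L[ℝ] G :=
  LinearMap.mkContinuous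
    { toFun := fun c => ∑' k, c k • v k
      map_add' := by
        intro c d
        rw [← (summable_smul v C hv c).tsum_add (summable_smul v C hv d)]
        congr 1
        funext k
        simp [add_smul]
      map_smul' := by
        intro a c
        rw [RingHom.id_apply, ← (summable_smul v C hv c).tsum_const_smul]
        congr 1
        funext k
        simp [mul_smul] } C (by
    intro c
    have h1 : ‖∑' k, c k • v k‖ ≤ ∑' k, |c k| * C := by
      apply tsum_of_norm_bounded ((summable_abs c).mul_right C).hasSum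
      intro k
      rw [norm_smul]
      exact mul_le_mul_of_nonneg_left (hv k) (abs_nonneg _)
    rw [tsum_mul_right, ← norm_eq, mul_comm] at h1
    exact h1)

theorem mkL_apply (v : Idx → G) (C : ℝ) (hv : ∀ k, ‖v k‖ ≤ C) (c : A) :
    mkL v C hv c = ∑' k, c k • v k := rfl

theorem mkL_e (v : Idx → G) (C : ℝ) (hv : ∀ k, ‖v k‖ ≤ C) (k : Idx) :
    mkL v C hv (e k) = v k := by
  rw [mkL_apply, tsum_eq_single k]
  · simp [e]
  · intro j hj
    simp [e, hj]

theorem norm_mkL_le (v : Idx → G) (C : ℝ) (hv : ∀ k, ‖v k‖ ≤ C) : ‖mkL v C hv‖ ≤ C := by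
  apply LinearMap.mkContinuous_norm_le
  exact le_trans (norm_nonneg _) (hv (0, 0))

theorem norm_mkL_apply_le (v : Idx → G) (C : ℝ) (hv : ∀ k, ‖v k‖ ≤ C) (c : A) :
    ‖mkL v C hv c‖ ≤ C * ‖c‖ :=
  (mkL v C hv).le_of_opNorm_le (norm_mkL_le v C hv) c

end mk

theorem A_ext {G : Type*} [NormedAddCommGroup G] [NormedSpace ℝ G] {f g : A →L[ℝ] G}
    (h : ∀ k, f (e k) = g (e k)) : f = g := by
  ext c
  have h1 := (hasSum_e c).mapL f
  have h2 := (hasSum_e c).mapL g
  refine h1.unique ?_
  convert h2 using 2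
  rename_i k
  rw [map_smul, map_smul, h k]

/-! ### Weights -/

def nn (k : Idx) : ℕ := k.1.natAbs + k.2.natAbs

def w (k : Idx) : ℝ := (1 / 2 : ℝ) ^ nn k

theorem w_pos (k : Idx) : 0 < w k := by unfold w; positivity

theorem w_le_one (k : Idx) : w k ≤ 1 := by
  unfold w
  exact pow_le_one₀ (by norm_num) (by norm_num)

theorem nn_neg (k : Idx) : nn (-k) = nn k := by
  simp [nn]

theorem nn_add_le (i j : Idx) : nn (i + j) ≤ nn i + nn j := by
  have h1 := Int.natAbs_add_le i.1 j.1
  have h2 := Int.natAbs_add_le i.2 j.2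
  simp only [nn, Prod.fst_add, Prod.snd_add]
  omega

theorem nn_sub_le (i j : Idx) : nn (i - j) ≤ nn i + nn j := by
  have := nn_add_le i (-j)
  rw [nn_neg] at this
  rwa [sub_eq_add_neg]

def om (i j k : Idx) : ℝ := (1 / 2 : ℝ) ^ (nn i + nn j - nn k)

theorem om_nonneg (i j k : Idx) : 0 ≤ om i j k := by unfold om; positivity

theorem om_le_one (i j k : Idx) : om i j k ≤ 1 := by
  unfold om
  exact pow_le_one₀ (by norm_num) (by norm_num)

theorem om_mul_w {i j k : Idx} (h : nn k ≤ nn i + nn j) : om i j k * w k = w i * w j := by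
  unfold om w
  rw [← pow_add, ← pow_add]
  congr 1
  omega

def cas (θ : ℝ) : ℝ := cos θ + sin θ

theorem abs_cas_le (θ : ℝ) : |cas θ| ≤ 2 := by
  unfold cas
  calc |cos θ + sin θ| ≤ |cos θ| + |sin θ| := abs_add_le _ _
    _ ≤ 1 + 1 := add_le_add (abs_cos_le_one θ) (abs_sin_le_one θ)
    _ = 2 := by norm_num

def ph (k : Idx) (x y : ℝ) : ℝ := 2 * π * (k.1 * x + k.2 * y)

/-- evaluation at a point -/
def ev (x y : ℝ) : A →L[ℝ] ℝ :=
  mkL (fun k => w k * cas (ph k x y)) 2 (by
    intro k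
    rw [Real.norm_eq_abs, abs_mul, abs_of_pos (w_pos k)]
    calc w k * |cas (ph k x y)| ≤ 1 * 2 :=
          mul_le_mul (w_le_one k) (abs_cas_le _) (abs_nonneg _) (by norm_num)
      _ = 2 := by norm_num)

theorem ev_e (x y : ℝ) (k : Idx) : ev x y (e k) = w k * cas (ph k x y) := mkL_e _ _ _ _

theorem norm_ev_le (x y : ℝ) : ‖ev x y‖ ≤ 2 := norm_mkL_le _ _ _

theorem abs_ev_le (x y : ℝ) (c : A) : |ev x y c| ≤ 2 * ‖c‖ :=
  (ev x y).le_of_opNorm_le (norm_ev_le x y) c

/-! ### Multiplication -/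

def prodE (i j : Idx) : A :=
  (1 / 2 : ℝ) • (om i j (i - j) • e (i - j) + om i j (j - i) • e (j - i)
    + om i j (i + j) • e (i + j) - om i j (-i - j) • e (-i - j))

theorem norm_om_smul_le (i j k : Idx) : ‖om i j k • e k‖ ≤ 1 := by
  rw [norm_smul, norm_e, mul_one, Real.norm_eq_abs, abs_of_nonneg (om_nonneg i j k)]
  exact om_le_one i j k

theorem norm_prodE_le (i j : Idx) : ‖prodE i j‖ ≤ 2 := by
  unfold prodE
  rw [norm_smul]
  have h1 := norm_sub_le (om i j (i - j) • e (i - j) + om i j (j - i) • e (j - i)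
    + om i j (i + j) • e (i + j)) (om i j (-i - j) • e (-i - j))
  have h2 := norm_add_le (om i j (i - j) • e (i - j) + om i j (j - i) • e (j - i))
    (om i j (i + j) • e (i + j))
  have h3 := norm_add_le (om i j (i - j) • e (i - j)) (om i j (j - i) • e (j - i))
  have a1 := norm_om_smul_le i j (i - j)
  have a2 := norm_om_smul_le i j (j - i)
  have a3 := norm_om_smul_le i j (i + j)
  have a4 := norm_om_smul_le i j (-i - j)
  have : ‖(1 / 2 : ℝ)‖ = 1 / 2 := by norm_num
  rw [this]
  linarith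

def mulL : A →L[ℝ] A →L[ℝ] A :=
  mkL (fun i => mkL (fun j => prodE i j) 2 (fun j => norm_prodE_le i j)) 2
    (fun i => norm_mkL_le _ _ _)

theorem mulL_e (i j : Idx) : mulL (e i) (e j) = prodE i j := by
  unfold mulL
  rw [mkL_e, mkL_e]

theorem norm_mulL_le (c d : A) : ‖mulL c d‖ ≤ 2 * ‖c‖ * ‖d‖ :=
  (mulL c).le_of_opNorm_le (norm_mkL_apply_le _ _ _ c) d

theorem cas_mul (a b : ℝ) : cas a * cas b =
    (1 / 2) * (cas (a - b) + cas (b - a) + cas (a + b) - cas (-a - b)) := by
  unfold cas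
  rw [cos_sub, sin_sub, cos_sub, sin_sub, cos_add, sin_add,
    show -a - b = -(a + b) by ring, cos_neg, sin_neg, cos_add, sin_add]
  ring

theorem ph_add (i j : Idx) (x y : ℝ) : ph (i + j) x y = ph i x y + ph j x y := by
  unfold ph
  push_cast [Prod.fst_add, Prod.snd_add]
  ring

theorem ph_neg (i : Idx) (x y : ℝ) : ph (-i) x y = -ph i x y := by
  unfold ph
  push_cast [Prod.fst_neg, Prod.snd_neg]
  ring

theorem ph_sub (i j : Idx) (x y : ℝ) : ph (i - j) x y = ph i x y - ph j x y := by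
  rw [sub_eq_add_neg, ph_add, ph_neg]; ring

theorem ev_mul (x y : ℝ) (c d : A) : ev x y (mulL c d) = ev x y c * ev x y d := by
  have key : ∀ i j : Idx, ev x y (mulL (e i) (e j)) = ev x y (e i) * ev x y (e j) := by
    intro i j
    rw [mulL_e]
    unfold prodE
    simp only [map_smul, map_sub, map_add, smul_eq_mul, ev_e]
    have h1 := om_mul_w (nn_sub_le i j)
    have h2 : om i j (j - i) * w (j - i) = w i * w j :=
      om_mul_w (by have := nn_sub_le j i; omega)
    have h3 := om_mul_w (nn_add_le i j)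
    have h4 : om i j (-i - j) * w (-i - j) = w i * w j :=
      om_mul_w (by have := nn_sub_le (-i) j; rw [nn_neg] at this; omega)
    have hc := cas_mul (ph i x y) (ph j x y)
    rw [ph_sub, ph_sub, ph_add, ph_sub, ph_neg]
    calc 1 / 2 * (om i j (i - j) * (w (i - j) * cas (ph i x y - ph j x y)) +
          om i j (j - i) * (w (j - i) * cas (ph j x y - ph i x y)) +
          om i j (i + j) * (w (i + j) * cas (ph i x y + ph j x y)) -
          om i j (-i - j) * (w (-i - j) * cas (-ph i x y - ph j x y)))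
        = 1 / 2 * ((om i j (i - j) * w (i - j)) * cas (ph i x y - ph j x y) +
          (om i j (j - i) * w (j - i)) * cas (ph j x y - ph i x y) +
          (om i j (i + j) * w (i + j)) * cas (ph i x y + ph j x y) -
          (om i j (-i - j) * w (-i - j)) * cas (-ph i x y - ph j x y)) := by ring
      _ = w i * w j * (1 / 2 * (cas (ph i x y - ph j x y) + cas (ph j x y - ph i x y)
          + cas (ph i x y + ph j x y) - cas (-ph i x y - ph j x y))) := by
          rw [h1, h2, h3, h4]; ring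
      _ = w i * cas (ph i x y) * (w j * cas (ph j x y)) := by rw [← hc]; ring
  have h1 : ∀ i : Idx, (ev x y).comp (mulL (e i)) = (ev x y (e i)) • (ev x y) := by
    intro i
    apply A_ext
    intro j
    simp only [ContinuousLinearMap.comp_apply, smul_apply, smul_eq_mul]
    exact key i j
  have h2 : (ContinuousLinearMap.compL ℝ A A ℝ (ev x y)).comp mulL
      = (ContinuousLinearMap.toSpanSingleton ℝ (ev x y)).comp (ev x y) := by
    apply A_ext
    intro i
    simp only [ContinuousLinearMap.comp_apply, ContinuousLinearMap.compL_apply,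
      ContinuousLinearMap.toSpanSingleton_apply]
    exact h1 i
  have h3 := DFunLike.congr_fun (DFunLike.congr_fun h2 c) d
  simpa using h3

/-! ### Elementary operators -/

def opL (f : Idx → ℝ) (π' : Idx → Idx) (hf : ∀ k, |f k| ≤ 1) : A →L[ℝ] A :=
  mkL (fun k => f k • e (π' k)) 1 (by
    intro k
    rw [norm_smul, norm_e, mul_one]
    exact hf k)

theorem opL_e (f : Idx → ℝ) (π' : Idx → Idx) (hf : ∀ k, |f k| ≤ 1) (k : Idx) :
    opL f π' hf (e k) = f k • e (π' k) := mkL_e _ _ _ _

theorem norm_opL_le (f : Idx → ℝ) (π' : Idx → Idx) (hf : ∀ k, |f k| ≤ 1) (c : A) :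
    ‖opL f π' hf c‖ ≤ ‖c‖ := by
  have := (opL f π' hf).le_of_opNorm_le (norm_mkL_le _ _ _) c
  rwa [one_mul] at this

def ic (n : ℤ) : ℝ := -(1 / (2 * π * n))

theorem abs_ic_le (n : ℤ) : |ic n| ≤ 1 := by
  unfold ic
  rw [abs_neg]
  rcases eq_or_ne n 0 with h | h
  · subst h; simp
  · have h1 : (1 : ℝ) ≤ |(n : ℝ)| := by
      have : (1 : ℤ) ≤ |n| := Int.one_le_abs h
      exact_mod_cast this
    rw [abs_div, abs_one, abs_mul, abs_mul]
    rw [div_le_one (by positivity)]
    have h2 : |(2 : ℝ)| = 2 := by norm_num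
    rw [h2, abs_of_pos pi_pos]
    nlinarith [pi_gt_three]

/-- zero-mean antiderivative in `x` -/
def Ix : A →L[ℝ] A := opL (fun k => ic k.1) (fun k => -k) (fun k => abs_ic_le k.1)

/-- zero-mean antiderivative in `y` -/
def Iy : A →L[ℝ] A := opL (fun k => ic k.2) (fun k => -k) (fun k => abs_ic_le k.2)

/-- mean in `x` -/
def Mx : A →L[ℝ] A := opL (fun k => if k.1 = 0 then 1 else 0) id (fun k => by split_ifs <;> simp)

/-- mean in `y` -/
def My : A →L[ℝ] A := opL (fun k => if k.2 = 0 then 1 else 0) id (fun k => by split_ifs <;> simp)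

/-- swap of the variables -/
def sw : A →L[ℝ] A := opL (fun _ => 1) (fun k => (k.2, k.1)) (fun k => by simp)

/-- reflection `x ↦ -x` -/
def Rx : A →L[ℝ] A := opL (fun _ => 1) (fun k => (-k.1, k.2)) (fun k => by simp)

/-- reflection `y ↦ -y` -/
def Ry : A →L[ℝ] A := opL (fun _ => 1) (fun k => (k.1, -k.2)) (fun k => by simp)

/-- restriction to `x = 0` -/
def Ex : A →L[ℝ] A := opL (fun k => (1 / 2 : ℝ) ^ k.1.natAbs) (fun k => (0, k.2)) (fun k => by
  rw [abs_of_nonneg (by positivity)]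
  exact pow_le_one₀ (by norm_num) (by norm_num))

/-- restriction to `y = 0` -/
def Ey : A →L[ℝ] A := opL (fun k => (1 / 2 : ℝ) ^ k.2.natAbs) (fun k => (k.1, 0)) (fun k => by
  rw [abs_of_nonneg (by positivity)]
  exact pow_le_one₀ (by norm_num) (by norm_num))

def one : A := e 0

theorem ev_one (x y : ℝ) : ev x y one = 1 := by
  unfold one
  rw [ev_e]
  simp [w, nn, cas, ph]

theorem Ix_e (k : Idx) : Ix (e k) = ic k.1 • e (-k) := opL_e _ _ _ _
theorem Iy_e (k : Idx) : Iy (e k) = ic k.2 • e (-k) := opL_e _ _ _ _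
theorem Mx_e (k : Idx) : Mx (e k) = (if k.1 = 0 then (1:ℝ) else 0) • e k := opL_e _ _ _ _
theorem My_e (k : Idx) : My (e k) = (if k.2 = 0 then (1:ℝ) else 0) • e k := opL_e _ _ _ _
theorem sw_e (k : Idx) : sw (e k) = e (k.2, k.1) := by
  unfold sw; rw [opL_e]; simp
theorem Rx_e (k : Idx) : Rx (e k) = e (-k.1, k.2) := by
  unfold Rx; rw [opL_e]; simp
theorem Ry_e (k : Idx) : Ry (e k) = e (k.1, -k.2) := by
  unfold Ry; rw [opL_e]; simp
theorem Ex_e (k : Idx) : Ex (e k) = (1 / 2 : ℝ) ^ k.1.natAbs • e (0, k.2) := opL_e _ _ _ _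
theorem Ey_e (k : Idx) : Ey (e k) = (1 / 2 : ℝ) ^ k.2.natAbs • e (k.1, 0) := opL_e _ _ _ _

end

end MP_114753_an
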