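import Pool.Agent.Lib.MP_114753_an.Ops

/-!
# Calculus for the functions represented by the Wiener algebra
-/

namespace MP_114753_an

open Real Filter Topology
open scoped ContDiff

noncomputable section

theorem hasDerivAt_cas (θ : ℝ) : HasDerivAt cas (cas (θ + π / 2)) θ := by
  unfold cas
  rw [cos_add_pi_div_two, sin_add_pi_div_two]
  exact (hasDerivAt_cos θ).add (hasDerivAt_sin θ)

theorem contDiff_cas : ContDiff ℝ ∞ cas := by
  unfold cas
  exact contDiff_cos.add contDiff_sin

theorem iteratedDeriv_cas (n : ℕ) (θ : ℝ) : iteratedDeriv n cas θ = cas (θ + n * (π / 2)) := by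
  induction n generalizing θ with
  | zero => simp
  | succ n ih =>
    rw [iteratedDeriv_succ]
    have h : iteratedDeriv n cas = fun θ => cas (θ + n * (π / 2)) := by
      funext t; exact ih t
    rw [h]
    have h2 : HasDerivAt (fun θ => cas (θ + n * (π / 2))) (cas (θ + n * (π / 2) + π / 2)) θ :=
      HasDerivAt.comp_add_const θ _ (hasDerivAt_cas (θ + n * (π / 2)))
    rw [h2.deriv]
    congr 1
    push_cast
    ring

theorem norm_iteratedFDeriv_cas_le (n : ℕ) (θ : ℝ) : ‖iteratedFDeriv ℝ n cas θ‖ ≤ 2 := by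
  rw [norm_iteratedFDeriv_eq_norm_iteratedDeriv, iteratedDeriv_cas, Real.norm_eq_abs]
  exact abs_cas_le _

/-- the phase as a continuous linear functional -/
def phL (k : Idx) : ℝ × ℝ →L[ℝ] ℝ :=
  (2 * π * (k.1 : ℝ)) • ContinuousLinearMap.fst ℝ ℝ ℝ
    + (2 * π * (k.2 : ℝ)) • ContinuousLinearMap.snd ℝ ℝ ℝ

theorem phL_apply (k : Idx) (p : ℝ × ℝ) : phL k p = ph k p.1 p.2 := by
  simp [phL, ph]; ring

theorem norm_phL_le (k : Idx) : ‖phL k‖ ≤ 2 * π * nn k := by
  unfold phL
  have h1 : ‖(2 * π * (k.1 : ℝ)) • ContinuousLinearMap.fst ℝ ℝ ℝ‖ ≤ 2 * π * k.1.natAbs := by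
    rw [norm_smul]
    have ha : ‖(2 * π * (k.1 : ℝ))‖ = 2 * π * k.1.natAbs := by
      rw [Real.norm_eq_abs, abs_mul, abs_of_pos (by positivity), Nat.cast_natAbs, Int.cast_abs]
    rw [ha]
    calc 2 * π * (k.1.natAbs : ℝ) * ‖ContinuousLinearMap.fst ℝ ℝ ℝ‖
        ≤ 2 * π * (k.1.natAbs : ℝ) * 1 :=
          mul_le_mul_of_nonneg_left (ContinuousLinearMap.norm_fst_le ℝ ℝ ℝ) (by positivity)
      _ = _ := by ring
  have h2 : ‖(2 * π * (k.2 : ℝ)) • ContinuousLinearMap.snd ℝ ℝ ℝ‖ ≤ 2 * π * k.2.natAbs := by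
    rw [norm_smul]
    have ha : ‖(2 * π * (k.2 : ℝ))‖ = 2 * π * k.2.natAbs := by
      rw [Real.norm_eq_abs, abs_mul, abs_of_pos (by positivity), Nat.cast_natAbs, Int.cast_abs]
    rw [ha]
    calc 2 * π * (k.2.natAbs : ℝ) * ‖ContinuousLinearMap.snd ℝ ℝ ℝ‖
        ≤ 2 * π * (k.2.natAbs : ℝ) * 1 :=
          mul_le_mul_of_nonneg_left (ContinuousLinearMap.norm_snd_le ℝ ℝ ℝ) (by positivity)
      _ = _ := by ring
  have h3 := norm_add_le ((2 * π * (k.1 : ℝ)) • ContinuousLinearMap.fst ℝ ℝ ℝ)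
    ((2 * π * (k.2 : ℝ)) • ContinuousLinearMap.snd ℝ ℝ ℝ)
  have h4 : (nn k : ℝ) = k.1.natAbs + k.2.natAbs := by unfold nn; push_cast; rfl
  rw [h4]
  calc _ ≤ _ := h3
    _ ≤ 2 * π * k.1.natAbs + 2 * π * k.2.natAbs := add_le_add h1 h2
    _ = _ := by ring

theorem exists_pow_bound (n : ℕ) : ∃ K : ℝ, ∀ m : ℕ, (m : ℝ) ^ n * (1 / 2 : ℝ) ^ m ≤ K := by
  have h : Tendsto (fun m : ℕ => (m : ℝ) ^ n * (1 / 2 : ℝ) ^ m) atTop (𝓝 0) :=
    tendsto_pow_const_mul_const_pow_of_abs_lt_one n (by rw [abs_of_pos] <;> norm_num)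
  obtain ⟨K, hK⟩ := h.bddAbove_range
  exact ⟨K, fun m => hK ⟨m, rfl⟩⟩

theorem contDiff_ev (c : A) : ContDiff ℝ ∞ (fun p : ℝ × ℝ => ev p.1 p.2 c) := by
  choose K hK using exists_pow_bound
  have h1 : (fun p : ℝ × ℝ => ev p.1 p.2 c)
      = fun p : ℝ × ℝ => ∑' k, c k * (w k * cas (phL k p)) := by
    funext p
    unfold ev
    rw [mkL_apply]
    simp only [phL_apply, smul_eq_mul]
  rw [h1]
  have hf : ∀ k : Idx, ContDiff ℝ ∞ (fun p : ℝ × ℝ => c k * (w k * cas (phL k p))) := by
    intro k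
    exact contDiff_const.mul (contDiff_const.mul (contDiff_cas.comp (phL k).contDiff))
  apply contDiff_tsum (v := fun n k => |c k| * (2 * (2 * π) ^ n * K n)) (N := ⊤) hf
  · intro n _
    exact (summable_abs c).mul_right _
  · intro n k p _
    have e1 : (fun p : ℝ × ℝ => c k * (w k * cas (phL k p)))
        = (c k * w k) • (cas ∘ (phL k)) := by
      funext p; simp [mul_assoc]
    rw [e1]
    have e2 : iteratedFDeriv ℝ n ((c k * w k) • (cas ∘ (phL k))) p
        = (c k * w k) • iteratedFDeriv ℝ n (cas ∘ (phL k)) p := by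
      apply iteratedFDeriv_const_smul_apply
      exact (contDiff_cas.comp (phL k).contDiff).contDiffAt.of_le (by exact_mod_cast le_top)
    rw [e2, norm_smul, norm_mul, Real.norm_eq_abs, Real.norm_eq_abs, abs_of_pos (w_pos k)]
    have e3 : ‖iteratedFDeriv ℝ n (cas ∘ (phL k)) p‖ ≤ 2 * (2 * π * nn k) ^ n := by
      have := (phL k).iteratedFDeriv_comp_right (f := cas) contDiff_cas p
        (i := n) (by exact_mod_cast le_top)
      rw [this]
      refine (ContinuousMultilinearMap.norm_compContinuousLinearMap_le _ _).trans ?_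
      rw [Finset.prod_const, Finset.card_univ, Fintype.card_fin]
      exact mul_le_mul (norm_iteratedFDeriv_cas_le n _)
        (pow_le_pow_left₀ (norm_nonneg _) (norm_phL_le k) n) (by positivity) (by norm_num)
    calc |c k| * w k * ‖iteratedFDeriv ℝ n (cas ∘ (phL k)) p‖
        ≤ |c k| * w k * (2 * (2 * π * nn k) ^ n) :=
          mul_le_mul_of_nonneg_left e3 (mul_nonneg (abs_nonneg _) (w_pos k).le)
      _ = |c k| * (2 * (2 * π) ^ n * ((nn k : ℝ) ^ n * (1 / 2 : ℝ) ^ (nn k))) := by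
          unfold w; rw [mul_pow]; ring
      _ ≤ |c k| * (2 * (2 * π) ^ n * K n) := by
          apply mul_le_mul_of_nonneg_left _ (abs_nonneg _)
          apply mul_le_mul_of_nonneg_left (hK n (nn k)) (by positivity)

theorem continuous_ev (c : A) : Continuous (fun p : ℝ × ℝ => ev p.1 p.2 c) :=
  (contDiff_ev c).continuous

theorem continuous_ev_left (y : ℝ) (c : A) : Continuous (fun x : ℝ => ev x y c) := by
  have h : Continuous (fun x : ℝ => ((x, y) : ℝ × ℝ)) := by fun_prop
  have h2 := (continuous_ev c).comp h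
  simp only [Function.comp_def] at h2
  exact h2

theorem continuous_ev_right (x : ℝ) (c : A) : Continuous (fun y : ℝ => ev x y c) := by
  have h : Continuous (fun y : ℝ => ((x, y) : ℝ × ℝ)) := by fun_prop
  have h2 := (continuous_ev c).comp h
  simp only [Function.comp_def] at h2
  exact h2

theorem hasDerivAt_Ix (x y : ℝ) (c : A) :
    HasDerivAt (fun x => ev x y (Ix c)) (ev x y (c - Mx c)) x := by
  have hg : ∀ (k : Idx) (x : ℝ), HasDerivAt (fun x => c k * ev x y (Ix (e k)))
      (c k * ev x y (e k - Mx (e k))) x := by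
    intro k x
    apply HasDerivAt.const_mul
    simp only [Ix_e, Mx_e, map_smul, map_sub, smul_eq_mul, ev_e]
    by_cases h : k.1 = 0
    · simp only [h, ic_zero, if_true, zero_mul, one_mul, sub_self]
      exact hasDerivAt_const x 0
    · simp only [h, if_false, zero_mul, sub_zero]
      have h1 : HasDerivAt (fun x => ph (-k) x y) (-(2 * π * k.1)) x := by
        have : HasDerivAt (fun x => 2 * π * (((-k).1 : ℤ) * x + ((-k).2 : ℤ) * y))
            (2 * π * ((((-k).1 : ℤ) : ℝ) * 1)) x :=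
          (((hasDerivAt_id x).const_mul _).add_const _).const_mul _
        unfold ph
        convert this using 1
        simp
      have h2 := (hasDerivAt_cas (ph (-k) x y)).comp x h1
      have h3 := (h2.const_mul (w (-k))).const_mul (ic k.1)
      simp only [Function.comp_def] at h3
      have e1 : w (-k) = w k := by unfold w; rw [nn_neg]
      have e2 : cas (ph (-k) x y + π / 2) = cas (ph k x y) := by
        rw [ph_neg]
        unfold cas
        rw [cos_add_pi_div_two, sin_add_pi_div_two, sin_neg, cos_neg]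
        ring
      have hk : (k.1 : ℝ) ≠ 0 := by exact_mod_cast h
      convert h3 using 1
      rw [e1, e2]
      unfold ic
      field_simp
  have hb : ∀ (k : Idx) (x : ℝ), ‖c k * ev x y (e k - Mx (e k))‖ ≤ |c k| * 4 := by
    intro k x
    rw [norm_mul, Real.norm_eq_abs, Real.norm_eq_abs]
    apply mul_le_mul_of_nonneg_left _ (abs_nonneg _)
    refine (abs_ev_le x y _).trans ?_
    have h1 : ‖e k - Mx (e k)‖ ≤ 2 := by
      refine (norm_sub_le _ _).trans ?_
      have : ‖Mx (e k)‖ ≤ ‖e k‖ := norm_opL_le _ _ _ _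
      rw [norm_e] at *
      linarith
    linarith
  have hs : ∀ (x : ℝ) (T : A →L[ℝ] A), HasSum (fun k => c k * ev x y (T (e k))) (ev x y (T c)) := by
    intro x T
    have := (hasSum_e c).mapL ((ev x y).comp T)
    simpa using this
  have hmain := hasDerivAt_tsum ((summable_abs c).mul_right 4) hg hb (hs x Ix).summable x
  have h1 : (fun x => ev x y (Ix c)) = fun x => ∑' k, c k * ev x y (Ix (e k)) := by
    funext x; exact ((hs x Ix).tsum_eq).symm
  have h2 : ev x y (c - Mx c) = ∑' k, c k * ev x y (e k - Mx (e k)) := by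
    have := (hs x (ContinuousLinearMap.id ℝ A - Mx)).tsum_eq
    simpa using this.symm
  rw [h1, h2]
  exact hmain

theorem hasDerivAt_Iy (x y : ℝ) (c : A) :
    HasDerivAt (fun y => ev x y (Iy c)) (ev x y (c - My c)) y := by
  have h := hasDerivAt_Ix y x (sw c)
  have h1 : (fun y => ev x y (Iy c)) = fun y => ev y x (Ix (sw c)) := by
    funext y
    rw [← ev_sw, sw_Iy]
  have h2 : ev x y (c - My c) = ev y x (sw c - Mx (sw c)) := by
    rw [← ev_sw, map_sub, sw_My]
  rw [h1, h2]
  exact h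

theorem hasDerivAt_Mx (x y : ℝ) (c : A) : HasDerivAt (fun x => ev x y (Mx c)) 0 x := by
  have : (fun x => ev x y (Mx c)) = fun _ => ev 0 y (Mx c) := by
    funext x; exact ev_Mx x 0 y c
  rw [this]
  exact hasDerivAt_const x _

theorem hasDerivAt_My (x y : ℝ) (c : A) : HasDerivAt (fun y => ev x y (My c)) 0 y := by
  have : (fun y => ev x y (My c)) = fun _ => ev x 0 (My c) := by
    funext y; exact ev_My x y 0 c
  rw [this]
  exact hasDerivAt_const y _

theorem integral_ev_left (y : ℝ) (c : A) : ∫ x in (0:ℝ)..1, ev x y c = ev 0 y (Mx c) := by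
  have h1 : ∫ x in (0:ℝ)..1, ev x y (c - Mx c) = ev 1 y (Ix c) - ev 0 y (Ix c) :=
    intervalIntegral.integral_eq_sub_of_hasDerivAt (fun x _ => hasDerivAt_Ix x y c)
      ((continuous_ev_left y _).intervalIntegrable _ _)
  have h2 : ev 1 y (Ix c) = ev 0 y (Ix c) := by
    have := ev_add_one_left 0 y (Ix c)
    simpa using this
  rw [h2, sub_self] at h1
  have h3 : ∫ x in (0:ℝ)..1, ev x y (c - Mx c)
      = (∫ x in (0:ℝ)..1, ev x y c) - ∫ x in (0:ℝ)..1, ev 0 y (Mx c) := by
    rw [← intervalIntegral.integral_sub ((continuous_ev_left y _).intervalIntegrable _ _)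
      (continuous_const.intervalIntegrable _ _)]
    congr 1
    funext x
    rw [map_sub, ev_Mx x 0 y c]
  rw [h1] at h3
  simp at h3
  linarith

end

end MP_114753_an
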