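import Mathlib

/-!
# Newton's equation with a doubly periodic potential: definitions

`V : ℝ → ℝ → ℝ` is the potential `V(u, t)`; Newton's equation is `u'' = -∂_u V(u, t)`, written as
the Hamiltonian system `u' = p`, `p' = -∂_u V(u, t)`.
-/

namespace Pool.Agent.Lib.MP_114753_an

open scoped ContDiff

/-- `V` is `C^∞` and `1`-periodic in `u` and in `t`. -/
def IsSmoothPeriodic (V : ℝ → ℝ → ℝ) : Prop :=
  ContDiff ℝ ∞ (fun z : ℝ × ℝ => V z.1 z.2) ∧
    (∀ u t, V (u + 1) t = V u t) ∧ (∀ u t, V u (t + 1) = V u t)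

/-- The family `𝓕`: potentials `W(n u + m t) + g(t)` with `n` an integer, `m` real and `W`, `g`
smooth functions of one variable. -/
def InFamily (V : ℝ → ℝ → ℝ) : Prop :=
  ∃ (n : ℤ) (m : ℝ) (W g : ℝ → ℝ), ContDiff ℝ ∞ W ∧ ContDiff ℝ ∞ g ∧
    ∀ u t, V u t = W (n * u + m * t) + g t

/-- `s ↦ (u s, p s)` solves `u' = p`, `p' = -∂_u V(u, s)` at the time `s`. -/
def SolvesAt (V : ℝ → ℝ → ℝ) (u p : ℝ → ℝ) (s : ℝ) : Prop :=
  HasDerivAt u (p s) s ∧ HasDerivAt p (-(deriv (fun x => V x s) (u s))) s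

/-- The graph `{(u, f(u, t), t)}` of a continuous doubly periodic function `f` is invariant under
the flow: every solution on an open time interval that meets the graph stays in it, and through
every point of the graph passes a solution that exists for all time and stays in the graph. -/
structure IsInvariantGraph (V f : ℝ → ℝ → ℝ) : Prop where
  continuous : Continuous (fun z : ℝ × ℝ => f z.1 z.2)
  periodic_u : ∀ u t, f (u + 1) t = f u t
  periodic_t : ∀ u t, f u (t + 1) = f u t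
  stays : ∀ (a b : ℝ) (u p : ℝ → ℝ), (∀ s ∈ Set.Ioo a b, SolvesAt V u p s) →
    ∀ s₀ ∈ Set.Ioo a b, p s₀ = f (u s₀) s₀ → ∀ s ∈ Set.Ioo a b, p s = f (u s) s
  complete : ∀ u₀ t₀ : ℝ, ∃ u p : ℝ → ℝ, (∀ s, SolvesAt V u p s) ∧ u t₀ = u₀ ∧
    p t₀ = f u₀ t₀ ∧ ∀ s, p s = f (u s) s

/-- The points `(u, p, t)` of the set `U` are foliated by invariant graphs: there is a family of
invariant graphs, indexed by an open set of real parameters, depending continuously on the
parameter and the point, strictly increasing in the parameter (so pairwise disjoint), and covering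
`U`. -/
def TotallyIntegrableOn (V : ℝ → ℝ → ℝ) (U : Set (ℝ × ℝ × ℝ)) : Prop :=
  ∃ (I : Set ℝ) (f : ℝ → ℝ → ℝ → ℝ), IsOpen I ∧ (∀ c ∈ I, IsInvariantGraph V (f c)) ∧
    ContinuousOn (fun z : ℝ × ℝ × ℝ => f z.1 z.2.1 z.2.2) {z | z.1 ∈ I} ∧
    (∀ c ∈ I, ∀ c' ∈ I, c < c' → ∀ u t, f c u t < f c' u t) ∧
    ∀ u p t, (u, p, t) ∈ U → ∃ c ∈ I, f c u t = p

/-- The system is totally integrable at infinity: on `{|p| > c}` for some `c > 0`. -/
def TotallyIntegrableAtInfinity (V : ℝ → ℝ → ℝ) : Prop :=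
  ∃ c : ℝ, 0 < c ∧ TotallyIntegrableOn V {z | c < |z.2.1|}

end Pool.Agent.Lib.MP_114753_an
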