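import Pool.Agent.Lib.MP_114753_an.Family

/-!
# The change of variables from characteristic coordinates to space-time
-/

namespace MP_114753_an

open Real MeasureTheory
open scoped ContDiff NNReal

noncomputable section

/-! ### two by two matrices as continuous linear maps -/

def rowL (a b : ℝ) : ℝ × ℝ →L[ℝ] ℝ :=
  a • ContinuousLinearMap.fst ℝ ℝ ℝ + b • ContinuousLinearMap.snd ℝ ℝ ℝ

theorem rowL_apply (a b : ℝ) (p : ℝ × ℝ) : rowL a b p = a * p.1 + b * p.2 := by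
  simp [rowL]

def matL (a b c d : ℝ) : ℝ × ℝ →L[ℝ] ℝ × ℝ := (rowL a b).prod (rowL c d)

theorem matL_apply (a b c d : ℝ) (p : ℝ × ℝ) :
    matL a b c d p = (a * p.1 + b * p.2, c * p.1 + d * p.2) := by
  simp [matL, rowL_apply]

theorem norm_matL_le {a b c d η : ℝ} (ha : |a| ≤ η) (hb : |b| ≤ η) (hc : |c| ≤ η)
    (hd : |d| ≤ η) : ‖matL a b c d‖ ≤ 2 * η := by
  have hη : 0 ≤ η := (abs_nonneg a).trans ha
  apply ContinuousLinearMap.opNorm_le_bound _ (by positivity)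
  intro p
  rw [matL_apply, Prod.norm_def]
  have h1 : |p.1| ≤ ‖p‖ := by rw [← Real.norm_eq_abs]; exact norm_fst_le p
  have h2 : |p.2| ≤ ‖p‖ := by rw [← Real.norm_eq_abs]; exact norm_snd_le p
  have key : ∀ s t : ℝ, |s| ≤ η → |t| ≤ η → ‖s * p.1 + t * p.2‖ ≤ 2 * η * ‖p‖ := by
    intro s t hs ht
    rw [Real.norm_eq_abs]
    calc |s * p.1 + t * p.2| ≤ |s * p.1| + |t * p.2| := abs_add_le _ _
      _ = |s| * |p.1| + |t| * |p.2| := by rw [abs_mul, abs_mul]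
      _ ≤ η * ‖p‖ + η * ‖p‖ := add_le_add (mul_le_mul hs h1 (abs_nonneg _) hη)
          (mul_le_mul ht h2 (abs_nonneg _) hη)
      _ = 2 * η * ‖p‖ := by ring
  exact max_le (key a b ha hb) (key c d hc hd)

theorem mat_inv1 (a b c d D : ℝ) (hD : D = a * d - b * c) (h : D ≠ 0) (s t : ℝ) :
    d / D * (a * s + b * t) + -b / D * (c * s + d * t) = s := by
  have : d / D * (a * s + b * t) + -b / D * (c * s + d * t) = ((a * d - b * c) * s) / D := by ring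
  rw [this, ← hD, mul_div_assoc, mul_div_cancel₀ _ h]

theorem mat_inv2 (a b c d D : ℝ) (hD : D = a * d - b * c) (h : D ≠ 0) (s t : ℝ) :
    -c / D * (a * s + b * t) + a / D * (c * s + d * t) = t := by
  have : -c / D * (a * s + b * t) + a / D * (c * s + d * t) = ((a * d - b * c) * t) / D := by ring
  rw [this, ← hD, mul_div_assoc, mul_div_cancel₀ _ h]

theorem mat_inv3 (a b c d D : ℝ) (hD : D = a * d - b * c) (h : D ≠ 0) (s t : ℝ) :
    a * (d / D * s + -b / D * t) + b * (-c / D * s + a / D * t) = s := by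
  have : a * (d / D * s + -b / D * t) + b * (-c / D * s + a / D * t)
      = ((a * d - b * c) * s) / D := by ring
  rw [this, ← hD, mul_div_assoc, mul_div_cancel₀ _ h]

theorem mat_inv4 (a b c d D : ℝ) (hD : D = a * d - b * c) (h : D ≠ 0) (s t : ℝ) :
    c * (d / D * s + -b / D * t) + d * (-c / D * s + a / D * t) = t := by
  have : c * (d / D * s + -b / D * t) + d * (-c / D * s + a / D * t)
      = ((a * d - b * c) * t) / D := by ring
  rw [this, ← hD, mul_div_assoc, mul_div_cancel₀ _ h]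

def matE (a b c d : ℝ) (h : a * d - b * c ≠ 0) : (ℝ × ℝ) ≃L[ℝ] (ℝ × ℝ) :=
  ContinuousLinearEquiv.equivOfInverse (matL a b c d)
    (matL (d / (a * d - b * c)) (-b / (a * d - b * c)) (-c / (a * d - b * c))
      (a / (a * d - b * c)))
    (by
      intro p
      rw [matL_apply, matL_apply]
      exact Prod.ext (mat_inv1 a b c d _ rfl h p.1 p.2) (mat_inv2 a b c d _ rfl h p.1 p.2))
    (by
      intro p
      rw [matL_apply, matL_apply]
      exact Prod.ext (mat_inv3 a b c d _ rfl h p.1 p.2) (mat_inv4 a b c d _ rfl h p.1 p.2))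

theorem matE_coe (a b c d : ℝ) (h : a * d - b * c ≠ 0) :
    (matE a b c d h : ℝ × ℝ →L[ℝ] ℝ × ℝ) = matL a b c d := by
  ext p <;> rfl

theorem hasFDerivAt_of_partials {φ : ℝ → ℝ → ℝ}
    (hφ : ContDiff ℝ ∞ (fun p : ℝ × ℝ => φ p.1 p.2)) {a b x y : ℝ}
    (hx : HasDerivAt (fun x => φ x y) a x) (hy : HasDerivAt (fun y => φ x y) b y) :
    HasFDerivAt (fun p : ℝ × ℝ => φ p.1 p.2) (rowL a b) (x, y) := by
  have hd : HasFDerivAt (fun p : ℝ × ℝ => φ p.1 p.2)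
      (fderiv ℝ (fun p : ℝ × ℝ => φ p.1 p.2) (x, y)) (x, y) :=
    (hφ.differentiable (by simp) (x, y)).hasFDerivAt
  have lx : HasDerivAt (fun x : ℝ => ((x, y) : ℝ × ℝ)) (1, 0) x :=
    (hasDerivAt_id x).prodMk (hasDerivAt_const x y)
  have ly : HasDerivAt (fun y : ℝ => ((x, y) : ℝ × ℝ)) (0, 1) y :=
    (hasDerivAt_const y x).prodMk (hasDerivAt_id y)
  have h1 := hd.comp_hasDerivAt x lx
  have h2 := hd.comp_hasDerivAt y ly
  have e1 := hx.unique h1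
  have e2 := hy.unique h2
  have e3 : fderiv ℝ (fun p : ℝ × ℝ => φ p.1 p.2) (x, y) = rowL a b := by
    ext
    · simp [rowL, e1]
    · simp [rowL, e2]
  rw [e3] at hd
  exact hd

/-! ### bounds -/

section

variable {ε : ℝ} {X : E5} (h : Sys ε X) (hν : ‖X‖ ≤ 1 / 1000)

theorem nX1 : ‖X.1‖ ≤ ‖X‖ := norm_fst_le X
theorem nX2 : ‖X.2.1‖ ≤ ‖X‖ := (norm_fst_le X.2).trans (norm_snd_le X)
theorem nX3 : ‖X.2.2.1‖ ≤ ‖X‖ := (norm_fst_le X.2.2).trans ((norm_snd_le X.2).trans (norm_snd_le X))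
theorem nX5 : ‖X.2.2.2.2‖ ≤ ‖X‖ := (norm_snd_le X.2.2.2).trans
  ((norm_snd_le X.2.2).trans ((norm_snd_le X.2).trans (norm_snd_le X)))

theorem norm_Sf_le : ‖Sf X‖ ≤ 2 * ‖X‖ := by
  unfold Sf
  have h1 := norm_add_le X.2.1 (Ix X.1)
  have h2 : ‖Ix X.1‖ ≤ ‖X.1‖ := norm_opL_le _ _ _ _
  have := nX1 (X := X)
  have := nX2 (X := X)
  linarith

theorem norm_Wf_le : ‖Wf X‖ ≤ 16 * ‖X‖ ^ 2 := by
  unfold Wf
  rw [norm_smul]
  have h1 := norm_mulL_le (sw (Sf X)) (Sf X)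
  have h2 : ‖sw (Sf X)‖ ≤ ‖Sf X‖ := norm_opL_le _ _ _ _
  have h3 := norm_Sf_le (X := X)
  have h0 := norm_nonneg (Sf X)
  have h4 : ‖(2 : ℝ)‖ = 2 := by norm_num
  rw [h4]
  have h5 : 2 * ‖sw (Sf X)‖ * ‖Sf X‖ ≤ 2 * (2 * ‖X‖) * (2 * ‖X‖) :=
    mul_le_mul (mul_le_mul_of_nonneg_left (h2.trans h3) (by norm_num)) h3 h0 (by positivity)
  nlinarith

include hν

theorem abs_q_le (x y : ℝ) : |ev x y (q X) + 1| ≤ 6 / 1000 := by
  have e1 : ev x y (q X) + 1 = ev x y (Ix X.2.2.1) + ev x y (Iy (Sf X)) := by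
    unfold q
    rw [map_add, map_add, map_neg, ev_one]; ring
  rw [e1]
  have h1 := abs_ev_le x y (Ix X.2.2.1)
  have h2 := abs_ev_le x y (Iy (Sf X))
  have h3 : ‖Ix X.2.2.1‖ ≤ ‖X.2.2.1‖ := norm_opL_le _ _ _ _
  have h4 : ‖Iy (Sf X)‖ ≤ ‖Sf X‖ := norm_opL_le _ _ _ _
  have h5 := norm_Sf_le (X := X)
  have h6 := nX3 (X := X)
  have h7 := abs_add_le (ev x y (Ix X.2.2.1)) (ev x y (Iy (Sf X)))
  linarith

theorem abs_tx_le (x y : ℝ) : |ev x y (tx X) - 1| ≤ 2 / 1000 := by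
  have e1 : ev x y (tx X) - 1 = ev x y (Iy X.2.2.2.2) := by
    unfold tx
    rw [map_add, ev_one]; ring
  rw [e1]
  have h1 := abs_ev_le x y (Iy X.2.2.2.2)
  have h3 : ‖Iy X.2.2.2.2‖ ≤ ‖X.2.2.2.2‖ := norm_opL_le _ _ _ _
  have h6 := nX5 (X := X)
  linarith

theorem abs_ty_le (x y : ℝ) : |ev x y (ty X) - 1| ≤ 2 / 1000 := by
  have e1 : ev x y (ty X) - 1 = ev x y (Ix X.2.2.2.2) := by
    unfold ty
    rw [map_add, ev_one]; ring
  rw [e1]
  have h1 := abs_ev_le x y (Ix X.2.2.2.2)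
  have h3 : ‖Ix X.2.2.2.2‖ ≤ ‖X.2.2.2.2‖ := norm_opL_le _ _ _ _
  have h6 := nX5 (X := X)
  linarith

theorem abs_g1_le (x y : ℝ) : |ev x y (g1 X) - 1| ≤ 1 / 100 := by
  have e1 : ev x y (g1 X) = -ev y x (q X) * ev x y (tx X) := by
    unfold g1; rw [ev_mul, map_neg, ev_sw]
  rw [e1]
  have h1 := abs_le.1 (abs_q_le hν y x)
  have h2 := abs_le.1 (abs_tx_le hν x y)
  rw [abs_le]
  constructor <;> nlinarith [h1.1, h1.2, h2.1, h2.2]

theorem abs_g2_le (x y : ℝ) : |ev x y (g2 X) + 1| ≤ 1 / 100 := by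
  have e1 : ev x y (g2 X) = ev x y (q X) * ev x y (ty X) := by
    unfold g2; rw [ev_mul]
  rw [e1]
  have h1 := abs_le.1 (abs_q_le hν x y)
  have h2 := abs_le.1 (abs_ty_le hν x y)
  rw [abs_le]
  constructor <;> nlinarith [h1.1, h1.2, h2.1, h2.2]

include h

theorem abs_U_le : |Uc X - 1| ≤ 1 / 100 := by
  obtain ⟨ξ, -, hξ⟩ := exists_hasDerivAt_eq_slope (fun x => uf X x 0) (fun x => ev x 0 (g1 X))
    (a := 0) (b := 1) (by norm_num)
    (fun x _ => (h.dufx x 0).continuousAt.continuousWithinAt)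
    (fun x _ => h.dufx x 0)
  have h1 : uf X 1 0 = uf X 0 0 + Uc X := by
    have := uf_add_one_left (X := X) 0 0
    rwa [zero_add] at this
  rw [h1] at hξ
  have h2 : Uc X = ev ξ 0 (g1 X) := by rw [hξ]; ring
  rw [h2]
  exact abs_g1_le hν ξ 0

theorem U_pos : 0 < Uc X := by
  have := (abs_le.1 (abs_U_le h hν)).1
  linarith

/-- the change of variables -/
def Th (X : E5) (p : ℝ × ℝ) : ℝ × ℝ := (uf X p.1 p.2 / (2 * Uc X), tf X p.1 p.2 / 2)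

omit h hν in
theorem cd_uf : ContDiff ℝ ∞ (fun p : ℝ × ℝ => uf X p.1 p.2) := by
  unfold uf
  exact (contDiff_const.mul (contDiff_fst.sub contDiff_snd)).add (contDiff_ev _)

omit h hν in
theorem cd_tf : ContDiff ℝ ∞ (fun p : ℝ × ℝ => tf X p.1 p.2) := by
  unfold tf
  exact (contDiff_fst.add contDiff_snd).add (contDiff_ev _)

omit h hν in
theorem cd_Th : ContDiff ℝ ∞ (Th X) := by
  unfold Th
  exact (cd_uf.div_const _).prodMk (cd_tf.div_const _)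

omit hν in
theorem hasFDerivAt_Th (p : ℝ × ℝ) : HasFDerivAt (Th X)
    (matL (ev p.1 p.2 (g1 X) / (2 * Uc X)) (ev p.1 p.2 (g2 X) / (2 * Uc X))
      (ev p.1 p.2 (tx X) / 2) (ev p.1 p.2 (ty X) / 2)) p := by
  have h1 : HasFDerivAt (fun p : ℝ × ℝ => uf X p.1 p.2 / (2 * Uc X))
      (rowL (ev p.1 p.2 (g1 X) / (2 * Uc X)) (ev p.1 p.2 (g2 X) / (2 * Uc X))) (p.1, p.2) :=
    hasFDerivAt_of_partials (φ := fun x y => uf X x y / (2 * Uc X)) (cd_uf.div_const _)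
      ((h.dufx p.1 p.2).div_const _) ((h.dufy p.1 p.2).div_const _)
  have h2 : HasFDerivAt (fun p : ℝ × ℝ => tf X p.1 p.2 / 2)
      (rowL (ev p.1 p.2 (tx X) / 2) (ev p.1 p.2 (ty X) / 2)) (p.1, p.2) :=
    hasFDerivAt_of_partials (φ := fun x y => tf X x y / 2) (cd_tf.div_const _)
      ((h.dtfx p.1 p.2).div_const _) ((h.dtfy p.1 p.2).div_const _)
  exact h1.prodMk h2

theorem det_ne (p : ℝ × ℝ) : ev p.1 p.2 (g1 X) / (2 * Uc X) * (ev p.1 p.2 (ty X) / 2)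
    - ev p.1 p.2 (g2 X) / (2 * Uc X) * (ev p.1 p.2 (tx X) / 2) ≠ 0 := by
  have hU := U_pos h hν
  have h1 := abs_le.1 (abs_g1_le hν p.1 p.2)
  have h2 := abs_le.1 (abs_g2_le hν p.1 p.2)
  have h3 := abs_le.1 (abs_tx_le hν p.1 p.2)
  have h4 := abs_le.1 (abs_ty_le hν p.1 p.2)
  have e1 : ev p.1 p.2 (g1 X) / (2 * Uc X) * (ev p.1 p.2 (ty X) / 2)
    - ev p.1 p.2 (g2 X) / (2 * Uc X) * (ev p.1 p.2 (tx X) / 2)
    = (ev p.1 p.2 (g1 X) * ev p.1 p.2 (ty X) + (-ev p.1 p.2 (g2 X)) * ev p.1 p.2 (tx X))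
      / (4 * Uc X) := by
    field_simp
    ring
  rw [e1]
  apply ne_of_gt
  apply div_pos _ (by positivity)
  have k1 : 0 < ev p.1 p.2 (g1 X) := by linarith
  have k2 : 0 < -ev p.1 p.2 (g2 X) := by linarith
  have k3 : 0 < ev p.1 p.2 (tx X) := by linarith
  have k4 : 0 < ev p.1 p.2 (ty X) := by linarith
  positivity

omit h hν in
theorem det0 : (1 / 2 : ℝ) * (1 / 2) - (-(1 / 2)) * (1 / 2) ≠ 0 := by norm_num

/-- the linear model -/
def L0 : (ℝ × ℝ) ≃L[ℝ] (ℝ × ℝ) := matE (1 / 2) (-(1 / 2)) (1 / 2) (1 / 2) det0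

theorem approx_Th : ApproximatesLinearOn (Th X) (L0 : ℝ × ℝ →L[ℝ] ℝ × ℝ) Set.univ (1 / 10) := by
  intro p _ p' _
  have hU := U_pos h hν
  have hU2 := abs_le.1 (abs_U_le h hν)
  set F : ℝ × ℝ → ℝ × ℝ := fun p => Th X p - (L0 : ℝ × ℝ →L[ℝ] ℝ × ℝ) p with hF
  have hder : ∀ p : ℝ × ℝ, HasFDerivAt F
      (matL (ev p.1 p.2 (g1 X) / (2 * Uc X) - 1 / 2) (ev p.1 p.2 (g2 X) / (2 * Uc X) + 1 / 2)
      (ev p.1 p.2 (tx X) / 2 - 1 / 2) (ev p.1 p.2 (ty X) / 2 - 1 / 2)) p := by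
    intro p
    have h1 := (hasFDerivAt_Th h p).sub (L0 : ℝ × ℝ →L[ℝ] ℝ × ℝ).hasFDerivAt
    refine h1.congr_fderiv ?_
    unfold L0
    rw [matE_coe]
    ext <;> simp [matL, rowL] <;> ring
  have hbd : ∀ p : ℝ × ℝ, ‖matL (ev p.1 p.2 (g1 X) / (2 * Uc X) - 1 / 2)
      (ev p.1 p.2 (g2 X) / (2 * Uc X) + 1 / 2)
      (ev p.1 p.2 (tx X) / 2 - 1 / 2) (ev p.1 p.2 (ty X) / 2 - 1 / 2)‖ ≤ 2 * (1 / 20) := by
    intro p
    have h1 := abs_le.1 (abs_g1_le hν p.1 p.2)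
    have h2 := abs_le.1 (abs_g2_le hν p.1 p.2)
    have h3 := abs_le.1 (abs_tx_le hν p.1 p.2)
    have h4 := abs_le.1 (abs_ty_le hν p.1 p.2)
    apply norm_matL_le
    · have e1 : ev p.1 p.2 (g1 X) / (2 * Uc X) - 1 / 2
          = (ev p.1 p.2 (g1 X) - Uc X) / (2 * Uc X) := by field_simp
      rw [e1, abs_le]
      constructor
      · rw [le_div_iff₀ (by positivity)]; nlinarith
      · rw [div_le_iff₀ (by positivity)]; nlinarith
    · have e1 : ev p.1 p.2 (g2 X) / (2 * Uc X) + 1 / 2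
          = (ev p.1 p.2 (g2 X) + Uc X) / (2 * Uc X) := by field_simp
      rw [e1, abs_le]
      constructor
      · rw [le_div_iff₀ (by positivity)]; nlinarith
      · rw [div_le_iff₀ (by positivity)]; nlinarith
    · rw [abs_le]; constructor <;> linarith
    · rw [abs_le]; constructor <;> linarith
  have hm := Convex.norm_image_sub_le_of_norm_hasFDerivWithin_le (𝕜 := ℝ) (f := F) (s := Set.univ)
    (x := p') (y := p) (C := 2 * (1 / 20))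
    (fun p _ => (hder p).hasFDerivWithinAt) (fun p _ => hbd p) convex_univ trivial trivial
  have e1 : F p - F p' = Th X p - Th X p' - (L0 : ℝ × ℝ →L[ℝ] ℝ × ℝ) (p - p') := by
    rw [hF]
    simp only [map_sub]
    abel
  rw [e1] at hm
  refine hm.trans (le_of_eq ?_)
  congr 1
  norm_num

omit h hν in
theorem L0_symm_norm : ‖(L0.symm : ℝ × ℝ →L[ℝ] ℝ × ℝ)‖₊ ≤ 2 := by
  have h1 : ‖(L0.symm : ℝ × ℝ →L[ℝ] ℝ × ℝ)‖ ≤ 2 * 1 := by
    have e1 : (L0.symm : ℝ × ℝ →L[ℝ] ℝ × ℝ)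
        = matL ((1 / 2) / ((1 / 2 : ℝ) * (1 / 2) - (-(1 / 2)) * (1 / 2)))
          (-(-(1 / 2)) / ((1 / 2 : ℝ) * (1 / 2) - (-(1 / 2)) * (1 / 2)))
          (-(1 / 2) / ((1 / 2 : ℝ) * (1 / 2) - (-(1 / 2)) * (1 / 2)))
          ((1 / 2) / ((1 / 2 : ℝ) * (1 / 2) - (-(1 / 2)) * (1 / 2))) := by
      ext p <;> rfl
    rw [e1]
    apply norm_matL_le <;> norm_num
  rw [← NNReal.coe_le_coe]
  simpa using h1

/-- the change of variables as a homeomorphism -/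
def Hom : (ℝ × ℝ) ≃ₜ (ℝ × ℝ) :=
  (approx_Th h hν).toHomeomorph (Th X) (Or.inr (by
    have h1 := L0_symm_norm
    have h2 : (0 : ℝ≥0) < ‖(L0.symm : ℝ × ℝ →L[ℝ] ℝ × ℝ)‖₊ := by
      rw [pos_iff_ne_zero]
      intro h0
      have h3 : (L0.symm : ℝ × ℝ →L[ℝ] ℝ × ℝ) = 0 := nnnorm_eq_zero.1 h0
      have h4 : (L0.symm : ℝ × ℝ →L[ℝ] ℝ × ℝ) (L0 (1, 0)) = 0 := by rw [h3]; rfl
      simp at h4
    have h3 : (2 : ℝ≥0)⁻¹ ≤ (‖(L0.symm : ℝ × ℝ →L[ℝ] ℝ × ℝ)‖₊)⁻¹ :=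
      inv_anti₀ h2 h1
    refine lt_of_lt_of_le ?_ h3
    rw [← NNReal.coe_lt_coe]
    norm_num))

theorem Hom_apply (p : ℝ × ℝ) : Hom h hν p = Th X p := rfl

theorem cd_Hom_symm : ContDiff ℝ ∞ (Hom h hν).symm := by
  apply Homeomorph.contDiff_symm (Hom h hν) (f₀' := fun p => matE _ _ _ _ (det_ne h hν p))
  · intro p
    rw [matE_coe]
    exact hasFDerivAt_Th h p
  · exact cd_Th

end

end

end MP_114753_an
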