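import Pool.Agent.Lib.MP_114753_an.Graph

/-!
# The family of graphs: monotonicity and continuity in the parameter
-/

namespace MP_114753_an

open Real MeasureTheory
open scoped ContDiff

noncomputable section

section

variable {ε : ℝ} {X : E5} (h : Sys ε X) {l l' : ℝ} (hl : l ≠ 0) (hl' : l' ≠ 0) {a a' : A × A}
  (ha : GSol ε X l⁻¹ a) (ha' : GSol ε X l'⁻¹ a')

include h hl hl' ha ha'

theorem diff_formula (x y : ℝ) : pf ε X l' a' x y - pf ε X l a x y
    = (l' - l) * Real.exp (∫ s in (0:ℝ)..x, ev 0 s (Vy ε X) * ev s 0 a.1 * ev s 0 a'.1)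
      * Real.exp (∫ s in (0:ℝ)..y, ev x s (Vy ε X) * ev x s a.2 * ev x s a'.2) := by
  have h1 : ∀ y, HasDerivAt (fun y => pf ε X l' a' x y - pf ε X l a x y)
      ((ev x y (Vy ε X) * ev x y a.2 * ev x y a'.2) *
        (pf ε X l' a' x y - pf ε X l a x y)) y := by
    intro y
    refine ((ha'.dpy h hl' x y).sub (ha.dpy h hl x y)).congr_deriv ?_
    have e1 := ha.a2 hl x y
    have e2 := ha'.a2 hl' x y
    linear_combination (-ev x y (Vy ε X) * ev x y a.2) * e2 + ev x y (Vy ε X) * ev x y a'.2 * e1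
  have h2 : ∀ x, HasDerivAt (fun x => pf ε X l' a' x 0 - pf ε X l a x 0)
      ((ev 0 x (Vy ε X) * ev x 0 a.1 * ev x 0 a'.1) *
        (pf ε X l' a' x 0 - pf ε X l a x 0)) x := by
    intro x
    refine ((ha'.dpx h hl' x 0).sub (ha.dpx h hl x 0)).congr_deriv ?_
    have e1 := ha.a1 hl x 0
    have e2 := ha'.a1 hl' x 0
    linear_combination (-ev 0 x (Vy ε X) * ev x 0 a.1) * e2 + ev 0 x (Vy ε X) * ev x 0 a'.1 * e1
  have c1 : Continuous fun y => ev x y (Vy ε X) * ev x y a.2 * ev x y a'.2 :=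
    ((continuous_ev_right x _).mul (continuous_ev_right x _)).mul (continuous_ev_right x _)
  have c2 : Continuous fun x => ev 0 x (Vy ε X) * ev x 0 a.1 * ev x 0 a'.1 :=
    ((continuous_ev_right 0 _).mul (continuous_ev_left 0 _)).mul (continuous_ev_left 0 _)
  have h3 := lin_ode c1 h1 y
  have h4 := lin_ode c2 h2 x
  rw [h3, h4, pf_zero, pf_zero]

theorem diff_pos (hll : l < l') (x y : ℝ) : pf ε X l a x y < pf ε X l' a' x y := by
  have h1 := diff_formula h hl hl' ha ha' x y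
  have h2 : 0 < (l' - l) *
      Real.exp (∫ s in (0:ℝ)..x, ev 0 s (Vy ε X) * ev s 0 a.1 * ev s 0 a'.1)
      * Real.exp (∫ s in (0:ℝ)..y, ev x s (Vy ε X) * ev x s a.2 * ev x s a'.2) :=
    mul_pos (mul_pos (sub_pos.2 hll) (Real.exp_pos _)) (Real.exp_pos _)
  rw [← h1] at h2
  linarith

theorem diff_bound (hn : ‖a‖ ≤ 1) (hn' : ‖a'‖ ≤ 1) (x y : ℝ) :
    |pf ε X l' a' x y - pf ε X l a x y|
      ≤ |l' - l| * Real.exp (8 * ‖Vy ε X‖ * (|x| + |y|)) := by
  have hb : ∀ (s t s' t' : ℝ) (c c' : A), ‖c‖ ≤ 1 → ‖c'‖ ≤ 1 →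
      |ev s t (Vy ε X) * ev s' t' c * ev s' t' c'| ≤ 8 * ‖Vy ε X‖ := by
    intro s t s' t' c c' hc hc'
    rw [abs_mul, abs_mul]
    have e1 := abs_ev_le s t (Vy ε X)
    have e2 := (abs_ev_le s' t' c).trans (by linarith : 2 * ‖c‖ ≤ 2)
    have e3 := (abs_ev_le s' t' c').trans (by linarith : 2 * ‖c'‖ ≤ 2)
    calc _ ≤ 2 * ‖Vy ε X‖ * 2 * 2 :=
          mul_le_mul (mul_le_mul e1 e2 (abs_nonneg _) (by positivity)) e3 (abs_nonneg _)
            (by positivity)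
      _ = _ := by ring
  have h1 := diff_formula h hl hl' ha ha' x y
  rw [h1, abs_mul, abs_mul, abs_of_pos (Real.exp_pos _), abs_of_pos (Real.exp_pos _), mul_assoc,
    ← Real.exp_add]
  apply mul_le_mul_of_nonneg_left _ (abs_nonneg _)
  apply Real.exp_le_exp.2
  have n1 : ‖a.1‖ ≤ 1 := (norm_fst_le a).trans hn
  have n2 : ‖a.2‖ ≤ 1 := (norm_snd_le a).trans hn
  have n1' : ‖a'.1‖ ≤ 1 := (norm_fst_le a').trans hn'
  have n2' : ‖a'.2‖ ≤ 1 := (norm_snd_le a').trans hn'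
  have i1 : ‖∫ s in (0:ℝ)..x, ev 0 s (Vy ε X) * ev s 0 a.1 * ev s 0 a'.1‖
      ≤ 8 * ‖Vy ε X‖ * |x - 0| :=
    intervalIntegral.norm_integral_le_of_norm_le_const fun s _ => hb 0 s s 0 _ _ n1 n1'
  have i2 : ‖∫ s in (0:ℝ)..y, ev x s (Vy ε X) * ev x s a.2 * ev x s a'.2‖
      ≤ 8 * ‖Vy ε X‖ * |y - 0| :=
    intervalIntegral.norm_integral_le_of_norm_le_const fun s _ => hb x s x s _ _ n2 n2'
  rw [sub_zero] at i1 i2
  have j1 := (le_abs_self _).trans i1
  have j2 := (le_abs_self _).trans i2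
  linarith

end

/-- the whole family of graph functions -/
structure Fam (ε : ℝ) (X : E5) (c : ℝ) (p : ℝ → ℝ → ℝ → ℝ) : Prop where
  pos : 0 < c
  ex : ∀ l, c < |l| → ∃ a : A × A, GSol ε X l⁻¹ a ∧ p l = pf ε X l a
  near : ∀ l, c < |l| → ∀ x y, |p l x y - l| ≤ 1
  cont : ContinuousOn (fun z : ℝ × ℝ × ℝ => p z.1 z.2.1 z.2.2) {z | c < |z.1|}
  mono : ∀ l l', c < |l| → c < |l'| → l < l' → ∀ x y, p l x y < p l' x y

theorem exists_fam {ε : ℝ} {X : E5} (h : Sys ε X) : ∃ c p, Fam ε X c p := by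
  obtain ⟨K, hK, δ, hδ, H⟩ := exists_gsol h
  set N := ‖Gm ε X‖ with hN
  have hN0 : 0 ≤ N := norm_nonneg _
  set c := 1 / δ + K + 2 * N * K + 1 with hc
  have hcpos : 0 < c := by positivity
  have hsmall : ∀ l : ℝ, c < |l| → |l⁻¹| ≤ δ ∧ K * |l⁻¹| ≤ 1 ∧ 2 * (N * (K * |l⁻¹|)) ≤ 1 := by
    intro l hl
    have hlpos : 0 < |l| := hcpos.trans hl
    rw [abs_inv]
    have h1 : 1 / δ ≤ |l| := by
      have : 0 ≤ K + 2 * N * K := by positivity
      rw [hc] at hl; linarith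
    have h2 : K ≤ |l| := by
      have : 0 ≤ 1 / δ + 2 * N * K := by positivity
      rw [hc] at hl; linarith
    have h3 : 2 * N * K ≤ |l| := by
      have : 0 ≤ 1 / δ + K := by positivity
      rw [hc] at hl; linarith
    refine ⟨?_, ?_, ?_⟩
    · rw [inv_le_comm₀ hlpos hδ]
      simpa using h1
    · rw [← div_eq_mul_inv, div_le_one hlpos]; exact h2
    · have : 2 * (N * (K * |l|⁻¹)) = (2 * N * K) * |l|⁻¹ := by ring
      rw [this, ← div_eq_mul_inv, div_le_one hlpos]; exact h3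
  have hex : ∀ l : ℝ, ∃ a : A × A, c < |l| → GSol ε X l⁻¹ a ∧ ‖a‖ ≤ K * |l⁻¹| := by
    intro l
    by_cases hl : c < |l|
    · obtain ⟨a, ha⟩ := H l⁻¹ (hsmall l hl).1
      exact ⟨a, fun _ => ha⟩
    · exact ⟨0, fun h => absurd h hl⟩
  choose a ha using hex
  have hne : ∀ l : ℝ, c < |l| → l ≠ 0 := by
    intro l hl h0
    rw [h0, abs_zero] at hl
    linarith
  have hn1 : ∀ l : ℝ, c < |l| → ‖a l‖ ≤ 1 := fun l hl => (ha l hl).2.trans (hsmall l hl).2.1
  refine ⟨c, fun l => pf ε X l (a l), hcpos, ?_, ?_, ?_, ?_⟩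
  · intro l hl
    exact ⟨a l, (ha l hl).1, rfl⟩
  · intro l hl x y
    have h1 : pf ε X l (a l) x y - l = ev x y (Gm ε X (a l)) := by unfold pf; ring
    rw [h1]
    calc |ev x y (Gm ε X (a l))| ≤ 2 * ‖Gm ε X (a l)‖ := abs_ev_le _ _ _
      _ ≤ 2 * (N * (K * |l⁻¹|)) := by
          apply mul_le_mul_of_nonneg_left _ (by norm_num)
          exact ((Gm ε X).le_opNorm _).trans (mul_le_mul_of_nonneg_left (ha l hl).2 hN0)
      _ ≤ 1 := (hsmall l hl).2.2
  · rintro ⟨l₀, x₀, y₀⟩ hl₀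
    simp only [Set.mem_ofPred_eq] at hl₀
    rw [Metric.continuousWithinAt_iff]
    intro η hη
    have hc0 : Continuous fun p : ℝ × ℝ => pf ε X l₀ (a l₀) p.1 p.2 := contDiff_pf.continuous
    obtain ⟨δ₁, hδ₁, hδ₁'⟩ := Metric.continuous_iff.1 hc0 (x₀, y₀) (η / 2) (by positivity)
    set M := Real.exp (8 * ‖Vy ε X‖ * (|x₀| + 1 + (|y₀| + 1))) with hM
    have hMpos : 0 < M := Real.exp_pos _
    refine ⟨min (min δ₁ 1) (η / (2 * M)), by positivity, ?_⟩
    rintro ⟨l, x, y⟩ hl hd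
    simp only [Set.mem_ofPred_eq] at hl
    rw [Prod.dist_eq, Prod.dist_eq] at hd
    simp only at hd
    have hd1 : dist l l₀ < η / (2 * M) :=
      (le_max_left _ _).trans_lt (hd.trans_le (min_le_right _ _))
    have hd2 : max (dist x x₀) (dist y y₀) < min δ₁ 1 :=
      (le_max_right _ _).trans_lt (hd.trans_le (min_le_left _ _))
    have hd3 : dist (x, y) (x₀, y₀) < δ₁ := by
      rw [Prod.dist_eq]; exact hd2.trans_le (min_le_left _ _)
    have hx : |x| ≤ |x₀| + 1 := by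
      have h1 : dist x x₀ < 1 := (le_max_left _ _).trans_lt (hd2.trans_le (min_le_right _ _))
      rw [Real.dist_eq] at h1
      have := abs_sub_abs_le_abs_sub x x₀
      linarith
    have hy : |y| ≤ |y₀| + 1 := by
      have h1 : dist y y₀ < 1 := (le_max_right _ _).trans_lt (hd2.trans_le (min_le_right _ _))
      rw [Real.dist_eq] at h1
      have := abs_sub_abs_le_abs_sub y y₀
      linarith
    have hb := diff_bound h (hne l₀ hl₀) (hne l hl) (ha l₀ hl₀).1 (ha l hl).1 (hn1 l₀ hl₀)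
      (hn1 l hl) x y
    have hb2 : |l - l₀| * Real.exp (8 * ‖Vy ε X‖ * (|x| + |y|)) ≤ η / 2 := by
      have e1 : Real.exp (8 * ‖Vy ε X‖ * (|x| + |y|)) ≤ M := by
        apply Real.exp_le_exp.2
        apply mul_le_mul_of_nonneg_left _ (by positivity)
        linarith
      have e2 : |l - l₀| ≤ η / (2 * M) := by rw [← Real.dist_eq]; exact hd1.le
      calc _ ≤ η / (2 * M) * M := mul_le_mul e2 e1 (Real.exp_pos _).le (by positivity)
        _ = η / 2 := by field_simp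
    have hb3 := hδ₁' (x, y) hd3
    rw [Real.dist_eq] at hb3 ⊢
    simp only at hb3 ⊢
    calc |pf ε X l (a l) x y - pf ε X l₀ (a l₀) x₀ y₀|
        = |(pf ε X l (a l) x y - pf ε X l₀ (a l₀) x y)
          + (pf ε X l₀ (a l₀) x y - pf ε X l₀ (a l₀) x₀ y₀)| := by congr 1; ring
      _ ≤ |pf ε X l (a l) x y - pf ε X l₀ (a l₀) x y|
          + |pf ε X l₀ (a l₀) x y - pf ε X l₀ (a l₀) x₀ y₀| := abs_add_le _ _
      _ < η := by linarith
  · intro l l' hl hl' hll x y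
    exact diff_pos h (hne l hl) (hne l' hl') (ha l hl).1 (ha l' hl').1 hll x y

end

end MP_114753_an
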