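import Pool.Agent.Lib.MP_114753_an.Diffeo

/-!
# The potential in space-time, the invariant graphs, and the conclusion
-/

namespace MP_114753_an

open Real MeasureTheory Set
open scoped ContDiff

noncomputable section

/-! ### linear equations on an open interval -/

theorem lin_ode_Ioo {a b s₀ : ℝ} {d k : ℝ → ℝ} (hk : ContinuousOn k (Ioo a b))
    (hd : ∀ s ∈ Ioo a b, HasDerivAt d (k s * d s) s) (hs₀ : s₀ ∈ Ioo a b) (h0 : d s₀ = 0) :
    ∀ s ∈ Ioo a b, d s = 0 := by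
  have hI : ∀ s ∈ Ioo a b, HasDerivAt (fun s => ∫ r in s₀..s, k r) (k s) s := by
    intro s hs
    have hsub : uIcc s₀ s ⊆ Ioo a b := by
      intro r hr
      rcases le_total s₀ s with h | h
      · rw [uIcc_of_le h] at hr
        exact ⟨hs₀.1.trans_le hr.1, hr.2.trans_lt hs.2⟩
      · rw [uIcc_of_ge h] at hr
        exact ⟨hs.1.trans_le hr.1, hr.2.trans_lt hs₀.2⟩
    exact intervalIntegral.integral_hasDerivAt_right (hk.mono hsub).intervalIntegrable
      (hk.stronglyMeasurableAtFilter isOpen_Ioo s hs) (hk.continuousAt (Ioo_mem_nhds hs.1 hs.2))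
  have hE : ∀ s ∈ Ioo a b, HasDerivAt (fun s => d s * Real.exp (-∫ r in s₀..s, k r)) 0 s := by
    intro s hs
    have hI' : HasDerivAt (fun s => -∫ r in s₀..s, k r) (-(k s)) s := (hI s hs).neg
    refine ((hd s hs).mul hI'.exp).congr_deriv ?_
    ring
  intro s hs
  have hc := isOpen_Ioo.is_const_of_deriv_eq_zero (s := Ioo a b) isPreconnected_Ioo
    (f := fun s => d s * Real.exp (-∫ r in s₀..s, k r))
    (fun s hs => (hE s hs).differentiableAt.differentiableWithinAt)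
    (fun s hs => (hE s hs).deriv) hs hs₀
  simp only [h0, zero_mul] at hc
  rcases mul_eq_zero.1 hc with h | h
  · exact h
  · exact absurd h (Real.exp_pos _).ne'

theorem invariant_of_pde {V f : ℝ → ℝ → ℝ} {fu ft : ℝ → ℝ → ℝ}
    (hf : ∀ u t, HasFDerivAt (fun p : ℝ × ℝ => f p.1 p.2) (rowL (fu u t) (ft u t)) (u, t))
    (hc : Continuous (fun p : ℝ × ℝ => fu p.1 p.2))
    (hpde : ∀ u t, ft u t + f u t * fu u t = -(deriv (fun x => V x t) u))
    {a b : ℝ} {u p : ℝ → ℝ}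
    (htr : ∀ s ∈ Ioo a b, HasDerivAt u (p s) s ∧ HasDerivAt p (-(deriv (fun x => V x s) (u s))) s)
    {s₀ : ℝ} (hs₀ : s₀ ∈ Ioo a b) (h0 : p s₀ = f (u s₀) s₀) :
    ∀ s ∈ Ioo a b, p s = f (u s) s := by
  have hd : ∀ s ∈ Ioo a b, HasDerivAt (fun s => p s - f (u s) s)
      ((-fu (u s) s) * (p s - f (u s) s)) s := by
    intro s hs
    obtain ⟨h1, h2⟩ := htr s hs
    have h3 : HasDerivAt (fun s => ((u s, s) : ℝ × ℝ)) (p s, 1) s := h1.prodMk (hasDerivAt_id s)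
    have h4' := HasFDerivAt.comp_hasDerivAt (f := fun s => ((u s, s) : ℝ × ℝ)) s (hf (u s) s) h3
    have h4 : HasDerivAt (fun s => f (u s) s) (rowL (fu (u s) s) (ft (u s) s) (p s, 1)) s := h4'
    refine (h2.sub h4).congr_deriv ?_
    rw [rowL_apply, ← hpde]
    ring
  have hu : ContinuousOn u (Ioo a b) := fun s hs => (htr s hs).1.continuousAt.continuousWithinAt
  have hk : ContinuousOn (fun s => -fu (u s) s) (Ioo a b) := by
    have : ContinuousOn (fun s => ((u s, s) : ℝ × ℝ)) (Ioo a b) := hu.prodMk continuousOn_id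
    exact (hc.comp_continuousOn this).neg
  intro s hs
  have := lin_ode_Ioo hk hd hs₀ (by rw [h0, sub_self]) s hs
  linarith

/-! ### the space-time functions -/

section

variable {ε : ℝ} {X : E5} (h : Sys ε X) (hν : ‖X‖ ≤ 1 / 1000)

/-- pull back of a function of the characteristic coordinates to space-time -/
def pb (G : ℝ → ℝ → ℝ) (u t : ℝ) : ℝ :=
  G ((Hom h hν).symm (u, t)).1 ((Hom h hν).symm (u, t)).2

theorem cd_pb {G : ℝ → ℝ → ℝ} (hG : ContDiff ℝ ∞ (fun p : ℝ × ℝ => G p.1 p.2)) :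
    ContDiff ℝ ∞ (fun p : ℝ × ℝ => pb h hν G p.1 p.2) :=
  hG.comp (cd_Hom_symm h hν)

theorem pb_Th (G : ℝ → ℝ → ℝ) (p : ℝ × ℝ) :
    pb h hν G (Th X p).1 (Th X p).2 = G p.1 p.2 := by
  unfold pb
  have : (Hom h hν).symm ((Th X p).1, (Th X p).2) = p := by
    rw [Prod.mk.eta, ← Hom_apply h hν, Homeomorph.symm_apply_apply]
  rw [this]

theorem Th_symm (u t : ℝ) : Th X ((Hom h hν).symm (u, t)) = (u, t) := by
  rw [← Hom_apply h hν, Homeomorph.apply_symm_apply]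

theorem symm_add_u (u t : ℝ) : (Hom h hν).symm (u + 1, t)
    = (((Hom h hν).symm (u, t)).1 + 1, ((Hom h hν).symm (u, t)).2 - 1) := by
  rw [Homeomorph.symm_apply_eq, Hom_apply]
  have h1 := Th_symm h hν u t
  set z := (Hom h hν).symm (u, t) with hz
  unfold Th at h1 ⊢
  simp only at h1 ⊢
  have a1 : uf X z.1 (z.2 - 1) = uf X z.1 z.2 + Uc X := by
    have := uf_add_one_right (X := X) z.1 (z.2 - 1)
    rw [sub_add_cancel] at this
    linarith
  have a2 : tf X z.1 (z.2 - 1) = tf X z.1 z.2 - 1 := by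
    have := tf_add_one_right (X := X) z.1 (z.2 - 1)
    rw [sub_add_cancel] at this
    linarith
  have hU := U_pos h hν
  rw [uf_add_one_left, tf_add_one_left, a1, a2]
  have e1 := congrArg Prod.fst h1
  have e2 := congrArg Prod.snd h1
  simp only at e1 e2
  rw [← e1, ← e2]
  ext
  · simp only; field_simp; ring
  · simp only; ring

theorem symm_add_t (u t : ℝ) : (Hom h hν).symm (u, t + 1)
    = (((Hom h hν).symm (u, t)).1 + 1, ((Hom h hν).symm (u, t)).2 + 1) := by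
  rw [Homeomorph.symm_apply_eq, Hom_apply]
  have h1 := Th_symm h hν u t
  set z := (Hom h hν).symm (u, t) with hz
  unfold Th at h1 ⊢
  simp only at h1 ⊢
  rw [uf_add_one_left, tf_add_one_left, uf_add_one_right, tf_add_one_right]
  have e1 := congrArg Prod.fst h1
  have e2 := congrArg Prod.snd h1
  simp only at e1 e2
  rw [← e1, ← e2]
  ext
  · simp only; ring
  · simp only; ring

theorem pb_add_u {G : ℝ → ℝ → ℝ} (hx : ∀ x y, G (x + 1) y = G x y)
    (hy : ∀ x y, G x (y + 1) = G x y) (u t : ℝ) : pb h hν G (u + 1) t = pb h hν G u t := by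
  unfold pb
  rw [symm_add_u]
  simp only
  rw [hx]
  have := hy ((Hom h hν).symm (u, t)).1 (((Hom h hν).symm (u, t)).2 - 1)
  rw [sub_add_cancel] at this
  exact this.symm

theorem pb_add_t {G : ℝ → ℝ → ℝ} (hx : ∀ x y, G (x + 1) y = G x y)
    (hy : ∀ x y, G x (y + 1) = G x y) (u t : ℝ) : pb h hν G u (t + 1) = pb h hν G u t := by
  unfold pb
  rw [symm_add_t]
  simp only
  rw [hx, hy]

/-- chain rule -/
theorem pb_chain {G : ℝ → ℝ → ℝ} (hG : ContDiff ℝ ∞ (fun p : ℝ × ℝ => G p.1 p.2)) {x y Gx Gy : ℝ}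
    (hx : HasDerivAt (fun x => G x y) Gx x) (hy : HasDerivAt (fun y => G x y) Gy y) :
    Gx = fderiv ℝ (fun p : ℝ × ℝ => pb h hν G p.1 p.2) (Th X (x, y)) (1, 0)
          * (ev x y (g1 X) / (2 * Uc X))
        + fderiv ℝ (fun p : ℝ × ℝ => pb h hν G p.1 p.2) (Th X (x, y)) (0, 1)
          * (ev x y (tx X) / 2) ∧
    Gy = fderiv ℝ (fun p : ℝ × ℝ => pb h hν G p.1 p.2) (Th X (x, y)) (1, 0)
          * (ev x y (g2 X) / (2 * Uc X))
        + fderiv ℝ (fun p : ℝ × ℝ => pb h hν G p.1 p.2) (Th X (x, y)) (0, 1)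
          * (ev x y (ty X) / 2) := by
  set φ : ℝ × ℝ → ℝ := fun p => pb h hν G p.1 p.2 with hφ
  have h1 : HasFDerivAt φ (fderiv ℝ φ (Th X (x, y))) (Th X (x, y)) :=
    ((cd_pb h hν hG).differentiable (by simp) _).hasFDerivAt
  have h2 := h1.comp (x, y) (hasFDerivAt_Th h (x, y))
  have h3 : φ ∘ Th X = fun p : ℝ × ℝ => G p.1 p.2 := by
    funext p
    exact pb_Th h hν G p
  rw [h3] at h2
  have h4 := h2.unique (hasFDerivAt_of_partials hG hx hy)
  have key : ∀ s t : ℝ, fderiv ℝ φ (Th X (x, y)) (s, t)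
      = fderiv ℝ φ (Th X (x, y)) (1, 0) * s + fderiv ℝ φ (Th X (x, y)) (0, 1) * t := by
    intro s t
    have : ((s, t) : ℝ × ℝ) = s • (1, 0) + t • (0, 1) := by ext <;> simp
    rw [this, map_add, map_smul, map_smul, smul_eq_mul, smul_eq_mul]
    ring
  constructor
  · have h5 := DFunLike.congr_fun h4 (1, 0)
    rw [ContinuousLinearMap.comp_apply, matL_apply, rowL_apply, key] at h5
    simp only [mul_one, mul_zero, add_zero] at h5
    exact h5.symm
  · have h5 := DFunLike.congr_fun h4 (0, 1)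
    rw [ContinuousLinearMap.comp_apply, matL_apply, rowL_apply, key] at h5
    simp only [mul_one, mul_zero, zero_add] at h5
    exact h5.symm

/-- the potential -/
def Vn (ε : ℝ) {X : E5} (h : Sys ε X) (hν : ‖X‖ ≤ 1 / 1000) : ℝ → ℝ → ℝ :=
  pb h hν (fun x y => Vf ε X x y / (Uc X) ^ 2)

/-- the graph functions -/
def fn (h : Sys ε X) (hν : ‖X‖ ≤ 1 / 1000) (P : ℝ → ℝ → ℝ) : ℝ → ℝ → ℝ :=
  pb h hν (fun x y => P x y / Uc X)

theorem cd_Vf : ContDiff ℝ ∞ (fun p : ℝ × ℝ => Vf ε X p.1 p.2 / (Uc X) ^ 2) := by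
  unfold Vf
  have h1 : ContDiff ℝ ∞ (fun p : ℝ × ℝ => ev p.2 p.1 (ce ε)) := by
    have : (fun p : ℝ × ℝ => ev p.2 p.1 (ce ε)) = fun p : ℝ × ℝ => ev p.1 p.2 (sw (ce ε)) := by
      funext p; rw [ev_sw]
    rw [this]
    exact contDiff_ev _
  exact (((contDiff_ev _).add h1).add (contDiff_ev _)).div_const _

theorem cd_Vn : ContDiff ℝ ∞ (fun p : ℝ × ℝ => Vn ε h hν p.1 p.2) := cd_pb h hν cd_Vf

theorem Vn_add_u (u t : ℝ) : Vn ε h hν (u + 1) t = Vn ε h hν u t :=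
  pb_add_u h hν (fun x y => by simp only [Vf_add_one_left])
    (fun x y => by simp only [Vf_add_one_right]) u t

theorem Vn_add_t (u t : ℝ) : Vn ε h hν u (t + 1) = Vn ε h hν u t :=
  pb_add_t h hν (fun x y => by simp only [Vf_add_one_left])
    (fun x y => by simp only [Vf_add_one_right]) u t

theorem deriv_Vn (u t : ℝ) : deriv (fun x => Vn ε h hν x t) u
    = fderiv ℝ (fun p : ℝ × ℝ => Vn ε h hν p.1 p.2) (u, t) (1, 0) := by
  have h1 : HasFDerivAt (fun p : ℝ × ℝ => Vn ε h hν p.1 p.2)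
      (fderiv ℝ (fun p : ℝ × ℝ => Vn ε h hν p.1 p.2) (u, t)) (u, t) :=
    ((cd_Vn h hν).differentiable (by simp) _).hasFDerivAt
  have lx : HasDerivAt (fun x : ℝ => ((x, t) : ℝ × ℝ)) (1, 0) u :=
    (hasDerivAt_id u).prodMk (hasDerivAt_const u t)
  exact (h1.comp_hasDerivAt u lx).deriv

section graph

variable {l : ℝ} (hl : l ≠ 0) {a : A × A} (ha : GSol ε X l⁻¹ a)

theorem cd_pfU : ContDiff ℝ ∞ (fun p : ℝ × ℝ => pf ε X l a p.1 p.2 / Uc X) :=
  contDiff_pf.div_const _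

include hl ha

theorem pde (u t : ℝ) :
    fderiv ℝ (fun p : ℝ × ℝ => fn h hν (pf ε X l a) p.1 p.2) (u, t) (0, 1)
      + fn h hν (pf ε X l a) u t
        * fderiv ℝ (fun p : ℝ × ℝ => fn h hν (pf ε X l a) p.1 p.2) (u, t) (1, 0)
      = -(deriv (fun x => Vn ε h hν x t) u) := by
  rw [deriv_Vn]
  set z := (Hom h hν).symm (u, t) with hz
  have hTh : Th X (z.1, z.2) = (u, t) := Th_symm h hν u t
  have hU := U_pos h hν
  obtain ⟨b1, b2⟩ := pb_chain h hν (x := z.1) (y := z.2) (G := fun x y => Vf ε X x y / (Uc X) ^ 2)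
    cd_Vf ((h.dVfx z.1 z.2).div_const _) ((h.dVfy z.1 z.2).div_const _)
  obtain ⟨c1, c2⟩ := pb_chain h hν (x := z.1) (y := z.2) (G := fun x y => pf ε X l a x y / Uc X)
    cd_pfU ((ha.dpx h hl z.1 z.2).div_const _) ((ha.dpy h hl z.1 z.2).div_const _)
  rw [hTh] at b1 b2 c1 c2
  have hfn : fn h hν (pf ε X l a) u t = pf ε X l a z.1 z.2 / Uc X := rfl
  have e1 := ha.a1 hl z.1 z.2
  have e2 := ha.a2 hl z.1 z.2
  have eg1 : ev z.1 z.2 (g1 X) = -ev z.2 z.1 (q X) * ev z.1 z.2 (tx X) := by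
    unfold g1; rw [ev_mul, map_neg, ev_sw]
  have eg2 : ev z.1 z.2 (g2 X) = ev z.1 z.2 (q X) * ev z.1 z.2 (ty X) := by
    unfold g2; rw [ev_mul]
  have htx : ev z.1 z.2 (tx X) ≠ 0 := by
    have := (abs_le.1 (abs_tx_le hν z.1 z.2)).1
    intro h0; rw [h0] at this; linarith
  have hty : ev z.1 z.2 (ty X) ≠ 0 := by
    have := (abs_le.1 (abs_ty_le hν z.1 z.2)).1
    intro h0; rw [h0] at this; linarith
  have hΔ : ev z.1 z.2 (q X) + ev z.2 z.1 (q X) ≠ 0 := by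
    have := h.Delta_ne z.1 z.2
    intro h0; apply this; linarith
  rw [hfn]
  rw [eg1] at b1 c1
  rw [eg2] at b2 c2
  change _ = -(fderiv ℝ (fun p : ℝ × ℝ => pb h hν (fun x y => Vf ε X x y / (Uc X) ^ 2) p.1 p.2)
    (u, t) (1, 0))
  change fderiv ℝ (fun p : ℝ × ℝ => pb h hν (fun x y => pf ε X l a x y / Uc X) p.1 p.2)
      (u, t) (0, 1) + _ * fderiv ℝ (fun p : ℝ × ℝ => pb h hν (fun x y => pf ε X l a x y / Uc X)
        p.1 p.2) (u, t) (1, 0) = _
  generalize fderiv ℝ (fun p : ℝ × ℝ => pb h hν (fun x y => Vf ε X x y / (Uc X) ^ 2) p.1 p.2)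
    (u, t) (1, 0) = Vu at *
  generalize fderiv ℝ (fun p : ℝ × ℝ => pb h hν (fun x y => Vf ε X x y / (Uc X) ^ 2) p.1 p.2)
    (u, t) (0, 1) = Vt at *
  generalize fderiv ℝ (fun p : ℝ × ℝ => pb h hν (fun x y => pf ε X l a x y / Uc X) p.1 p.2)
    (u, t) (1, 0) = fu at *
  generalize fderiv ℝ (fun p : ℝ × ℝ => pb h hν (fun x y => pf ε X l a x y / Uc X) p.1 p.2)
    (u, t) (0, 1) = ft at *
  generalize ev z.1 z.2 (q X) = q1 at *
  generalize ev z.2 z.1 (q X) = q2 at *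
  generalize ev z.1 z.2 (tx X) = τx at *
  generalize ev z.1 z.2 (ty X) = τy at *
  generalize pf ε X l a z.1 z.2 = P at *
  generalize ev z.1 z.2 a.1 = α at *
  generalize ev z.1 z.2 a.2 = β at *
  generalize ev z.2 z.1 (Vy ε X) = A1 at *
  generalize ev z.1 z.2 (Vy ε X) = A2 at *
  generalize hUU : Uc X = U at *
  have hU' : U ≠ 0 := hU.ne'
  -- clear denominators
  have b1' : 2 * A1 = U * τx * (-q2 * Vu + U * Vt) := by
    field_simp at b1
    linear_combination b1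
  have b2' : 2 * A2 = U * τy * (q1 * Vu + U * Vt) := by
    field_simp at b2
    linear_combination b2
  have c1' : -2 * (A1 * α) = τx * (-q2 * fu + U * ft) := by
    field_simp at c1
    linear_combination c1
  have c2' : -2 * (A2 * β) = τy * (q1 * fu + U * ft) := by
    field_simp at c2
    linear_combination c2
  have hA : (P - q1) * (q2 * fu - U * ft) = U * (-q2 * Vu + U * Vt) := by
    apply mul_left_cancel₀ htx
    linear_combination (P - q1) * c1' + (2 * A1) * e1 + b1'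
  have hB : -(P + q2) * (q1 * fu + U * ft) = U * (q1 * Vu + U * Vt) := by
    apply mul_left_cancel₀ hty
    linear_combination (P + q2) * c2' + (2 * A2) * e2 + b2'
  have hfin : (q1 + q2) * (P * fu + U * ft) = (q1 + q2) * (-(U * Vu)) := by
    linear_combination hA - hB
  have hfin2 := mul_left_cancel₀ hΔ hfin
  field_simp
  linear_combination hfin2

theorem invariant {A' B' : ℝ} {u p : ℝ → ℝ}
    (htr : ∀ s ∈ Ioo A' B', HasDerivAt u (p s) s ∧
      HasDerivAt p (-(deriv (fun x => Vn ε h hν x s) (u s))) s)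
    {s₀ : ℝ} (hs₀ : s₀ ∈ Ioo A' B') (h0 : p s₀ = fn h hν (pf ε X l a) (u s₀) s₀) :
    ∀ s ∈ Ioo A' B', p s = fn h hν (pf ε X l a) (u s) s := by
  have hcd : ContDiff ℝ ∞ (fun p : ℝ × ℝ => fn h hν (pf ε X l a) p.1 p.2) := cd_pb h hν cd_pfU
  apply invariant_of_pde (V := Vn ε h hν) (f := fn h hν (pf ε X l a))
    (fu := fun u t => fderiv ℝ (fun p : ℝ × ℝ => fn h hν (pf ε X l a) p.1 p.2) (u, t) (1, 0))
    (ft := fun u t => fderiv ℝ (fun p : ℝ × ℝ => fn h hν (pf ε X l a) p.1 p.2) (u, t) (0, 1))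
    ?_ ?_ (pde h hν hl ha) htr hs₀ h0
  · intro u t
    have h1 : HasFDerivAt (fun p : ℝ × ℝ => fn h hν (pf ε X l a) p.1 p.2)
      (fderiv ℝ (fun p : ℝ × ℝ => fn h hν (pf ε X l a) p.1 p.2) (u, t)) (u, t) :=
      (hcd.differentiable (by simp) _).hasFDerivAt
    refine h1.congr_fderiv ?_
    ext <;> simp [rowL]
  · have h1 : Continuous (fderiv ℝ (fun p : ℝ × ℝ => fn h hν (pf ε X l a) p.1 p.2)) :=
      hcd.continuous_fderiv (by simp)
    exact h1.clm_apply continuous_const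

end graph

/-! ### the potential is not in the family -/

theorem Vn_zero_diff : ∃ u₀ u₁ : ℝ, 4 * ε - 4 * ‖Wf X‖
    ≤ (Vn ε h hν u₀ 0 - Vn ε h hν u₁ 0) * (Uc X) ^ 2 := by
  have hU := U_pos h hν
  refine ⟨(Th X (0, 0)).1, (Th X (1 / 2, -(1 / 2))).1, ?_⟩
  have e0 : (Th X (0, 0)).2 = 0 := by
    unfold Th; simp only; rw [h.tf_zero]; simp
  have e1 : (Th X (1 / 2, -(1 / 2))).2 = 0 := by
    unfold Th; simp only; rw [h.tf_half]; simp
  have a0 : Vn ε h hν (Th X (0, 0)).1 0 = Vf ε X 0 0 / (Uc X) ^ 2 := by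
    have := pb_Th h hν (fun x y => Vf ε X x y / (Uc X) ^ 2) (0, 0)
    rw [e0] at this
    exact this
  have a1 : Vn ε h hν (Th X (1 / 2, -(1 / 2))).1 0 = Vf ε X (1 / 2) (-(1 / 2)) / (Uc X) ^ 2 := by
    have := pb_Th h hν (fun x y => Vf ε X x y / (Uc X) ^ 2) (1 / 2, -(1 / 2))
    rw [e1] at this
    exact this
  rw [a0, a1]
  have hc0 : Vf ε X 0 0 = 2 * ε + ev 0 0 (Ix (Iy (Wf X))) := by
    unfold Vf
    rw [ev_ce]
    simp
    ring
  have hc1 : Vf ε X (1 / 2) (-(1 / 2)) = -(2 * ε) + ev (1 / 2) (-(1 / 2)) (Ix (Iy (Wf X))) := by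
    unfold Vf
    rw [ev_ce, ev_ce]
    have k1 : cos (2 * π * -(1 / 2)) = -1 := by
      rw [show 2 * π * -(1 / 2) = -π by ring, cos_neg, cos_pi]
    have k2 : cos (2 * π * (1 / 2)) = -1 := by
      rw [show 2 * π * (1 / 2) = π by ring, cos_pi]
    rw [k1, k2]
    ring
  have hn : ‖Ix (Iy (Wf X))‖ ≤ ‖Wf X‖ :=
    (norm_opL_le _ _ _ _).trans (norm_opL_le _ _ _ _)
  have b0 := abs_le.1 (abs_ev_le 0 0 (Ix (Iy (Wf X))))
  have b1 := abs_le.1 (abs_ev_le (1 / 2) (-(1 / 2)) (Ix (Iy (Wf X))))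
  have hfin : (Vf ε X 0 0 / (Uc X) ^ 2 - Vf ε X (1 / 2) (-(1 / 2)) / (Uc X) ^ 2) * (Uc X) ^ 2
      = Vf ε X 0 0 - Vf ε X (1 / 2) (-(1 / 2)) := by
    field_simp
  rw [hfin, hc0, hc1]
  linarith [b0.1, b1.2]

theorem Vn_quarter (hε : 0 < ε) (u : ℝ) :
    |Vn ε h hν u (1 / 4)| * (Uc X) ^ 2 ≤ ε / 50 + 2 * ‖Wf X‖ := by
  have hU := U_pos h hν
  set z := (Hom h hν).symm (u, 1 / 4) with hz
  have hTh : Th X (z.1, z.2) = (u, 1 / 4) := Th_symm h hν u (1 / 4)
  have ht : tf X z.1 z.2 = 1 / 2 := by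
    have := congrArg Prod.snd hTh
    unfold Th at this
    simp only at this
    linarith
  have hV : Vn ε h hν u (1 / 4) = Vf ε X z.1 z.2 / (Uc X) ^ 2 := rfl
  have hζ : |ev z.1 z.2 (Ix (Iy X.2.2.2.2))| ≤ 2 / 1000 := by
    have h1 := abs_ev_le z.1 z.2 (Ix (Iy X.2.2.2.2))
    have h2 : ‖Ix (Iy X.2.2.2.2)‖ ≤ ‖X.2.2.2.2‖ :=
      (norm_opL_le _ _ _ _).trans (norm_opL_le _ _ _ _)
    have h3 := nX5 (X := X)
    linarith
  have hsum : z.1 + z.2 = 1 / 2 - ev z.1 z.2 (Ix (Iy X.2.2.2.2)) := by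
    unfold tf at ht
    linarith
  have hcos : |cos (2 * π * z.2) + cos (2 * π * z.1)| ≤ 1 / 50 := by
    have e1 : cos (2 * π * z.2) + cos (2 * π * z.1)
        = 2 * cos (π * (z.1 + z.2)) * cos (π * (z.2 - z.1)) := by
      rw [Real.cos_add_cos]
      congr 2
      · congr 1
        ring
      · ring
    rw [e1, hsum]
    have e2 : cos (π * (1 / 2 - ev z.1 z.2 (Ix (Iy X.2.2.2.2))))
        = sin (π * ev z.1 z.2 (Ix (Iy X.2.2.2.2))) := by
      rw [show π * (1 / 2 - ev z.1 z.2 (Ix (Iy X.2.2.2.2)))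
        = π / 2 - π * ev z.1 z.2 (Ix (Iy X.2.2.2.2)) by ring, cos_pi_div_two_sub]
    rw [e2, abs_mul, abs_mul]
    have e3 : |sin (π * ev z.1 z.2 (Ix (Iy X.2.2.2.2)))| ≤ π * (2 / 1000) := by
      have h1 := Real.abs_sin_le_abs (x := π * ev z.1 z.2 (Ix (Iy X.2.2.2.2)))
      rw [abs_mul, abs_of_pos pi_pos] at h1
      exact h1.trans (mul_le_mul_of_nonneg_left hζ pi_pos.le)
    have e4 : |cos (π * (z.2 - z.1))| ≤ 1 := abs_cos_le_one _
    have e5 : π < 3.15 := pi_lt_d2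
    have e6 : |(2:ℝ)| = 2 := by norm_num
    rw [e6]
    calc 2 * |sin (π * ev z.1 z.2 (Ix (Iy X.2.2.2.2)))| * |cos (π * (z.2 - z.1))|
        ≤ 2 * (π * (2 / 1000)) * 1 :=
          mul_le_mul (mul_le_mul_of_nonneg_left e3 (by norm_num)) e4 (abs_nonneg _)
            (by positivity)
      _ ≤ 1 / 50 := by linarith
  have hn : ‖Ix (Iy (Wf X))‖ ≤ ‖Wf X‖ :=
    (norm_opL_le _ _ _ _).trans (norm_opL_le _ _ _ _)
  have hb := abs_ev_le z.1 z.2 (Ix (Iy (Wf X)))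
  have hVf : |Vf ε X z.1 z.2| ≤ ε / 50 + 2 * ‖Wf X‖ := by
    have e1 : Vf ε X z.1 z.2 = ε * (cos (2 * π * z.2) + cos (2 * π * z.1))
        + ev z.1 z.2 (Ix (Iy (Wf X))) := by
      unfold Vf
      rw [ev_ce, ev_ce]; ring
    rw [e1]
    calc _ ≤ |ε * (cos (2 * π * z.2) + cos (2 * π * z.1))| + |ev z.1 z.2 (Ix (Iy (Wf X)))| :=
          abs_add_le _ _
      _ = ε * |cos (2 * π * z.2) + cos (2 * π * z.1)| + |ev z.1 z.2 (Ix (Iy (Wf X)))| := by
          rw [abs_mul, abs_of_pos hε]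
      _ ≤ ε * (1 / 50) + 2 * ‖Wf X‖ := by
          apply add_le_add (mul_le_mul_of_nonneg_left hcos hε.le)
          linarith
      _ = _ := by ring
  rw [hV, abs_div, abs_of_pos (by positivity : 0 < (Uc X) ^ 2), div_mul_cancel₀ _ (by positivity)]
  exact hVf

theorem not_family (hε : 0 < ε) (hsmall : 128 * ‖X‖ ^ 2 ≤ ε) :
    ¬ ∃ (n : ℤ) (m : ℝ) (W g : ℝ → ℝ), ∀ u t, Vn ε h hν u t = W (n * u + m * t) + g t := by
  rintro ⟨n, m, W, g, hW⟩
  obtain ⟨u₀, u₁, h1⟩ := Vn_zero_diff h hν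
  have hWn := norm_Wf_le (X := X)
  by_cases hn : n = 0
  · have h2 : Vn ε h hν u₀ 0 = Vn ε h hν u₁ 0 := by
      rw [hW, hW, hn]; simp
    rw [h2, sub_self, zero_mul] at h1
    nlinarith
  · have hn' : (n : ℝ) ≠ 0 := by exact_mod_cast hn
    have h2 : ∀ u, Vn ε h hν (u - m / (4 * n)) (1 / 4) - g (1 / 4) = Vn ε h hν u 0 - g 0 := by
      intro u
      rw [hW, hW]
      have e1 : (n : ℝ) * (u - m / (4 * n)) + m * (1 / 4) = n * u + m * 0 := by
        field_simp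
        ring
      rw [e1]
      ring
    have h3 := h2 u₀
    have h4 := h2 u₁
    have h5 := Vn_quarter h hν hε (u₀ - m / (4 * n))
    have h6 := Vn_quarter h hν hε (u₁ - m / (4 * n))
    have h7 : Vn ε h hν u₀ 0 - Vn ε h hν u₁ 0
        = Vn ε h hν (u₀ - m / (4 * n)) (1 / 4) - Vn ε h hν (u₁ - m / (4 * n)) (1 / 4) := by
      linarith
    rw [h7, sub_mul] at h1
    have hU := U_pos h hν
    have hU2 : 0 < (Uc X) ^ 2 := by positivity
    have h8 : Vn ε h hν (u₀ - m / (4 * n)) (1 / 4) * (Uc X) ^ 2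
        ≤ |Vn ε h hν (u₀ - m / (4 * n)) (1 / 4)| * (Uc X) ^ 2 :=
      mul_le_mul_of_nonneg_right (le_abs_self _) hU2.le
    have h9 : -(Vn ε h hν (u₁ - m / (4 * n)) (1 / 4) * (Uc X) ^ 2)
        ≤ |Vn ε h hν (u₁ - m / (4 * n)) (1 / 4)| * (Uc X) ^ 2 := by
      rw [← neg_mul]
      exact mul_le_mul_of_nonneg_right (neg_le_abs _) hU2.le
    linarith

end

end

end MP_114753_an
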