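import Mathlib

/-!
# A fixed point theorem with a small parameter, inside an invariant closed set
-/

namespace MP_114753_an

open Filter Topology
open scoped NNReal

theorem exists_fixed {P E : Type*} [NormedAddCommGroup P] [NormedSpace ℝ P]
    [NormedAddCommGroup E] [NormedSpace ℝ E] [CompleteSpace E] (Φ : P × E → E)
    (hΦ : ContDiff ℝ 1 Φ) (h2 : ∃ C, ∀ X, ‖X‖ ≤ 1 → ‖Φ (0, X)‖ ≤ C * ‖X‖ ^ 2) :
    ∃ K > 0, ∃ δ > 0, ∀ (V : Set E), IsClosed V → (0 : E) ∈ V → ∀ F : P, ‖F‖ ≤ δ →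
      (∀ X ∈ V, Φ (F, X) ∈ V) → ∃ X ∈ V, ‖X‖ ≤ K * ‖F‖ ∧ Φ (F, X) = X := by
  obtain ⟨C, hC⟩ := h2
  have hs : HasStrictFDerivAt Φ (fderiv ℝ Φ (0, 0)) (0, 0) :=
    hΦ.contDiffAt.hasStrictFDerivAt (by norm_num)
  set Φ' := fderiv ℝ Φ (0, 0) with hΦ'
  -- the derivative in the X direction vanishes
  have hX : ∀ X : E, Φ' (0, X) = 0 := by
    have h1 : HasFDerivAt (fun X : E => Φ (0, X)) (Φ'.comp (ContinuousLinearMap.inr ℝ P E)) 0 := by
      have ha : HasFDerivAt (fun X : E => ((0 : P), X)) (ContinuousLinearMap.inr ℝ P E) 0 :=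
        (ContinuousLinearMap.inr ℝ P E).hasFDerivAt
      exact HasFDerivAt.comp (g := Φ) (0 : E) hs.hasFDerivAt ha
    have hz : Φ (0, 0) = 0 := by
      have := hC 0 (by simp)
      simpa using this
    have h3 : HasFDerivAt (fun X : E => Φ (0, X)) (0 : E →L[ℝ] E) 0 := by
      rw [hasFDerivAt_iff_isLittleO_nhds_zero]
      simp only [zero_add, hz, sub_zero, zero_apply]
      rw [Asymptotics.isLittleO_iff]
      intro c hc
      have hball : ∀ᶠ X : E in 𝓝 0, ‖X‖ < min 1 (c / (|C| + 1)) := by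
        have : Metric.ball (0 : E) (min 1 (c / (|C| + 1))) ∈ 𝓝 (0 : E) :=
          Metric.ball_mem_nhds _ (by positivity)
        filter_upwards [this] with X hX
        simpa using hX
      filter_upwards [hball] with X hX
      have hX1 : ‖X‖ ≤ 1 := (hX.trans_le (min_le_left _ _)).le
      have hX2 : ‖X‖ ≤ c / (|C| + 1) := (hX.trans_le (min_le_right _ _)).le
      calc ‖Φ (0, X)‖ ≤ C * ‖X‖ ^ 2 := hC X hX1
        _ ≤ (|C| + 1) * ‖X‖ ^ 2 := by
            apply mul_le_mul_of_nonneg_right _ (by positivity)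
            have := le_abs_self C
            linarith
        _ = ((|C| + 1) * ‖X‖) * ‖X‖ := by ring
        _ ≤ c * ‖X‖ := by
            apply mul_le_mul_of_nonneg_right _ (norm_nonneg _)
            rw [le_div_iff₀ (by positivity)] at hX2
            linarith
    intro X
    have := DFunLike.congr_fun (h1.unique h3) X
    simpa using this
  have hz : Φ (0, 0) = 0 := by
    have := hC 0 (by simp)
    simpa using this
  obtain ⟨s, hs0, happ⟩ := hs.approximates_deriv_on_nhds (c := (1 / 2 : ℝ≥0))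
    (Or.inr (by norm_num))
  obtain ⟨r, hr, hrs⟩ := Metric.mem_nhds_iff.1 hs0
  set K : ℝ := 2 * (‖Φ'‖ + 1) with hK
  have hKpos : 0 < K := by positivity
  have hKge : (2 : ℝ) ≤ K := by
    have := norm_nonneg Φ'
    rw [hK]; linarith
  refine ⟨K, hKpos, min (r / 2) (r / (2 * K)), by positivity, ?_⟩
  intro V hV h0V F hF hmaps
  have hF1 : ‖F‖ < r := by
    have := hF.trans (min_le_left _ _)
    linarith
  have hF2 : K * ‖F‖ < r := by
    have h := hF.trans (min_le_right _ _)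
    rw [le_div_iff₀ (by positivity)] at h
    nlinarith
  have hmem : ∀ X : E, ‖X‖ ≤ K * ‖F‖ → (F, X) ∈ s := by
    intro X hX
    apply hrs
    rw [Metric.mem_ball, dist_eq_norm, Prod.norm_def]
    simp only [Prod.fst_sub, Prod.snd_sub, sub_zero]
    exact max_lt hF1 (hX.trans_lt hF2)
  have hmem0 : ((0 : P), (0 : E)) ∈ s := by
    apply hrs
    simp [hr]
  have hlip : ∀ X Y : E, ‖X‖ ≤ K * ‖F‖ → ‖Y‖ ≤ K * ‖F‖ →
      ‖Φ (F, X) - Φ (F, Y)‖ ≤ (1 / 2) * ‖X - Y‖ := by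
    intro X Y h1 h2
    have h := happ (F, X) (hmem X h1) (F, Y) (hmem Y h2)
    have e1 : ((F, X) : P × E) - (F, Y) = (0, X - Y) := by simp
    rw [e1, hX, sub_zero] at h
    have e2 : ‖((0 : P), X - Y)‖ = ‖X - Y‖ := by simp [Prod.norm_def]
    rw [e2] at h
    simpa using h
  have hbase : ‖Φ (F, 0)‖ ≤ (‖Φ'‖ + 1) * ‖F‖ := by
    have h := happ (F, 0) (hmem 0 (by simp; positivity)) (0, 0) hmem0
    have e1 : ((F, 0) : P × E) - (0, 0) = (F, 0) := by simp
    rw [e1, hz, sub_zero] at h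
    have e2 : ‖((F : P), (0 : E))‖ = ‖F‖ := by simp [Prod.norm_def]
    have h3 : ‖Φ' (F, 0)‖ ≤ ‖Φ'‖ * ‖F‖ := by
      have := Φ'.le_opNorm (F, 0)
      rwa [e2] at this
    have h4 : ‖Φ (F, 0)‖ ≤ ‖Φ (F, 0) - Φ' (F, 0)‖ + ‖Φ' (F, 0)‖ := by
      have := norm_add_le (Φ (F, 0) - Φ' (F, 0)) (Φ' (F, 0))
      simpa using this
    rw [e2] at h
    have h5 : ((1 / 2 : ℝ≥0) : ℝ) = 1 / 2 := by norm_num
    rw [h5] at h
    nlinarith [norm_nonneg F]
  set S : Set E := V ∩ Metric.closedBall 0 (K * ‖F‖) with hS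
  have hSc : IsComplete S := (hV.inter Metric.isClosed_closedBall).isComplete
  have hSmem : ∀ X ∈ S, ‖X‖ ≤ K * ‖F‖ := fun X hX => by simpa using hX.2
  have hmaps' : Set.MapsTo (fun X => Φ (F, X)) S S := by
    intro X hX
    refine ⟨hmaps X hX.1, ?_⟩
    have h1 := hSmem X hX
    have h2 := hlip X 0 h1 (by simp; positivity)
    have h3 : ‖Φ (F, X)‖ ≤ ‖Φ (F, X) - Φ (F, 0)‖ + ‖Φ (F, 0)‖ := by
      have := norm_add_le (Φ (F, X) - Φ (F, 0)) (Φ (F, 0))
      simpa using this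
    rw [sub_zero] at h2
    have : ‖Φ (F, X)‖ ≤ K * ‖F‖ := by
      rw [hK] at h1 ⊢
      linarith
    simpa using this
  have hcontr : ContractingWith (1 / 2 : ℝ≥0) (hmaps'.restrict (fun X => Φ (F, X)) S S) := by
    refine ⟨by rw [← NNReal.coe_lt_coe]; norm_num, ?_⟩
    apply LipschitzWith.of_dist_le_mul
    intro X Y
    have := hlip X.1 Y.1 (hSmem _ X.2) (hSmem _ Y.2)
    simpa [Subtype.dist_eq, dist_eq_norm] using this
  obtain ⟨X, hXS, hfix, -⟩ := hcontr.exists_fixedPoint' hSc hmaps' (x := 0)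
    ⟨h0V, by simp; positivity⟩ (edist_ne_top _ _)
  exact ⟨X, hXS.1, hSmem X hXS, hfix⟩

end MP_114753_an
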