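import Pool.Agent.Lib.MP_114753_an.Sys
import Pool.Agent.Lib.MP_114753_an.Calc

/-!
# The Gibbons–Tsarev system at the level of functions
-/

namespace MP_114753_an

open Real MeasureTheory
open scoped ContDiff

noncomputable section

/-! ### two lemmas on linear differential equations -/

theorem lin_ode {f k : ℝ → ℝ} (hk : Continuous k) (hf : ∀ x, HasDerivAt f (k x * f x) x)
    (x : ℝ) : f x = f 0 * Real.exp (∫ s in (0:ℝ)..x, k s) := by
  have hI : ∀ x, HasDerivAt (fun x => ∫ s in (0:ℝ)..x, k s) (k x) x := fun x =>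
    intervalIntegral.integral_hasDerivAt_right (hk.intervalIntegrable _ _)
      (hk.stronglyMeasurableAtFilter _ _) hk.continuousAt
  have h1 : ∀ x, HasDerivAt (fun x => f x * Real.exp (-∫ s in (0:ℝ)..x, k s)) 0 x := by
    intro x
    have hI' : HasDerivAt (fun x => -∫ s in (0:ℝ)..x, k s) (-(k x)) x := (hI x).neg
    have h2 := (hf x).mul hI'.exp
    refine h2.congr_deriv ?_
    ring
  have h3 : f x * Real.exp (-∫ s in (0:ℝ)..x, k s) = f 0 := by
    have := is_const_of_deriv_eq_zero (f := fun x => f x * Real.exp (-∫ s in (0:ℝ)..x, k s))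
      (fun x => (h1 x).differentiableAt) (fun x => (h1 x).deriv) x 0
    simpa using this
  rw [← h3, mul_assoc, ← Real.exp_add]
  simp

theorem lin_ode_eq_zero {f k : ℝ → ℝ} (hk : Continuous k) (hf : ∀ x, HasDerivAt f (k x * f x) x)
    (hint : ∫ x in (0:ℝ)..1, f x = 0) (x : ℝ) : f x = 0 := by
  have h1 := lin_ode hk hf
  have hIc : Continuous (fun x => ∫ s in (0:ℝ)..x, k s) := by
    have hI : ∀ x, HasDerivAt (fun x => ∫ s in (0:ℝ)..x, k s) (k x) x := fun x =>
      intervalIntegral.integral_hasDerivAt_right (hk.intervalIntegrable _ _)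
        (hk.stronglyMeasurableAtFilter _ _) hk.continuousAt
    exact continuous_iff_continuousAt.2 fun x => (hI x).continuousAt
  have h2 : ∫ x in (0:ℝ)..1, f x = f 0 * ∫ x in (0:ℝ)..1, Real.exp (∫ s in (0:ℝ)..x, k s) := by
    rw [← intervalIntegral.integral_const_mul]
    congr 1
    funext x
    exact h1 x
  have h3 : 0 < ∫ x in (0:ℝ)..1, Real.exp (∫ s in (0:ℝ)..x, k s) := by
    apply intervalIntegral.intervalIntegral_pos_of_pos_on
    · exact (Real.continuous_exp.comp hIc).intervalIntegrable _ _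
    · intro x _
      exact Real.exp_pos _
    · norm_num
  rw [hint] at h2
  have h4 : f 0 = 0 := by
    rcases mul_eq_zero.1 h2.symm with h | h
    · exact h
    · exact absurd h h3.ne'
  rw [h1 x, h4, zero_mul]

/-! ### reconstruction from a derivative -/

theorem eq_of_deriv_y {g K : A} (h : ∀ x y, HasDerivAt (fun y => ev x y g) (ev x y K) y) :
    (∀ x y, ev x y (My K) = 0) ∧ ∀ x y, ev x y g = ev x y (My g + Iy K) := by
  have h1 : ∀ x y, HasDerivAt (fun y => ev x y (g - My g - Iy K)) (ev x y (My K)) y := by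
    intro x y
    have h2 := ((h x y).sub (hasDerivAt_My x y g)).sub (hasDerivAt_Iy x y K)
    have e1 : (fun y => ev x y (g - My g - Iy K))
        = fun y => ev x y g - ev x y (My g) - ev x y (Iy K) := by
      funext y; simp
    rw [e1]
    refine h2.congr_deriv ?_
    rw [map_sub]; ring
  have h2 : ∀ x y, ev x y (My K) = 0 := by
    intro x y
    have h3 := intervalIntegral.integral_eq_sub_of_hasDerivAt (a := 0) (b := 1)
      (fun y _ => h1 x y) ((continuous_ev_right x _).intervalIntegrable _ _)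
    have h4 : ev x 1 (g - My g - Iy K) = ev x 0 (g - My g - Iy K) := by
      have := ev_add_one_right x 0 (g - My g - Iy K)
      rwa [zero_add] at this
    rw [h4, sub_self] at h3
    have h5 : (fun y => ev x y (My K)) = fun _ => ev x y (My K) := by
      funext y'; exact ev_My x y' y K
    rw [h5] at h3
    simpa using h3
  refine ⟨h2, ?_⟩
  intro x y
  have h3 : ∀ y, ev x y (g - My g - Iy K) = ev x 0 (g - My g - Iy K) := by
    intro y
    apply is_const_of_deriv_eq_zero (f := fun y => ev x y (g - My g - Iy K))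
    · intro y; exact (h1 x y).differentiableAt
    · intro y; rw [(h1 x y).deriv]; exact h2 x y
  have h4 := integral_ev_left x (sw (g - My g - Iy K))
  have h5 : (fun y => ev y x (sw (g - My g - Iy K))) = fun _ => ev x 0 (g - My g - Iy K) := by
    funext y
    rw [ev_sw]; exact h3 y
  rw [h5] at h4
  have h6 : Mx (sw (g - My g - Iy K)) = 0 := by
    rw [← sw_My]
    simp [My_My, My_Iy]
  rw [h6] at h4
  have h7 := h3 y
  simp at h4
  rw [← map_sub, ← map_sub] at h4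
  rw [h4] at h7
  have h8 : ev x y (g - (My g + Iy K)) = 0 := by
    rw [← sub_sub]; exact h7
  rw [map_sub] at h8
  linarith

theorem eq_of_deriv_x {g K : A} (h : ∀ x y, HasDerivAt (fun x => ev x y g) (ev x y K) x) :
    (∀ x y, ev x y (Mx K) = 0) ∧ ∀ x y, ev x y g = ev x y (Mx g + Ix K) := by
  have h1 : ∀ x y, HasDerivAt (fun y => ev x y (sw g)) (ev x y (sw K)) y := by
    intro x y
    have := h y x
    simpa only [ev_sw] using this
  obtain ⟨h2, h3⟩ := eq_of_deriv_y h1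
  constructor
  · intro x y
    have := h2 y x
    rwa [← sw_Mx, ev_sw] at this
  · intro x y
    have := h3 y x
    rw [← sw_Mx, ← sw_Ix, ← map_add, ev_sw, ev_sw] at this
    exact this

theorem one_mulL (c : A) : mulL one c = c := by
  refine A_ext_apply (mulL one) (ContinuousLinearMap.id ℝ A) ?_ c
  intro k
  unfold one
  rw [mulL_e]
  simp only [prodE, zero_sub, sub_zero, zero_add, neg_zero, ContinuousLinearMap.id_apply]
  have h1 : om 0 k k = 1 := by simp [om, nn]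
  have h2 : om 0 k (-k) = 1 := by simp [om, nn]
  rw [h1, h2]
  simp only [one_smul]
  have : e (-k) + e k + e k - e (-k) = (2 : ℝ) • e k := by
    rw [two_smul]; abel
  rw [this, smul_smul]
  norm_num

/-! ### the profile -/

/-- `ε cos 2πy` -/
def ce (ε : ℝ) : A := ε • (e (0, 1) + e (0, -1))
/-- `-2πε sin 2πy` -/
def Fe (ε : ℝ) : A := (-(2 * π * ε)) • (e (0, 1) - e (0, -1))

theorem ev_ce (ε x y : ℝ) : ev x y (ce ε) = ε * cos (2 * π * y) := by
  unfold ce
  rw [map_smul, map_add, ev_e, ev_e]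
  have h1 : w (0, 1) = 1 / 2 := by simp [w, nn]
  have h2 : w (0, -1) = 1 / 2 := by simp [w, nn]
  have h3 : ph (0, 1) x y = 2 * π * y := by simp [ph]
  have h4 : ph (0, -1) x y = -(2 * π * y) := by simp [ph]
  rw [h1, h2, h3, h4]
  unfold cas
  rw [cos_neg, sin_neg, smul_eq_mul]
  ring

theorem ev_Fe (ε x y : ℝ) : ev x y (Fe ε) = -(2 * π * ε) * sin (2 * π * y) := by
  unfold Fe
  rw [map_smul, map_sub, ev_e, ev_e]
  have h1 : w (0, 1) = 1 / 2 := by simp [w, nn]
  have h2 : w (0, -1) = 1 / 2 := by simp [w, nn]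
  have h3 : ph (0, 1) x y = 2 * π * y := by simp [ph]
  have h4 : ph (0, -1) x y = -(2 * π * y) := by simp [ph]
  rw [h1, h2, h3, h4]
  unfold cas
  rw [cos_neg, sin_neg, smul_eq_mul]
  ring

theorem EO_Fe (ε : ℝ) : EO (Fe ε) := by
  constructor
  · unfold Fe
    rw [map_smul, map_sub, Rx_e, Rx_e]
    simp
  · unfold Fe
    rw [map_smul, map_sub, Ry_e, Ry_e]
    simp only [neg_neg]
    rw [← smul_neg, neg_sub]

theorem Mx_Fe (ε : ℝ) : Mx (Fe ε) = Fe ε := by
  unfold Fe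
  rw [map_smul, map_sub, Mx_e, Mx_e]
  simp

theorem norm_Fe_le (ε : ℝ) : ‖Fe ε‖ ≤ 4 * π * |ε| := by
  unfold Fe
  rw [norm_smul]
  have h1 := norm_sub_le (e (0, 1)) (e (0, -1))
  rw [norm_e, norm_e] at h1
  rw [Real.norm_eq_abs, abs_neg, abs_mul, abs_mul, abs_of_pos pi_pos, abs_of_pos (by norm_num : (0:ℝ) < 2)]
  have := mul_le_mul_of_nonneg_left h1 (by positivity : 0 ≤ 2 * π * |ε|)
  linarith

/-! ### the solution -/

structure Sys (ε : ℝ) (X : E5) : Prop where
  par : Par X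
  fix : Phi (Fe ε, X) = X

/-- `p₁` -/
def q (X : E5) : A := -one + Ix X.2.2.1 + Iy (Sf X)
/-- `V_y` -/
def Vy (ε : ℝ) (X : E5) : A := Fe ε + Ix (Wf X)

section

variable {ε : ℝ} {X : E5} (h : Sys ε X)
include h

theorem Sys.eT : Tf X = X.1 := congrArg (fun X : E5 => X.1) h.fix
theorem Sys.es : sf (Fe ε) X = X.2.1 := congrArg (fun X : E5 => X.2.1) h.fix
theorem Sys.eb : bf X = X.2.2.1 := congrArg (fun X : E5 => X.2.2.1) h.fix
theorem Sys.er : rf (Fe ε) X = X.2.2.2.1 := congrArg (fun X : E5 => X.2.2.2.1) h.fix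
theorem Sys.eZ : Zf X = X.2.2.2.2 := congrArg (fun X : E5 => X.2.2.2.2) h.fix

theorem Sys.Mx_T : Mx X.1 = 0 := Mx_eq_zero h.par.T.1
theorem Sys.My_T : My X.1 = 0 := My_eq_zero h.par.T.2
theorem Sys.Mx_W : Mx (Wf X) = 0 := Mx_eq_zero h.par.Wf.1
theorem Sys.My_W : My (Wf X) = 0 := My_eq_zero h.par.Wf.2
theorem Sys.My_S : My (Sf X) = 0 := My_eq_zero h.par.Sf.2
theorem Sys.Mx_b : Mx X.2.2.1 = 0 := Mx_eq_zero h.par.b.1
theorem Sys.Mx_s : Mx X.2.1 = X.2.1 := by
  rw [← h.es]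
  unfold sf
  rw [Mx_Mx]
theorem Sys.My_b : My X.2.2.1 = X.2.2.1 := by
  rw [← h.eb]
  unfold bf
  rw [map_smul, My_My]
theorem Sys.Mx_S : Mx (Sf X) = X.2.1 := by
  unfold Sf
  rw [map_add, Mx_Ix, add_zero, h.Mx_s]
theorem Sys.Mx_Z : Mx X.2.2.2.2 = 0 := by
  rw [← h.eZ]
  unfold Zf
  simp [Mx_Mx]
theorem Sys.My_Z : My X.2.2.2.2 = 0 := by
  have := h.Mx_Z
  have h2 := congrArg sw this
  rw [sw_Mx, h.par.Zs, map_zero] at h2
  exact h2

theorem Sys.dqx (x y : ℝ) : HasDerivAt (fun x => ev x y (q X)) (ev x y (Pf X)) x := by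
  have e1 : q X = Ix (X.2.2.1 + Iy X.1) + Mx (-one + Iy X.2.1) := by
    unfold q Sf
    rw [map_add, map_add, map_add, map_neg, Mx_Iy, h.Mx_s, Ix_Iy]
    have : Mx one = one := by unfold one; rw [Mx_e]; simp
    rw [this]
    abel
  have e2 : Pf X = (X.2.2.1 + Iy X.1) - Mx (X.2.2.1 + Iy X.1) := by
    rw [map_add, Mx_Iy, h.Mx_T, h.Mx_b, map_zero, add_zero, sub_zero]
    rfl
  rw [e1, e2]
  have h1 := (hasDerivAt_Ix x y (X.2.2.1 + Iy X.1)).add (hasDerivAt_Mx x y (-one + Iy X.2.1))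
  rw [add_zero] at h1
  have e3 : (fun x => ev x y (Ix (X.2.2.1 + Iy X.1) + Mx (-one + Iy X.2.1)))
      = fun x => ev x y (Ix (X.2.2.1 + Iy X.1)) + ev x y (Mx (-one + Iy X.2.1)) := by
    funext x; rw [map_add]
  rw [e3]
  exact h1

theorem Sys.dqy (x y : ℝ) : HasDerivAt (fun y => ev x y (q X)) (ev x y (Sf X)) y := by
  have e1 : q X = Iy (Sf X) + My (-one + Ix X.2.2.1) := by
    unfold q
    rw [map_add, map_neg, My_Ix, h.My_b]
    have : My one = one := by unfold one; rw [My_e]; simp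
    rw [this]
    abel
  rw [e1]
  have h1 := (hasDerivAt_Iy x y (Sf X)).add (hasDerivAt_My x y (-one + Ix X.2.2.1))
  rw [add_zero, h.My_S, sub_zero] at h1
  have e3 : (fun y => ev x y (Iy (Sf X) + My (-one + Ix X.2.2.1)))
      = fun y => ev x y (Iy (Sf X)) + ev x y (My (-one + Ix X.2.2.1)) := by
    funext y; rw [map_add]
  rw [e3]
  exact h1

/-- `∂ₓ` of `q(y,x)` -/
theorem Sys.dqx' (x y : ℝ) : HasDerivAt (fun x => ev y x (q X)) (ev y x (Sf X)) x := h.dqy y x

theorem Sys.dqy' (x y : ℝ) : HasDerivAt (fun y => ev y x (q X)) (ev y x (Pf X)) y := h.dqx y x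

theorem Sys.dSx (x y : ℝ) : HasDerivAt (fun x => ev x y (Sf X)) (ev x y X.1) x := by
  have h1 := (hasDerivAt_Ix x y X.1).add (hasDerivAt_Mx x y X.2.1)
  rw [add_zero, h.Mx_T, sub_zero, h.Mx_s] at h1
  have e3 : (fun x => ev x y (Sf X))
      = fun x => ev x y (Ix X.1) + ev x y X.2.1 := by
    funext x; unfold Sf; rw [map_add, add_comm]
  rw [e3]
  exact h1

theorem Sys.dVyx (x y : ℝ) : HasDerivAt (fun x => ev x y (Vy ε X)) (ev x y (Wf X)) x := by
  have h1 := (hasDerivAt_Ix x y (Wf X)).add (hasDerivAt_Mx x y (Fe ε))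
  rw [add_zero, h.Mx_W, sub_zero, Mx_Fe] at h1
  have e3 : (fun x => ev x y (Vy ε X))
      = fun x => ev x y (Ix (Wf X)) + ev x y (Fe ε) := by
    funext x; unfold Vy; rw [map_add, add_comm]
  rw [e3]
  exact h1

theorem Sys.df_eq : df (Fe ε) X = (2 : ℝ) • one + q X + sw (q X) := by
  unfold df kf q
  rw [h.eb, h.es, h.eT]
  have e1 : X.2.1 + Ix X.1 = Sf X := rfl
  rw [e1]
  simp only [map_add, map_neg, sw_one, sw_Ix, sw_Iy]
  rw [two_smul]
  abel

theorem Sys.Rf_mul (x y : ℝ) : ev x y (Rf X) * (-ev x y (q X) - ev y x (q X)) = 1 := by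
  have h1 : ev x y (rf (Fe ε) X) = ev x y X.2.2.2.1 := by rw [h.er]
  unfold rf at h1
  rw [map_add, map_smul, map_smul, ev_mul, h.df_eq] at h1
  simp only [map_add, map_smul, ev_one, ev_sw, smul_eq_mul] at h1
  unfold Rf
  rw [map_add, map_smul, ev_one, smul_eq_mul]
  linear_combination (-2) * h1

theorem Sys.Delta_ne (x y : ℝ) : -ev x y (q X) - ev y x (q X) ≠ 0 := by
  intro h0
  have := h.Rf_mul x y
  rw [h0, mul_zero] at this
  exact zero_ne_one this

theorem Sys.Rf_eq (x y : ℝ) : ev x y (Rf X) = (-ev x y (q X) - ev y x (q X))⁻¹ :=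
  eq_inv_of_mul_eq_one_left (h.Rf_mul x y)

theorem Sys.Rf_symm (x y : ℝ) : ev y x (Rf X) = ev x y (Rf X) := by
  rw [h.Rf_eq, h.Rf_eq]
  congr 1
  ring

theorem Sys.dRx (x y : ℝ) : HasDerivAt (fun x => ev x y (Rf X))
    (ev x y (Rf X) ^ 2 * (ev x y (Pf X) + ev y x (Sf X))) x := by
  have e1 : (fun x => ev x y (Rf X)) = fun x => (-ev x y (q X) - ev y x (q X))⁻¹ := by
    funext x; exact h.Rf_eq x y
  rw [e1, h.Rf_eq]
  have h0 : HasDerivAt (fun x => -ev x y (q X) - ev y x (q X))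
      (-ev x y (Pf X) - ev y x (Sf X)) x := (h.dqx x y).neg.sub (h.dqx' x y)
  have h1 := h0.inv (h.Delta_ne x y)
  refine h1.congr_deriv ?_
  have := h.Delta_ne x y
  field_simp
  ring

theorem Sys.eT_fun (x y : ℝ) : ev x y X.1
    = ev x y (Sf X) * (ev x y (Rf X) * (ev x y (Pf X) + 3 * ev y x (Sf X))) := by
  have h1 : ev x y (Tf X) = ev x y X.1 := by rw [h.eT]
  rw [← h1]
  unfold Tf
  rw [ev_mul, ev_mul, map_add, map_smul, ev_sw, smul_eq_mul]

omit h in
theorem ev_Wf (x y : ℝ) : ev x y (Wf X) = 2 * (ev y x (Sf X) * ev x y (Sf X)) := by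
  unfold Wf
  rw [map_smul, ev_mul, ev_sw, smul_eq_mul]

theorem Sys.S_eq (x y : ℝ) : ev x y (Sf X) = ev x y (Vy ε X) * ev x y (Rf X) := by
  have hd : ∀ x, HasDerivAt (fun x => ev x y (Sf X) - ev x y (Vy ε X) * ev x y (Rf X))
      (ev x y (Rf X) * (ev x y (Pf X) + ev y x (Sf X))
        * (ev x y (Sf X) - ev x y (Vy ε X) * ev x y (Rf X))) x := by
    intro x
    have h1 := (h.dSx x y).sub ((h.dVyx x y).mul (h.dRx x y))
    refine h1.congr_deriv ?_
    rw [h.eT_fun, ev_Wf]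
    ring
  have hk : Continuous fun x => ev x y (Rf X) * (ev x y (Pf X) + ev y x (Sf X)) :=
    (continuous_ev_left y _).mul ((continuous_ev_left y _).add (continuous_ev_right y _))
  have hint : ∫ x in (0:ℝ)..1, (ev x y (Sf X) - ev x y (Vy ε X) * ev x y (Rf X)) = 0 := by
    have e1 : (fun x => ev x y (Sf X) - ev x y (Vy ε X) * ev x y (Rf X))
        = fun x => ev x y (Sf X - mulL (Vy ε X) (Rf X)) := by
      funext x
      rw [map_sub, ev_mul]
    rw [e1, integral_ev_left, map_sub, h.Mx_S]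
    have e2 : Mx (mulL (Vy ε X) (Rf X)) = X.2.1 := h.es
    rw [e2, sub_self, map_zero]
  have := lin_ode_eq_zero hk hd hint x
  linarith

/-! ### the time function -/

/-- `t_x` -/
def tx (X : E5) : A := one + Iy X.2.2.2.2
/-- `t_y` -/
def ty (X : E5) : A := one + Ix X.2.2.2.2

theorem Sys.Z_eq (x y : ℝ) : ev x y X.2.2.2.2
    = ev x y (Rf X) * (ev x y (Pf X) * ev x y (ty X) + ev y x (Pf X) * ev x y (tx X)) := by
  have eG : mulL (Rf X) (Pf X + mulL (Pf X) (Ix X.2.2.2.2)) = (1 / 2 : ℝ) • X.2.2.1 + hf X := by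
    unfold Rf hf
    rw [h.eT]
    simp only [map_add, map_smul, add_apply, smul_apply, one_mulL]
    have : (1 / 2 : ℝ) • Pf X = (1 / 2 : ℝ) • X.2.2.1 + (1 / 2 : ℝ) • Iy X.1 := by
      rw [← smul_add]; rfl
    rw [this]
    abel
  have hMy : My (nf X) = (-(1 / 2) : ℝ) • X.2.2.1 := by
    rw [← h.eb]
    unfold bf
    rw [smul_smul]
    norm_num
  have hMx : Mx (nf X) = (-(1 / 2) : ℝ) • sw X.2.2.1 := by
    have := congrArg sw hMy
    rw [sw_My, sw_nf, map_smul] at this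
    exact this
  have hZ : X.2.2.2.2 = mulL (Rf X) (Pf X + mulL (Pf X) (Ix X.2.2.2.2))
      + sw (mulL (Rf X) (Pf X + mulL (Pf X) (Ix X.2.2.2.2))) := by
    rw [eG]
    nth_rewrite 1 [← h.eZ]
    unfold Zf
    rw [hMx, hMy, map_smul, h.Mx_b, smul_zero, add_zero, map_add, map_smul]
    unfold nf
    rw [neg_smul, neg_smul]
    abel
  have h1 : ev x y X.2.2.2.2 = ev x y (mulL (Rf X) (Pf X + mulL (Pf X) (Ix X.2.2.2.2))
      + sw (mulL (Rf X) (Pf X + mulL (Pf X) (Ix X.2.2.2.2)))) := by rw [← hZ]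
  rw [h1, map_add, ev_sw, ev_mul, ev_mul, map_add, map_add, ev_mul, ev_mul, h.Rf_symm]
  have h2 : ev y x (Ix X.2.2.2.2) = ev x y (Iy X.2.2.2.2) := by
    rw [← ev_sw, sw_Ix, h.par.Zs]
  rw [h2]
  unfold tx ty
  rw [map_add, map_add, ev_one]
  ring

theorem Sys.dtxy (x y : ℝ) : HasDerivAt (fun y => ev x y (tx X)) (ev x y X.2.2.2.2) y := by
  have h1 := (hasDerivAt_Iy x y X.2.2.2.2).const_add 1
  rw [h.My_Z, sub_zero] at h1
  have e1 : (fun y => ev x y (tx X)) = fun y => 1 + ev x y (Iy X.2.2.2.2) := by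
    funext y; unfold tx; rw [map_add, ev_one]
  rw [e1]
  exact h1

theorem Sys.dtyx (x y : ℝ) : HasDerivAt (fun x => ev x y (ty X)) (ev x y X.2.2.2.2) x := by
  have h1 := (hasDerivAt_Ix x y X.2.2.2.2).const_add 1
  rw [h.Mx_Z, sub_zero] at h1
  have e1 : (fun x => ev x y (ty X)) = fun x => 1 + ev x y (Ix X.2.2.2.2) := by
    funext x; unfold ty; rw [map_add, ev_one]
  rw [e1]
  exact h1

theorem Sys.ev_ty_symm (x y : ℝ) : ev y x (ty X) = ev x y (tx X) := by
  have h2 : ev y x (Ix X.2.2.2.2) = ev x y (Iy X.2.2.2.2) := by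
    rw [← ev_sw, sw_Ix, h.par.Zs]
  unfold tx ty
  rw [map_add, map_add, ev_one, ev_one, h2]

end

end

end MP_114753_an
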