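import Pool.Agent.Lib.MP_114753_an.Func

/-!
# The potential, time and space functions in characteristic coordinates
-/

namespace MP_114753_an

open Real MeasureTheory
open scoped ContDiff

noncomputable section

theorem mulL_comm (c d : A) : mulL c d = mulL d c := by
  have key : ∀ i j : Idx, mulL (e i) (e j) = mulL (e j) (e i) := by
    intro i j
    rw [mulL_e, mulL_e]
    unfold prodE
    have h1 : ∀ k, om i j k = om j i k := by intro k; unfold om; rw [add_comm (nn i)]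
    rw [h1, h1, h1, h1, add_comm i j, show -i - j = -j - i by abel,
      add_comm (om j i (i - j) • e (i - j))]
  have h1 : ∀ (j : Idx) (c : A), mulL c (e j) = mulL (e j) c := by
    intro j c
    exact A_ext_apply (mulL.flip (e j)) (mulL (e j)) (fun i => key i j) c
  exact A_ext_apply (mulL c) (mulL.flip c) (fun j => h1 j c) d

theorem Iy_null {c : A} (h : ∀ x y, ev x y c = 0) (x y : ℝ) : ev x y (Iy c) = 0 := by
  have h1 : ∀ x y, HasDerivAt (fun y => ev x y (Iy c)) (ev x y (c - My c)) y :=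
    fun x y => hasDerivAt_Iy x y c
  have h2 : ∀ x y, HasDerivAt (fun y => ev x y (0 : A)) (ev x y c) y := by
    intro x y
    rw [h x y]
    simp only [map_zero]
    exact hasDerivAt_const y (0 : ℝ)
  have h3 := (eq_of_deriv_y h2).2 x y
  rw [map_zero, map_zero, zero_add] at h3
  exact h3.symm

theorem Ix_null {c : A} (h : ∀ x y, ev x y c = 0) (x y : ℝ) : ev x y (Ix c) = 0 := by
  have h1 : ∀ x y, ev x y (sw c) = 0 := fun x y => by rw [ev_sw]; exact h y x
  have h2 := Iy_null h1 y x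
  rwa [← sw_Ix, ev_sw] at h2

/-- the potential in characteristic coordinates -/
def Vf (ε : ℝ) (X : E5) (x y : ℝ) : ℝ := ev x y (ce ε) + ev y x (ce ε) + ev x y (Ix (Iy (Wf X)))

/-- the time -/
def tf (X : E5) (x y : ℝ) : ℝ := x + y + ev x y (Ix (Iy X.2.2.2.2))

def g1 (X : E5) : A := mulL (-sw (q X)) (tx X)
def g2 (X : E5) : A := mulL (q X) (ty X)
def Kf (X : E5) : A := mulL (Pf X) (ty X) + mulL (q X) X.2.2.2.2
def Uc (X : E5) : ℝ := ev 0 0 (Mx (My (g1 X)))
def uh (X : E5) : A := Ix (My (g1 X)) + Iy (Mx (g2 X)) + Ix (Iy (Kf X))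

/-- the space variable -/
def uf (X : E5) (x y : ℝ) : ℝ := Uc X * (x - y) + ev x y (uh X)

section

variable {ε : ℝ} {X : E5} (h : Sys ε X)

theorem sw_Wf : sw (Wf X) = Wf X := by
  unfold Wf
  rw [map_smul, sw_mul, sw_sw, mulL_comm]

theorem hasDerivAt_ce (x y : ℝ) : HasDerivAt (fun y => ev x y (ce ε)) (ev x y (Fe ε)) y := by
  have e1 : (fun y => ev x y (ce ε)) = fun y => ε * cos (2 * π * y) := by
    funext y; exact ev_ce ε x y
  rw [e1, ev_Fe]
  have h1 : HasDerivAt (fun y : ℝ => 2 * π * y) (2 * π) y := by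
    simpa using (hasDerivAt_id y).const_mul (2 * π)
  have h2 := (h1.cos).const_mul ε
  refine h2.congr_deriv ?_
  ring

include h

theorem Sys.dVfy (x y : ℝ) : HasDerivAt (fun y => Vf ε X x y) (ev x y (Vy ε X)) y := by
  have h1 := hasDerivAt_ce (ε := ε) x y
  have h2 : HasDerivAt (fun y => ev y x (ce ε)) 0 y := by
    have : (fun y => ev y x (ce ε)) = fun _ => ε * cos (2 * π * x) := by
      funext y; exact ev_ce ε y x
    rw [this]
    exact hasDerivAt_const y _
  have h3 := hasDerivAt_Iy x y (Ix (Wf X))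
  rw [← Ix_Iy, My_Ix, h.My_W, map_zero, sub_zero] at h3
  have h4 := (h1.add h2).add h3
  refine h4.congr_deriv ?_
  unfold Vy
  rw [map_add]; ring

omit h in
theorem Vf_symm (x y : ℝ) : Vf ε X y x = Vf ε X x y := by
  unfold Vf
  rw [← ev_sw x y (Ix (Iy (Wf X))), sw_Ix, sw_Iy, sw_Wf, ← Ix_Iy]
  ring

theorem Sys.dVfx (x y : ℝ) : HasDerivAt (fun x => Vf ε X x y) (ev y x (Vy ε X)) x := by
  have h1 := h.dVfy y x
  have e1 : (fun x => Vf ε X x y) = fun x => Vf ε X y x := by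
    funext x; exact (Vf_symm x y).symm
  rw [e1]
  exact h1

theorem Sys.dtfx (x y : ℝ) : HasDerivAt (fun x => tf X x y) (ev x y (tx X)) x := by
  have h3 := hasDerivAt_Ix x y (Iy X.2.2.2.2)
  rw [Mx_Iy, h.Mx_Z, map_zero, sub_zero] at h3
  have h4 := ((hasDerivAt_id x).add_const y).add h3
  refine h4.congr_deriv ?_
  unfold tx
  rw [map_add, ev_one]

omit h in
theorem tf_symm (hZ : sw X.2.2.2.2 = X.2.2.2.2) (x y : ℝ) : tf X y x = tf X x y := by
  unfold tf
  rw [← ev_sw x y (Ix (Iy X.2.2.2.2)), sw_Ix, sw_Iy, hZ, ← Ix_Iy]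
  ring

theorem Sys.dtfy (x y : ℝ) : HasDerivAt (fun y => tf X x y) (ev x y (ty X)) y := by
  have h1 := h.dtfx y x
  have e1 : (fun y => tf X x y) = fun y => tf X y x := by
    funext y; exact (tf_symm h.par.Zs x y).symm
  rw [e1]
  rw [← h.ev_ty_symm] at h1
  exact h1

theorem Sys.dg2x (x y : ℝ) : HasDerivAt (fun x => ev x y (g2 X)) (ev x y (Kf X)) x := by
  have e1 : (fun x => ev x y (g2 X)) = fun x => ev x y (q X) * ev x y (ty X) := by
    funext x; unfold g2; rw [ev_mul]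
  rw [e1]
  refine ((h.dqx x y).mul (h.dtyx x y)).congr_deriv ?_
  unfold Kf
  rw [map_add, ev_mul, ev_mul]

theorem Sys.dg1y (x y : ℝ) : HasDerivAt (fun y => ev x y (g1 X)) (ev x y (Kf X)) y := by
  have e1 : (fun y => ev x y (g1 X)) = fun y => -ev y x (q X) * ev x y (tx X) := by
    funext y; unfold g1; rw [ev_mul, map_neg, ev_sw]
  rw [e1]
  refine ((h.dqy' x y).neg.mul (h.dtxy x y)).congr_deriv ?_
  unfold Kf
  rw [map_add, ev_mul, ev_mul]
  have h1 := h.Z_eq x y
  have h2 := h.Rf_mul x y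
  have h3 : (-ev x y (q X) - ev y x (q X)) * ev x y X.2.2.2.2
      = ev x y (Pf X) * ev x y (ty X) + ev y x (Pf X) * ev x y (tx X) := by
    rw [h1, ← mul_assoc, mul_comm (-ev x y (q X) - ev y x (q X)), h2, one_mul]
  simp only [Pi.neg_apply]
  linear_combination h3

theorem Sys.sw_g1 : sw (g1 X) = -g2 X := by
  unfold g1 g2 tx ty
  rw [sw_mul, map_neg, sw_sw, map_add, sw_one, sw_Iy, h.par.Zs, map_neg]
  rfl

omit h in
theorem ev_MxMy (x y : ℝ) (c : A) : ev x y (Mx (My c)) = ev 0 0 (Mx (My c)) := by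
  rw [ev_Mx x 0, Mx_My, ev_My 0 y 0]

theorem Sys.dufx (x y : ℝ) : HasDerivAt (fun x => uf X x y) (ev x y (g1 X)) x := by
  obtain ⟨a1, a2⟩ := eq_of_deriv_y h.dg1y
  obtain ⟨b1, b2⟩ := eq_of_deriv_x h.dg2x
  have h1 : HasDerivAt (fun x => Uc X * (x - y)) (Uc X) x := by
    simpa using ((hasDerivAt_id x).sub_const y).const_mul (Uc X)
  have h2 := hasDerivAt_Ix x y (My (g1 X))
  have h3 := hasDerivAt_Mx x y (Iy (g2 X))
  have h4 := hasDerivAt_Ix x y (Iy (Kf X))
  have h5 := h1.add ((h2.add h3).add h4)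
  have e1 : (fun x => uf X x y) = fun x => Uc X * (x - y) + (ev x y (Ix (My (g1 X)))
      + ev x y (Mx (Iy (g2 X))) + ev x y (Ix (Iy (Kf X)))) := by
    funext x
    unfold uf uh
    rw [map_add, map_add, Mx_Iy]
  rw [e1]
  refine h5.congr_deriv ?_
  rw [map_sub, map_sub, ev_MxMy, Mx_Iy, Iy_null b1 x y, a2 x y, map_add]
  unfold Uc
  ring

theorem Sys.dufy (x y : ℝ) : HasDerivAt (fun y => uf X x y) (ev x y (g2 X)) y := by
  obtain ⟨a1, a2⟩ := eq_of_deriv_y h.dg1y
  obtain ⟨b1, b2⟩ := eq_of_deriv_x h.dg2x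
  have h1 : HasDerivAt (fun y => Uc X * (x - y)) (-Uc X) y := by
    simpa using ((hasDerivAt_id y).const_sub x).const_mul (Uc X)
  have h2 := hasDerivAt_My x y (Ix (g1 X))
  have h3 := hasDerivAt_Iy x y (Mx (g2 X))
  have h4 := hasDerivAt_Iy x y (Ix (Kf X))
  have h5 := h1.add ((h2.add h3).add h4)
  have e1 : (fun y => uf X x y) = fun y => Uc X * (x - y) + (ev x y (My (Ix (g1 X)))
      + ev x y (Iy (Mx (g2 X))) + ev x y (Iy (Ix (Kf X)))) := by
    funext y
    unfold uf uh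
    rw [map_add, map_add, My_Ix, Ix_Iy]
  rw [e1]
  refine h5.congr_deriv ?_
  have e2 : ev x y (My (Mx (g2 X))) = -Uc X := by
    have : g2 X = -sw (g1 X) := by rw [h.sw_g1, neg_neg]
    rw [this, map_neg, map_neg, map_neg, ← sw_My, ← sw_Mx, ev_sw, ev_MxMy]
    rfl
  rw [map_sub, map_sub, e2, My_Ix, Ix_null a1 x y, b2 x y, map_add]
  ring

/-! ### periodicity and symmetry -/

omit h in
theorem tf_add_one_left (x y : ℝ) : tf X (x + 1) y = tf X x y + 1 := by
  unfold tf; rw [ev_add_one_left]; ring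
omit h in
theorem tf_add_one_right (x y : ℝ) : tf X x (y + 1) = tf X x y + 1 := by
  unfold tf; rw [ev_add_one_right]; ring
omit h in
theorem uf_add_one_left (x y : ℝ) : uf X (x + 1) y = uf X x y + Uc X := by
  unfold uf; rw [ev_add_one_left]; ring
omit h in
theorem uf_add_one_right (x y : ℝ) : uf X x (y + 1) = uf X x y - Uc X := by
  unfold uf; rw [ev_add_one_right]; ring
omit h in
theorem Vf_add_one_left (x y : ℝ) : Vf ε X (x + 1) y = Vf ε X x y := by
  unfold Vf; rw [ev_add_one_left, ev_add_one_left, ev_add_one_right]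
omit h in
theorem Vf_add_one_right (x y : ℝ) : Vf ε X x (y + 1) = Vf ε X x y := by
  unfold Vf; rw [ev_add_one_left, ev_add_one_right, ev_add_one_right]

theorem Sys.tf_neg (x y : ℝ) : tf X (-x) (-y) = -tf X x y := by
  unfold tf
  have h1 : ev (-x) (-y) (Ix (Iy X.2.2.2.2)) = -ev x y (Ix (Iy X.2.2.2.2)) := by
    have hZ := h.par.Z
    unfold OG at hZ
    rw [← ev_Rx, ← ev_Ry, ← Rx_Ry, Ry_Ix, Ry_Iy, Rx_Ix, map_neg, map_neg, map_neg, Rx_Iy, hZ]
    simp
  rw [h1]; ring

theorem Sys.tf_zero : tf X 0 0 = 0 := by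
  have := h.tf_neg 0 0
  rw [neg_zero] at this
  linarith

theorem Sys.tf_half : tf X (1 / 2) (-(1 / 2)) = 0 := by
  have h1 := h.tf_neg (1 / 2) (-(1 / 2))
  rw [neg_neg] at h1
  have h2 := tf_symm h.par.Zs (1 / 2) (-(1 / 2))
  linarith

end

end

end MP_114753_an
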