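import Pool.Agent.Lib.MP_114753_an.Func2

/-!
# The invariant graphs in characteristic coordinates
-/

namespace MP_114753_an

open Real MeasureTheory
open scoped ContDiff

noncomputable section

/-! ### mixed partial derivatives -/

theorem mixed_partial {φ : ℝ → ℝ → ℝ} (hφ : ContDiff ℝ ∞ (fun p : ℝ × ℝ => φ p.1 p.2))
    {k m : ℝ → ℝ → ℝ} (hk : ∀ x y, HasDerivAt (fun y => φ x y) (k x y) y)
    (hm : ∀ x y, HasDerivAt (fun x => φ x y) (m x y) x) {x y k' : ℝ}
    (hkx : HasDerivAt (fun x => k x y) k' x) : HasDerivAt (fun y => m x y) k' y := by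
  set f : ℝ × ℝ → ℝ := fun p => φ p.1 p.2 with hf
  have hd : ∀ p, HasFDerivAt f (fderiv ℝ f p) p := fun p =>
    (hφ.differentiable (by simp) p).hasFDerivAt
  have hφ2 : ContDiff ℝ 2 f := contDiff_infty.1 hφ 2
  have hd2 : Differentiable ℝ (fderiv ℝ f) :=
    (hφ2.fderiv_right (m := 1) (by norm_num)).differentiable (by simp)
  have lx : ∀ x y : ℝ, HasDerivAt (fun x : ℝ => ((x, y) : ℝ × ℝ)) (1, 0) x := fun x y =>
    (hasDerivAt_id x).prodMk (hasDerivAt_const x y)
  have ly : ∀ x y : ℝ, HasDerivAt (fun y : ℝ => ((x, y) : ℝ × ℝ)) (0, 1) y := fun x y =>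
    (hasDerivAt_const y x).prodMk (hasDerivAt_id y)
  have ek : ∀ x y, k x y = fderiv ℝ f (x, y) (0, 1) := by
    intro x y
    have h1 := (hd (x, y)).comp_hasDerivAt y (ly x y)
    exact (hk x y).unique h1
  have em : ∀ x y, m x y = fderiv ℝ f (x, y) (1, 0) := by
    intro x y
    have h1 := (hd (x, y)).comp_hasDerivAt x (lx x y)
    exact (hm x y).unique h1
  have h1 : HasDerivAt (fun x => fderiv ℝ f (x, y) (0, 1))
      (fderiv ℝ (fderiv ℝ f) (x, y) (1, 0) (0, 1)) x := by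
    have h2 := ((hd2 (x, y)).hasFDerivAt).comp_hasDerivAt x (lx x y)
    exact h2.clm_apply (hasDerivAt_const x ((0, 1) : ℝ × ℝ)) |>.congr_deriv (by simp)
  have h2 : HasDerivAt (fun y => fderiv ℝ f (x, y) (1, 0))
      (fderiv ℝ (fderiv ℝ f) (x, y) (0, 1) (1, 0)) y := by
    have h3 := ((hd2 (x, y)).hasFDerivAt).comp_hasDerivAt y (ly x y)
    exact h3.clm_apply (hasDerivAt_const y ((1, 0) : ℝ × ℝ)) |>.congr_deriv (by simp)
  have h3 : fderiv ℝ (fderiv ℝ f) (x, y) (0, 1) (1, 0)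
      = fderiv ℝ (fderiv ℝ f) (x, y) (1, 0) (0, 1) :=
    second_derivative_symmetric hd (hd2 (x, y)).hasFDerivAt (0, 1) (1, 0)
  have h4 : (fun x => k x y) = fun x => fderiv ℝ f (x, y) (0, 1) := by
    funext x; exact ek x y
  rw [h4] at hkx
  have h5 := hkx.unique h1
  have h6 : (fun y => m x y) = fun y => fderiv ℝ f (x, y) (1, 0) := by
    funext y; exact em x y
  rw [h6, h5, ← h3]
  exact h2

/-! ### the fixed point equation for the graphs -/

theorem Ix_Ey (c : A) : Ix (Ey c) = Ey (Ix c) := by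
  refine A_ext_apply (Ix.comp Ey) (Ey.comp Ix) ?_ c
  intro k
  simp [Ix_e, Ey_e, smul_smul, mul_comm]

section

variable (ε : ℝ) (X : E5)

def Gm : A × A →L[ℝ] A :=
  -((Iy - Ey.comp Iy).comp ((mulL (Vy ε X)).comp (ContinuousLinearMap.snd ℝ A A)))
  - ((Ix - Ex.comp Ix).comp (Ey.comp ((mulL (sw (Vy ε X))).comp (ContinuousLinearMap.fst ℝ A A))))

theorem Gm_apply (a : A × A) : Gm ε X a =
    -(Iy (mulL (Vy ε X) a.2) - Ey (Iy (mulL (Vy ε X) a.2)))
    - (Ix (Ey (mulL (sw (Vy ε X)) a.1)) - Ex (Ix (Ey (mulL (sw (Vy ε X)) a.1)))) := rfl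

def Qf (a : A × A) : A × A :=
  (one + mulL (q X - Gm ε X a) a.1, one + mulL (-sw (q X) - Gm ε X a) a.2)

def Psi (p : ℝ × (A × A)) : A × A := p.1 • Qf ε X p.2

theorem cd_Qf : ContDiff ℝ 1 (Qf ε X) := by
  unfold Qf
  exact (contDiff_const.add (contDiff_mul (contDiff_const.sub (Gm ε X).contDiff)
    contDiff_fst)).prodMk (contDiff_const.add (contDiff_mul
      (contDiff_const.sub (Gm ε X).contDiff) contDiff_snd))

theorem cd_Psi : ContDiff ℝ 1 (Psi ε X) := by
  unfold Psi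
  exact contDiff_fst.smul ((cd_Qf ε X).comp contDiff_snd)

end

/-- solution of the graph equations -/
structure GSol (ε : ℝ) (X : E5) (μ : ℝ) (a : A × A) : Prop where
  p1 : EE a.1
  p2 : EE a.2
  fix : Psi ε X (μ, a) = a

theorem exists_gsol {ε : ℝ} {X : E5} (h : Sys ε X) : ∃ K > 0, ∃ δ > 0, ∀ μ : ℝ, |μ| ≤ δ →
    ∃ a : A × A, GSol ε X μ a ∧ ‖a‖ ≤ K * |μ| := by
  obtain ⟨K, hK, δ, hδ, H⟩ := exists_fixed (Psi ε X) (cd_Psi ε X)
    ⟨0, fun X' _ => by simp [Psi]⟩
  refine ⟨K, hK, δ, hδ, fun μ hμ => ?_⟩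
  have hclosed : IsClosed {a : A × A | EE a.1 ∧ EE a.2} := by
    have : {a : A × A | EE a.1 ∧ EE a.2} = {a | Rx a.1 = a.1} ∩ {a | Ry a.1 = a.1} ∩
        ({a | Rx a.2 = a.2} ∩ {a | Ry a.2 = a.2}) := by
      ext a; rfl
    rw [this]
    exact ((isClosed_eq (Rx.continuous.comp continuous_fst) continuous_fst).inter
      (isClosed_eq (Ry.continuous.comp continuous_fst) continuous_fst)).inter
      ((isClosed_eq (Rx.continuous.comp continuous_snd) continuous_snd).inter
      (isClosed_eq (Ry.continuous.comp continuous_snd) continuous_snd))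
  have hmaps : ∀ a ∈ {a : A × A | EE a.1 ∧ EE a.2}, Psi ε X (μ, a) ∈
      {a : A × A | EE a.1 ∧ EE a.2} := by
    intro a ha
    have hVy : EO (Vy ε X) := (EO_Fe ε).add h.par.Wf.Ix
    have hq : EE (q X) := (EE_one.neg.add h.par.b.Ix).add h.par.Sf.Iy
    have hG : EE (Gm ε X a) := by
      rw [Gm_apply]
      have e1 : EE (Iy (mulL (Vy ε X) a.2)) := (hVy.mul_EE ha.2).Iy
      have e2 : EE (Ey (Iy (mulL (Vy ε X) a.2))) := by
        constructor
        · rw [Rx_Ey, e1.1]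
        · rw [Ry_Ey]
      have e3 : OE (Ey (mulL (sw (Vy ε X)) a.1)) := by
        have := hVy.sw.mul_EE ha.1
        constructor
        · rw [Rx_Ey, this.1, map_neg]
        · rw [Ry_Ey]
      have e4 : EE (Ix (Ey (mulL (sw (Vy ε X)) a.1))) := e3.Ix
      have e5 : EE (Ex (Ix (Ey (mulL (sw (Vy ε X)) a.1)))) := by
        constructor
        · rw [Rx_Ex]
        · rw [Ry_Ex, e4.2]
      have := ((e1.add e2.neg).neg).add ((e4.add e5.neg).neg)
      simpa [sub_eq_add_neg] using this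
    have h1 : EE (one + mulL (q X - Gm ε X a) a.1) := by
      apply EE_one.add
      rw [sub_eq_add_neg]
      exact (hq.add hG.neg).mul_EE ha.1
    have h2 : EE (one + mulL (-sw (q X) - Gm ε X a) a.2) := by
      apply EE_one.add
      rw [sub_eq_add_neg]
      exact (hq.sw.neg.add hG.neg).mul_EE ha.2
    exact ⟨h1.smul μ, h2.smul μ⟩
  obtain ⟨a, ha, h1, h2⟩ := H {a | EE a.1 ∧ EE a.2} hclosed (by simp [EE]) μ (by simpa using hμ)
    hmaps
  exact ⟨a, ⟨ha.1, ha.2, h2⟩, by simpa using h1⟩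

/-- the graph function in characteristic coordinates -/
def pf (ε : ℝ) (X : E5) (l : ℝ) (a : A × A) (x y : ℝ) : ℝ := l + ev x y (Gm ε X a)

section

variable {ε : ℝ} {X : E5} (h : Sys ε X) {l : ℝ} (hl : l ≠ 0) {a : A × A}
  (ha : GSol ε X l⁻¹ a)

theorem contDiff_pf : ContDiff ℝ ∞ (fun p : ℝ × ℝ => pf ε X l a p.1 p.2) :=
  contDiff_const.add (contDiff_ev _)

theorem pf_add_one_left (x y : ℝ) : pf ε X l a (x + 1) y = pf ε X l a x y := by
  unfold pf; rw [ev_add_one_left]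

theorem pf_add_one_right (x y : ℝ) : pf ε X l a x (y + 1) = pf ε X l a x y := by
  unfold pf; rw [ev_add_one_right]

theorem ev_Gm (x y : ℝ) : ev x y (Gm ε X a) =
    -(ev x y (Iy (mulL (Vy ε X) a.2)) - ev x 0 (Iy (mulL (Vy ε X) a.2)))
    - (ev x 0 (Ix (mulL (sw (Vy ε X)) a.1)) - ev 0 0 (Ix (mulL (sw (Vy ε X)) a.1))) := by
  rw [Gm_apply, map_sub, map_neg, map_sub, map_sub, ev_Ey, ev_Ex, Ix_Ey, ev_Ey, ev_Ey]

theorem pf_zero : pf ε X l a 0 0 = l := by
  unfold pf
  rw [ev_Gm]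
  ring

include hl ha

theorem GSol.a1 (x y : ℝ) : ev x y a.1 * (pf ε X l a x y - ev x y (q X)) = 1 := by
  have h1 : l⁻¹ • (one + mulL (q X - Gm ε X a) a.1) = a.1 := congrArg Prod.fst ha.fix
  have h2 : ev x y (l⁻¹ • (one + mulL (q X - Gm ε X a) a.1)) = ev x y a.1 := by rw [h1]
  rw [map_smul, map_add, ev_one, ev_mul, map_sub, smul_eq_mul] at h2
  have h3 : 1 + (ev x y (q X) - ev x y (Gm ε X a)) * ev x y a.1 = l * ev x y a.1 := by
    have h4 := congrArg (fun z => l * z) h2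
    beta_reduce at h4
    rwa [mul_inv_cancel_left₀ hl] at h4
  unfold pf
  linear_combination -h3

theorem GSol.a2 (x y : ℝ) : ev x y a.2 * (pf ε X l a x y + ev y x (q X)) = 1 := by
  have h1 : l⁻¹ • (one + mulL (-sw (q X) - Gm ε X a) a.2) = a.2 := congrArg Prod.snd ha.fix
  have h2 : ev x y (l⁻¹ • (one + mulL (-sw (q X) - Gm ε X a) a.2)) = ev x y a.2 := by rw [h1]
  rw [map_smul, map_add, ev_one, ev_mul, map_sub, map_neg, ev_sw, smul_eq_mul] at h2
  have h3 : 1 + (-ev y x (q X) - ev x y (Gm ε X a)) * ev x y a.2 = l * ev x y a.2 := by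
    have h4 := congrArg (fun z => l * z) h2
    beta_reduce at h4
    rwa [mul_inv_cancel_left₀ hl] at h4
  unfold pf
  linear_combination -h3

include h

theorem GSol.dpy (x y : ℝ) : HasDerivAt (fun y => pf ε X l a x y)
    (-(ev x y (Vy ε X) * ev x y a.2)) y := by
  have h0 : My (mulL (Vy ε X) a.2) = 0 := by
    apply My_eq_zero
    exact (((EO_Fe ε).add h.par.Wf.Ix).mul_EE ha.p2).2
  have h1 := hasDerivAt_Iy x y (mulL (Vy ε X) a.2)
  rw [h0, sub_zero] at h1
  have h2 := (((h1.sub_const (ev x 0 (Iy (mulL (Vy ε X) a.2)))).neg).sub_const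
    (ev x 0 (Ix (mulL (sw (Vy ε X)) a.1)) - ev 0 0 (Ix (mulL (sw (Vy ε X)) a.1)))).const_add l
  have e1 : (fun y => pf ε X l a x y) = fun y => l +
      (-(ev x y (Iy (mulL (Vy ε X) a.2)) - ev x 0 (Iy (mulL (Vy ε X) a.2)))
    - (ev x 0 (Ix (mulL (sw (Vy ε X)) a.1)) - ev 0 0 (Ix (mulL (sw (Vy ε X)) a.1)))) := by
    funext y; unfold pf; rw [ev_Gm]
  rw [e1]
  refine h2.congr_deriv ?_
  rw [ev_mul]

theorem GSol.dpx0 (x : ℝ) : HasDerivAt (fun x => pf ε X l a x 0)
    (-(ev 0 x (Vy ε X) * ev x 0 a.1)) x := by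
  have h0 : Mx (mulL (sw (Vy ε X)) a.1) = 0 := by
    apply Mx_eq_zero
    exact (((EO_Fe ε).add h.par.Wf.Ix).sw.mul_EE ha.p1).1
  have h1 := hasDerivAt_Ix x 0 (mulL (sw (Vy ε X)) a.1)
  rw [h0, sub_zero] at h1
  have h2 := ((h1.sub_const (ev 0 0 (Ix (mulL (sw (Vy ε X)) a.1)))).neg).const_add l
  have e1 : (fun x => pf ε X l a x 0) = fun x => l +
      -(ev x 0 (Ix (mulL (sw (Vy ε X)) a.1)) - ev 0 0 (Ix (mulL (sw (Vy ε X)) a.1))) := by
    funext x; unfold pf; rw [ev_Gm]; ring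
  rw [e1]
  refine h2.congr_deriv ?_
  rw [ev_mul, ev_sw]

omit h in
theorem GSol.inv1 (x y : ℝ) : ev x y a.1 = (pf ε X l a x y - ev x y (q X))⁻¹ :=
  eq_inv_of_mul_eq_one_left (ha.a1 hl x y)
omit h in
theorem GSol.inv2 (x y : ℝ) : ev x y a.2 = (pf ε X l a x y + ev y x (q X))⁻¹ :=
  eq_inv_of_mul_eq_one_left (ha.a2 hl x y)
omit h in
theorem GSol.ne1 (x y : ℝ) : pf ε X l a x y - ev x y (q X) ≠ 0 := by
  intro h0
  have := ha.a1 hl x y
  rw [h0, mul_zero] at this
  exact zero_ne_one this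
omit h in
theorem GSol.ne2 (x y : ℝ) : pf ε X l a x y + ev y x (q X) ≠ 0 := by
  intro h0
  have := ha.a2 hl x y
  rw [h0, mul_zero] at this
  exact zero_ne_one this

theorem GSol.dpx (x y : ℝ) : HasDerivAt (fun x => pf ε X l a x y)
    (-(ev y x (Vy ε X) * ev x y a.1)) x := by
  -- the partial derivative exists
  set m : ℝ → ℝ → ℝ := fun x y => deriv (fun x => pf ε X l a x y) x with hm
  have hmd : ∀ x y, HasDerivAt (fun x => pf ε X l a x y) (m x y) x := by
    intro x y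
    apply DifferentiableAt.hasDerivAt
    have h1 : Differentiable ℝ (fun p : ℝ × ℝ => pf ε X l a p.1 p.2) :=
      contDiff_pf.differentiable (by simp)
    have h2 : Differentiable ℝ (fun x : ℝ => ((x, y) : ℝ × ℝ)) := by fun_prop
    have h3 := h1.comp h2
    exact h3 x
  -- derivative of a₂ in x
  have da2 : ∀ x y, HasDerivAt (fun x => ev x y a.2)
      (-(ev x y a.2) ^ 2 * (m x y + ev y x (Sf X))) x := by
    intro x y
    have e1 : (fun x => ev x y a.2) = fun x => (pf ε X l a x y + ev y x (q X))⁻¹ := by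
      funext x; exact ha.inv2 hl x y
    rw [e1, ha.inv2 hl]
    have h1 := ((hmd x y).add (h.dqx' x y)).inv (ha.ne2 hl x y)
    refine h1.congr_deriv ?_
    have h2 := ha.ne2 hl x y
    simp only [Pi.add_apply]
    field_simp
  have da1 : ∀ x y, HasDerivAt (fun y => ev x y a.1)
      (ev x y a.1 ^ 2 * (ev x y (Vy ε X) * ev x y a.2 + ev x y (Sf X))) y := by
    intro x y
    have e1 : (fun y => ev x y a.1) = fun y => (pf ε X l a x y - ev x y (q X))⁻¹ := by
      funext y; exact ha.inv1 hl x y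
    rw [e1, ha.inv1 hl]
    have h1 := ((ha.dpy h hl x y).sub (h.dqy x y)).inv (ha.ne1 hl x y)
    refine h1.congr_deriv ?_
    have h2 := ha.ne1 hl x y
    simp only [Pi.sub_apply]
    field_simp
    ring
  have dVx : ∀ x y, HasDerivAt (fun y => ev y x (Vy ε X)) (ev x y (Wf X)) y := by
    intro x y
    have := h.dVyx y x
    rw [← ev_sw, sw_Wf] at this
    exact this
  -- mixed derivative
  have hmix : ∀ x y, HasDerivAt (fun y => m x y)
      (-(ev x y (Wf X) * ev x y a.2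
        + ev x y (Vy ε X) * (-(ev x y a.2) ^ 2 * (m x y + ev y x (Sf X))))) y := by
    intro x y
    apply mixed_partial contDiff_pf (fun x y => ha.dpy h hl x y) hmd
    exact ((h.dVyx x y).mul (da2 x y)).neg
  have hD : ∀ x y, HasDerivAt (fun y => m x y + ev y x (Vy ε X) * ev x y a.1)
      ((ev x y (Vy ε X) * ev x y a.2 ^ 2) * (m x y + ev y x (Vy ε X) * ev x y a.1)) y := by
    intro x y
    have h1 := (hmix x y).add ((dVx x y).mul (da1 x y))
    refine h1.congr_deriv ?_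
    have hW := ev_Wf (X := X) x y
    have hS := h.S_eq x y
    have hS' := h.S_eq y x
    have hR := h.Rf_mul x y
    rw [h.Rf_symm x y] at hS'
    have hVy : ev x y (Vy ε X) = ev x y (Sf X) * (-ev x y (q X) - ev y x (q X)) := by
      rw [hS, mul_assoc, hR, mul_one]
    have hVx : ev y x (Vy ε X) = ev y x (Sf X) * (-ev x y (q X) - ev y x (q X)) := by
      rw [hS', mul_assoc, hR, mul_one]
    have e1 := ha.a1 hl x y
    have e2 := ha.a2 hl x y
    have e3 : (-ev x y (q X) - ev y x (q X)) * (ev x y a.1 * ev x y a.2)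
        = ev x y a.2 - ev x y a.1 := by
      linear_combination (-ev x y a.1) * e2 + ev x y a.2 * e1
    rw [hW, hVy, hVx]
    generalize ev x y (Sf X) = S at *
    generalize ev y x (Sf X) = S' at *
    generalize ev x y a.1 = α at *
    generalize ev x y a.2 = β at *
    generalize m x y = M at *
    generalize hΔ : (-ev x y (q X) - ev y x (q X)) = Δ at *
    -- goal
    linear_combination (S' * S * (Δ * α - Δ * β) + 2 * S' * S) * e3
  have hk : ∀ x, Continuous fun y => ev x y (Vy ε X) * ev x y a.2 ^ 2 := fun x =>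
    (continuous_ev_right x _).mul ((continuous_ev_right x _).pow 2)
  have h0 : m x 0 + ev 0 x (Vy ε X) * ev x 0 a.1 = 0 := by
    have := (hmd x 0).unique (ha.dpx0 h hl x)
    rw [this]
    ring
  have hfin := lin_ode (hk x) (hD x) y
  simp only [h0, zero_mul] at hfin
  have : m x y = -(ev y x (Vy ε X) * ev x y a.1) := by linarith
  rw [← this]
  exact hmd x y

end

end

end MP_114753_an
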