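import Mathlib

/-!
# Global solutions of a bounded Lipschitz scalar equation, and bounds for periodic functions
-/

namespace MP_114753_an

open Set Metric
open scoped NNReal

theorem global_ode {v : ℝ → ℝ → ℝ} {K L : ℝ≥0}
    (hlip : ∀ t, LipschitzWith K (v t)) (hcont : ∀ x, Continuous (fun t => v t x))
    (hbd : ∀ t x, |v t x| ≤ L) (t₀ x₀ : ℝ) :
    ∃ α : ℝ → ℝ, α t₀ = x₀ ∧ ∀ t, HasDerivAt α (v t (α t)) t := by
  have hloc : ∀ n : ℕ, ∃ α : ℝ → ℝ, α t₀ = x₀ ∧
      ∀ t ∈ Ioo (t₀ - (n + 1)) (t₀ + (n + 1)), HasDerivAt α (v t (α t)) t := by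
    intro n
    have hn : (0 : ℝ) < n + 1 := by positivity
    have hmem : t₀ ∈ Icc (t₀ - (n + 1 : ℝ)) (t₀ + (n + 1)) := ⟨by linarith, by linarith⟩
    have hPL : IsPicardLindelof v (⟨t₀, hmem⟩ : Icc (t₀ - (n + 1 : ℝ)) (t₀ + (n + 1))) x₀
        (L * (n + 1)) 0 L K := by
      refine ⟨fun t _ => (hlip t).lipschitzOnWith, fun x _ => (hcont x).continuousOn,
        fun t _ x _ => by rw [Real.norm_eq_abs]; exact hbd t x, ?_⟩
      simp
    obtain ⟨α, hα0, hα⟩ := hPL.exists_eq_forall_mem_Icc_hasDerivWithinAt₀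
    refine ⟨α, hα0, fun t ht => ?_⟩
    exact (hα t (Ioo_subset_Icc_self ht)).hasDerivAt (Icc_mem_nhds ht.1 ht.2)
  choose α hα0 hα using hloc
  have hcons : ∀ m n : ℕ, m ≤ n → ∀ t ∈ Ioo (t₀ - (m + 1 : ℝ)) (t₀ + (m + 1)),
      α m t = α n t := by
    intro m n hmn t ht
    have hmn' : (m : ℝ) ≤ n := by exact_mod_cast hmn
    have hm : (0 : ℝ) < m + 1 := by positivity
    have := ODE_solution_unique_of_mem_Ioo (v := v) (s := fun _ => univ) (K := K)
      (f := α m) (g := α n) (a := t₀ - (m + 1 : ℝ)) (b := t₀ + (m + 1)) (t₀ := t₀)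
      (fun t _ => (hlip t).lipschitzOnWith) ⟨by linarith, by linarith⟩
      (fun t ht => ⟨hα m t ht, mem_univ _⟩)
      (fun t ht => ⟨hα n t ⟨by linarith [ht.1], by linarith [ht.2]⟩, mem_univ _⟩)
      (by rw [hα0, hα0])
    exact this ht
  set N : ℝ → ℕ := fun t => ⌈|t - t₀|⌉₊ with hN
  have hNt : ∀ t, t ∈ Ioo (t₀ - (N t + 1 : ℝ)) (t₀ + (N t + 1)) := by
    intro t
    have h1 : |t - t₀| ≤ N t := Nat.le_ceil _
    have h2 := abs_le.1 h1
    constructor <;> linarith [h2.1, h2.2]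
  refine ⟨fun t => α (N t) t, hα0 _, fun t => ?_⟩
  have hagree : ∀ n : ℕ, ∀ s : ℝ, |s - t₀| ≤ n → α (N s) s = α n s := by
    intro n s hs
    have h1 : N s ≤ n := Nat.ceil_le.2 hs
    exact hcons _ _ h1 s (hNt s)
  set n := N t + 1 with hn
  have hnt : |t - t₀| + 1 ≤ n := by
    have h1 : |t - t₀| ≤ N t := Nat.le_ceil _
    rw [hn]; push_cast; linarith
  have hev : (fun t => α (N t) t) =ᶠ[nhds t] α n := by
    have : ball t 1 ∈ nhds t := ball_mem_nhds t one_pos
    filter_upwards [this] with s hs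
    apply hagree
    rw [mem_ball, Real.dist_eq] at hs
    have h1 : |s - t₀| ≤ |s - t| + |t - t₀| := by
      have := abs_add_le (s - t) (t - t₀)
      rwa [sub_add_sub_cancel] at this
    linarith
  have h1 : HasDerivAt (α n) (v t (α n t)) t := by
    apply hα n t
    have h2 := abs_le.1 (by linarith : |t - t₀| ≤ n)
    constructor <;> linarith [h2.1, h2.2]
  have h2 := h1.congr_of_eventuallyEq hev
  have h3 : α n t = α (N t) t := (hagree n t (by linarith)).symm
  rw [h3] at h2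
  exact h2

theorem bounded_of_periodic {g : ℝ → ℝ → ℝ} (hg : Continuous (fun z : ℝ × ℝ => g z.1 z.2))
    (hu : ∀ u t, g (u + 1) t = g u t) (ht : ∀ u t, g u (t + 1) = g u t) :
    ∃ M : ℝ≥0, ∀ u t, |g u t| ≤ M := by
  have hc : IsCompact (Icc (0 : ℝ) 1 ×ˢ Icc (0 : ℝ) 1) := isCompact_Icc.prod isCompact_Icc
  obtain ⟨C, hC⟩ := hc.exists_bound_of_continuousOn hg.continuousOn
  refine ⟨Real.nnabs C, fun u t => ?_⟩
  have hpu : Function.Periodic (fun u => g u t) 1 := fun u => hu u t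
  obtain ⟨u', hu', e1⟩ := hpu.exists_mem_Ico₀ one_pos u
  have hpt : Function.Periodic (fun t => g u' t) 1 := fun t => ht u' t
  obtain ⟨t', ht', e2⟩ := hpt.exists_mem_Ico₀ one_pos t
  have e1' : g u t = g u' t := e1
  have e2' : g u' t = g u' t' := e2
  rw [e1', e2']
  have h1 := hC (u', t') ⟨⟨hu'.1, hu'.2.le⟩, ⟨ht'.1, ht'.2.le⟩⟩
  rw [Real.norm_eq_abs] at h1
  have h2 : (Real.nnabs C : ℝ) = |C| := by simp
  rw [h2]
  exact h1.trans (le_abs_self C)

/-- The functions `f` in question: smooth, doubly periodic. Solutions of `u' = f(u, t)`. -/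
theorem global_ode_of_periodic {f : ℝ → ℝ → ℝ} {fu : ℝ → ℝ → ℝ}
    (hf : Continuous (fun z : ℝ × ℝ => f z.1 z.2)) (hfu : Continuous (fun z : ℝ × ℝ => fu z.1 z.2))
    (hd : ∀ u t, HasDerivAt (fun u => f u t) (fu u t) u)
    (hu : ∀ u t, f (u + 1) t = f u t) (ht : ∀ u t, f u (t + 1) = f u t) (t₀ x₀ : ℝ) :
    ∃ α : ℝ → ℝ, α t₀ = x₀ ∧ ∀ t, HasDerivAt α (f (α t) t) t := by
  obtain ⟨L, hL⟩ := bounded_of_periodic hf hu ht
  have hu' : ∀ u t, fu (u + 1) t = fu u t := by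
    intro u t
    have h1 : HasDerivAt (fun u => f (u + 1) t) (fu (u + 1) t) u :=
      (hd (u + 1) t).comp_add_const u 1
    have h2 : (fun u => f (u + 1) t) = fun u => f u t := by funext u; exact hu u t
    rw [h2] at h1
    exact h1.unique (hd u t)
  have ht' : ∀ u t, fu u (t + 1) = fu u t := by
    intro u t
    have h1 := hd u (t + 1)
    have h2 : (fun u => f u (t + 1)) = fun u => f u t := by funext u; exact ht u t
    rw [h2] at h1
    exact h1.unique (hd u t)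
  obtain ⟨K, hK⟩ := bounded_of_periodic hfu hu' ht'
  have hlip : ∀ t, LipschitzWith K (fun x => f x t) := by
    intro t
    apply lipschitzWith_of_nnnorm_deriv_le (fun x => (hd x t).differentiableAt)
    intro x
    rw [(hd x t).deriv, ← NNReal.coe_le_coe, coe_nnnorm, Real.norm_eq_abs]
    exact hK x t
  exact global_ode (v := fun t x => f x t) hlip
    (fun x => hf.comp (by fun_prop : Continuous fun t : ℝ => ((x, t) : ℝ × ℝ)))
    (fun t x => hL x t) t₀ x₀

end MP_114753_an
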