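import Pool.Agent.Lib.MP_114753_an.Final
import Pool.Agent.Lib.MP_114753_an.Ode
import Pool.Agent.Lib.MP_114753_an.Defs

/-!
# The example: a potential outside the family, totally integrable at infinity
-/

namespace MP_114753_an

open Real MeasureTheory Set
open scoped ContDiff
open Pool.Agent.Lib.MP_114753_an

noncomputable section

theorem exists_small_sys : ∃ (ε : ℝ) (X : E5), 0 < ε ∧ Sys ε X ∧ ‖X‖ ≤ 1 / 1000 ∧
    128 * ‖X‖ ^ 2 ≤ ε := by
  obtain ⟨K, hK, δ, hδ, H⟩ := exists_sol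
  have hπ := Real.pi_pos
  set M := 4 * π * K with hM
  have hMpos : 0 < M := by positivity
  set ε := min (δ / (4 * π)) (min (1 / (1000 * M)) (1 / (128 * M ^ 2))) with hε
  have hεpos : 0 < ε := by
    apply lt_min (by positivity) (lt_min (by positivity) (by positivity))
  have h1 : 4 * π * ε ≤ δ := by
    have : ε ≤ δ / (4 * π) := min_le_left _ _
    rw [le_div_iff₀ (by positivity)] at this
    linarith
  have h2 : M * ε ≤ 1 / 1000 := by
    have : ε ≤ 1 / (1000 * M) := (min_le_right _ _).trans (min_le_left _ _)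
    rw [le_div_iff₀ (by positivity)] at this
    linarith
  have h3 : 128 * M ^ 2 * ε ≤ 1 := by
    have : ε ≤ 1 / (128 * M ^ 2) := (min_le_right _ _).trans (min_le_right _ _)
    rw [le_div_iff₀ (by positivity)] at this
    linarith
  have hF := norm_Fe_le ε
  rw [abs_of_pos hεpos] at hF
  obtain ⟨X, hp, hn, hfix⟩ := H (Fe ε) (EO_Fe ε) (hF.trans h1)
  have hX : ‖X‖ ≤ M * ε := by
    calc ‖X‖ ≤ K * ‖Fe ε‖ := hn
      _ ≤ K * (4 * π * ε) := mul_le_mul_of_nonneg_left hF hK.le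
      _ = M * ε := by rw [hM]; ring
  refine ⟨ε, X, hεpos, ⟨hp, hfix⟩, hX.trans h2, ?_⟩
  have h0 := norm_nonneg X
  calc 128 * ‖X‖ ^ 2 ≤ 128 * (M * ε) ^ 2 := by gcongr
    _ = (128 * M ^ 2 * ε) * ε := by ring
    _ ≤ 1 * ε := mul_le_mul_of_nonneg_right h3 hεpos.le
    _ = ε := one_mul ε

section

variable {ε : ℝ} {X : E5} (h : Sys ε X) (hν : ‖X‖ ≤ 1 / 1000)

theorem invariantGraph {l : ℝ} (hl : l ≠ 0) {a : A × A} (ha : GSol ε X l⁻¹ a) :
    IsInvariantGraph (Vn ε h hν) (fn h hν (pf ε X l a)) := by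
  have hcd : ContDiff ℝ ∞ (fun p : ℝ × ℝ => fn h hν (pf ε X l a) p.1 p.2) := cd_pb h hν cd_pfU
  have hpu : ∀ u t, fn h hν (pf ε X l a) (u + 1) t = fn h hν (pf ε X l a) u t := fun u t =>
    pb_add_u h hν (fun x y => by simp only [pf_add_one_left])
      (fun x y => by simp only [pf_add_one_right]) u t
  have hpt : ∀ u t, fn h hν (pf ε X l a) u (t + 1) = fn h hν (pf ε X l a) u t := fun u t =>
    pb_add_t h hν (fun x y => by simp only [pf_add_one_left])
      (fun x y => by simp only [pf_add_one_right]) u t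
  have hfd : ∀ u t, HasFDerivAt (fun p : ℝ × ℝ => fn h hν (pf ε X l a) p.1 p.2)
      (fderiv ℝ (fun p : ℝ × ℝ => fn h hν (pf ε X l a) p.1 p.2) (u, t)) (u, t) := fun u t =>
    (hcd.differentiable (by simp) _).hasFDerivAt
  have hfc : Continuous (fderiv ℝ (fun p : ℝ × ℝ => fn h hν (pf ε X l a) p.1 p.2)) :=
    hcd.continuous_fderiv (by simp)
  refine ⟨hcd.continuous, hpu, hpt, ?_, ?_⟩
  · intro A' B' u p htr s₀ hs₀ h0
    exact invariant h hν hl ha htr hs₀ h0
  · intro u₀ t₀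
    obtain ⟨α, hα0, hα⟩ := global_ode_of_periodic (f := fn h hν (pf ε X l a))
      (fu := fun u t => fderiv ℝ (fun p : ℝ × ℝ => fn h hν (pf ε X l a) p.1 p.2) (u, t) (1, 0))
      hcd.continuous (hfc.clm_apply continuous_const) (by
        intro u t
        have lx : HasDerivAt (fun x : ℝ => ((x, t) : ℝ × ℝ)) (1, 0) u :=
          (hasDerivAt_id u).prodMk (hasDerivAt_const u t)
        exact (hfd u t).comp_hasDerivAt u lx) hpu hpt t₀ u₀
    refine ⟨α, fun s => fn h hν (pf ε X l a) (α s) s, fun s => ⟨hα s, ?_⟩, hα0, ?_, fun _ => rfl⟩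
    · have h3 : HasDerivAt (fun s => ((α s, s) : ℝ × ℝ)) (fn h hν (pf ε X l a) (α s) s, 1) s :=
        (hα s).prodMk (hasDerivAt_id s)
      have h4 := HasFDerivAt.comp_hasDerivAt (f := fun s => ((α s, s) : ℝ × ℝ)) s (hfd (α s) s) h3
      have h5 : HasDerivAt (fun s => fn h hν (pf ε X l a) (α s) s)
          (fderiv ℝ (fun p : ℝ × ℝ => fn h hν (pf ε X l a) p.1 p.2) (α s, s)
            (fn h hν (pf ε X l a) (α s) s, 1)) s := h4
      refine h5.congr_deriv ?_
      rw [← pde h hν hl ha]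
      have : ((fn h hν (pf ε X l a) (α s) s, 1) : ℝ × ℝ)
          = fn h hν (pf ε X l a) (α s) s • (1, 0) + (1 : ℝ) • (0, 1) := by ext <;> simp
      rw [this, map_add, map_smul, map_smul, smul_eq_mul, smul_eq_mul]
      ring
    · simp only [hα0]

theorem totallyIntegrable : TotallyIntegrableAtInfinity (Vn ε h hν) := by
  obtain ⟨c, p, hF⟩ := exists_fam h
  have hU := U_pos h hν
  have hU2 := abs_le.1 (abs_U_le h hν)
  have hc := hF.pos
  have hfcont : ContinuousOn (fun z : ℝ × ℝ × ℝ => fn h hν (p z.1) z.2.1 z.2.2)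
      {z | c < |z.1|} := by
    have h1 : Continuous fun z : ℝ × ℝ × ℝ =>
        ((z.1, (Hom h hν).symm (z.2.1, z.2.2)) : ℝ × (ℝ × ℝ)) :=
      continuous_fst.prodMk ((Hom h hν).symm.continuous.comp
        ((continuous_fst.comp continuous_snd).prodMk (continuous_snd.comp continuous_snd)))
    have h2 : ContinuousOn (fun z : ℝ × ℝ × ℝ =>
        p z.1 ((Hom h hν).symm (z.2.1, z.2.2)).1 ((Hom h hν).symm (z.2.1, z.2.2)).2)
        {z | c < |z.1|} :=
      hF.cont.comp h1.continuousOn (fun z hz => hz)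
    exact h2.div_const _
  refine ⟨(c + 2) / Uc X, by positivity, {l | c < |l|}, fun l => fn h hν (p l), ?_, ?_, hfcont,
    ?_, ?_⟩
  · exact isOpen_lt continuous_const continuous_abs
  · intro l hl
    obtain ⟨a, ha, hp⟩ := hF.ex l hl
    have hl0 : l ≠ 0 := by
      intro h0
      have hl' : c < |l| := hl
      rw [h0, abs_zero] at hl'
      linarith
    simp only [hp]
    exact invariantGraph h hν hl0 ha
  · intro l hl l' hl' hll u t
    exact div_lt_div_of_pos_right (hF.mono l l' hl hl' hll _ _) hU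
  · intro u p₀ t hmem
    have hmem' : (c + 2) / Uc X < |p₀| := hmem
    rw [div_lt_iff₀ hU] at hmem'
    set w := p₀ * Uc X with hw
    have hwabs : c + 2 < |w| := by rw [hw, abs_mul, abs_of_pos hU]; exact hmem'
    set z := (Hom h hν).symm (u, t) with hz
    have hin : ∀ l ∈ Icc (w - 1) (w + 1), c < |l| := by
      intro l hl
      have h1 : |w| - |l| ≤ |w - l| := abs_sub_abs_le_abs_sub w l
      have h2 : |w - l| ≤ 1 := by
        rw [abs_le]
        constructor <;> linarith [hl.1, hl.2]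
      linarith
    have hco : ContinuousOn (fun l => p l z.1 z.2) (Icc (w - 1) (w + 1)) := by
      have h1 : Continuous fun l : ℝ => ((l, z.1, z.2) : ℝ × ℝ × ℝ) := by fun_prop
      exact hF.cont.comp h1.continuousOn (fun l hl => hin l hl)
    have hlo : p (w - 1) z.1 z.2 ≤ w := by
      have := (abs_le.1 (hF.near (w - 1) (hin _ ⟨le_rfl, by linarith⟩) z.1 z.2)).2
      linarith
    have hhi : w ≤ p (w + 1) z.1 z.2 := by
      have := (abs_le.1 (hF.near (w + 1) (hin _ ⟨by linarith, le_rfl⟩) z.1 z.2)).1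
      linarith
    obtain ⟨l, hl, hl2⟩ := intermediate_value_Icc (by linarith : w - 1 ≤ w + 1) hco ⟨hlo, hhi⟩
    refine ⟨l, hin l hl, ?_⟩
    have h5 : p l z.1 z.2 = w := hl2
    change p l z.1 z.2 / Uc X = p₀
    rw [h5, hw, mul_div_cancel_right₀ _ hU.ne']

end

theorem main : ∃ V : ℝ → ℝ → ℝ, IsSmoothPeriodic V ∧ ¬ InFamily V ∧
    TotallyIntegrableAtInfinity V := by
  obtain ⟨ε, X, hε, h, hν, hs⟩ := exists_small_sys
  refine ⟨Vn ε h hν, ⟨cd_Vn h hν, Vn_add_u h hν, Vn_add_t h hν⟩, ?_, totallyIntegrable h hν⟩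
  rintro ⟨n, m, W, g, -, -, hW⟩
  exact not_family h hν hε hs ⟨n, m, W, g, hW⟩

end

end MP_114753_an
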