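import Pool.Agent.Lib.MP_114753_an.Alg

/-!
# Relations between the operators on the Wiener algebra
-/

namespace MP_114753_an

open Real

noncomputable section

theorem ic_zero : ic 0 = 0 := by simp [ic]

theorem ic_neg (n : ℤ) : ic (-n) = -ic n := by
  unfold ic
  rw [Int.cast_neg, mul_neg, one_div, one_div, inv_neg]

theorem A_ext_apply {G : Type*} [NormedAddCommGroup G] [NormedSpace ℝ G] (f g : A →L[ℝ] G)
    (h : ∀ k, f (e k) = g (e k)) (c : A) : f c = g c := by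
  rw [A_ext h]

/-! ### evaluation -/

theorem ev_sw (x y : ℝ) (c : A) : ev x y (sw c) = ev y x c := by
  refine A_ext_apply ((ev x y).comp sw) (ev y x) ?_ c
  intro k
  simp only [ContinuousLinearMap.comp_apply, sw_e, ev_e]
  congr 1
  · simp [w, nn, add_comm]
  · simp [ph, add_comm]

theorem ev_Rx (x y : ℝ) (c : A) : ev x y (Rx c) = ev (-x) y c := by
  refine A_ext_apply ((ev x y).comp Rx) (ev (-x) y) ?_ c
  intro k
  simp only [ContinuousLinearMap.comp_apply, Rx_e, ev_e]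
  congr 1
  · simp [w, nn]
  · simp [ph]

theorem ev_Ry (x y : ℝ) (c : A) : ev x y (Ry c) = ev x (-y) c := by
  refine A_ext_apply ((ev x y).comp Ry) (ev x (-y)) ?_ c
  intro k
  simp only [ContinuousLinearMap.comp_apply, Ry_e, ev_e]
  congr 1
  · simp [w, nn]
  · simp [ph]

theorem ev_Ex (x y : ℝ) (c : A) : ev x y (Ex c) = ev 0 y c := by
  refine A_ext_apply ((ev x y).comp Ex) (ev 0 y) ?_ c
  intro k
  simp only [ContinuousLinearMap.comp_apply, Ex_e, ev_e, map_smul, smul_eq_mul]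
  rw [← mul_assoc]
  congr 1
  · simp only [w, nn, Int.natAbs_zero, zero_add, pow_add]
  · simp [ph]

theorem ev_Ey (x y : ℝ) (c : A) : ev x y (Ey c) = ev x 0 c := by
  refine A_ext_apply ((ev x y).comp Ey) (ev x 0) ?_ c
  intro k
  simp only [ContinuousLinearMap.comp_apply, Ey_e, ev_e, map_smul, smul_eq_mul]
  rw [← mul_assoc]
  congr 1
  · simp only [w, nn, Int.natAbs_zero, add_zero, pow_add, mul_comm]
  · simp [ph]

theorem ev_Mx (x x' y : ℝ) (c : A) : ev x y (Mx c) = ev x' y (Mx c) := by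
  refine A_ext_apply ((ev x y).comp Mx) ((ev x' y).comp Mx) ?_ c
  intro k
  simp only [ContinuousLinearMap.comp_apply, Mx_e, ev_e, map_smul, smul_eq_mul]
  split_ifs with h
  · simp [ph, h]
  · simp

theorem ev_My (x y y' : ℝ) (c : A) : ev x y (My c) = ev x y' (My c) := by
  refine A_ext_apply ((ev x y).comp My) ((ev x y').comp My) ?_ c
  intro k
  simp only [ContinuousLinearMap.comp_apply, My_e, ev_e, map_smul, smul_eq_mul]
  split_ifs with h
  · simp [ph, h]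
  · simp

theorem cas_add_int (θ : ℝ) (n : ℤ) : cas (θ + 2 * π * n) = cas θ := by
  unfold cas
  rw [show θ + 2 * π * n = θ + n * (2 * π) by ring, cos_add_int_mul_two_pi,
    sin_add_int_mul_two_pi]

theorem ev_add_one_left (x y : ℝ) (c : A) : ev (x + 1) y c = ev x y c := by
  refine A_ext_apply (ev (x + 1) y) (ev x y) ?_ c
  intro k
  rw [ev_e, ev_e]
  congr 1
  rw [show ph k (x + 1) y = ph k x y + 2 * π * k.1 by unfold ph; ring, cas_add_int]

theorem ev_add_one_right (x y : ℝ) (c : A) : ev x (y + 1) c = ev x y c := by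
  refine A_ext_apply (ev x (y + 1)) (ev x y) ?_ c
  intro k
  rw [ev_e, ev_e]
  congr 1
  rw [show ph k x (y + 1) = ph k x y + 2 * π * k.2 by unfold ph; ring, cas_add_int]

/-! ### commutation -/

theorem Ix_Iy (c : A) : Ix (Iy c) = Iy (Ix c) := by
  refine A_ext_apply (Ix.comp Iy) (Iy.comp Ix) ?_ c
  intro k
  simp [Ix_e, Iy_e, ic_neg, smul_smul, mul_comm]

theorem Mx_Iy (c : A) : Mx (Iy c) = Iy (Mx c) := by
  refine A_ext_apply (Mx.comp Iy) (Iy.comp Mx) ?_ c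
  intro k
  by_cases h : k.1 = 0 <;> simp [Mx_e, Iy_e, h]

theorem My_Ix (c : A) : My (Ix c) = Ix (My c) := by
  refine A_ext_apply (My.comp Ix) (Ix.comp My) ?_ c
  intro k
  by_cases h : k.2 = 0 <;> simp [My_e, Ix_e, h]

theorem Mx_My (c : A) : Mx (My c) = My (Mx c) := by
  refine A_ext_apply (Mx.comp My) (My.comp Mx) ?_ c
  intro k
  by_cases h : k.1 = 0 <;> by_cases h' : k.2 = 0 <;> simp [Mx_e, My_e, h, h']

theorem Mx_Ix (c : A) : Mx (Ix c) = 0 := by
  refine A_ext_apply (Mx.comp Ix) 0 ?_ c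
  intro k
  by_cases h : k.1 = 0 <;> simp [Mx_e, Ix_e, h, ic_zero]

theorem My_Iy (c : A) : My (Iy c) = 0 := by
  refine A_ext_apply (My.comp Iy) 0 ?_ c
  intro k
  by_cases h : k.2 = 0 <;> simp [My_e, Iy_e, h, ic_zero]

theorem Ix_Mx (c : A) : Ix (Mx c) = 0 := by
  refine A_ext_apply (Ix.comp Mx) 0 ?_ c
  intro k
  by_cases h : k.1 = 0 <;> simp [Mx_e, Ix_e, h, ic_zero]

theorem Iy_My (c : A) : Iy (My c) = 0 := by
  refine A_ext_apply (Iy.comp My) 0 ?_ c
  intro k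
  by_cases h : k.2 = 0 <;> simp [My_e, Iy_e, h, ic_zero]

theorem Mx_Mx (c : A) : Mx (Mx c) = Mx c := by
  refine A_ext_apply (Mx.comp Mx) Mx ?_ c
  intro k
  by_cases h : k.1 = 0 <;> simp [Mx_e, h]

theorem My_My (c : A) : My (My c) = My c := by
  refine A_ext_apply (My.comp My) My ?_ c
  intro k
  by_cases h : k.2 = 0 <;> simp [My_e, h]

theorem sw_sw (c : A) : sw (sw c) = c := by
  refine A_ext_apply (sw.comp sw) (ContinuousLinearMap.id ℝ A) ?_ c
  intro k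
  simp [sw_e]

theorem sw_Ix (c : A) : sw (Ix c) = Iy (sw c) := by
  refine A_ext_apply (sw.comp Ix) (Iy.comp sw) ?_ c
  intro k
  simp [sw_e, Ix_e, Iy_e]

theorem sw_Iy (c : A) : sw (Iy c) = Ix (sw c) := by
  refine A_ext_apply (sw.comp Iy) (Ix.comp sw) ?_ c
  intro k
  simp [sw_e, Ix_e, Iy_e]

theorem sw_Mx (c : A) : sw (Mx c) = My (sw c) := by
  refine A_ext_apply (sw.comp Mx) (My.comp sw) ?_ c
  intro k
  by_cases h : k.1 = 0 <;> simp [sw_e, Mx_e, My_e, h]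

theorem sw_My (c : A) : sw (My c) = Mx (sw c) := by
  refine A_ext_apply (sw.comp My) (Mx.comp sw) ?_ c
  intro k
  by_cases h : k.2 = 0 <;> simp [sw_e, Mx_e, My_e, h]

theorem Rx_Ix (c : A) : Rx (Ix c) = -Ix (Rx c) := by
  refine A_ext_apply (Rx.comp Ix) (-(Ix.comp Rx)) ?_ c
  intro k
  simp [Rx_e, Ix_e, ic_neg]

theorem Ry_Iy (c : A) : Ry (Iy c) = -Iy (Ry c) := by
  refine A_ext_apply (Ry.comp Iy) (-(Iy.comp Ry)) ?_ c
  intro k
  simp [Ry_e, Iy_e, ic_neg]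

theorem Rx_Iy (c : A) : Rx (Iy c) = Iy (Rx c) := by
  refine A_ext_apply (Rx.comp Iy) (Iy.comp Rx) ?_ c
  intro k
  simp [Rx_e, Iy_e]

theorem Ry_Ix (c : A) : Ry (Ix c) = Ix (Ry c) := by
  refine A_ext_apply (Ry.comp Ix) (Ix.comp Ry) ?_ c
  intro k
  simp [Ry_e, Ix_e]

theorem Rx_Mx (c : A) : Rx (Mx c) = Mx c := by
  refine A_ext_apply (Rx.comp Mx) Mx ?_ c
  intro k
  by_cases h : k.1 = 0
  · simp only [ContinuousLinearMap.comp_apply, Mx_e, h, if_true, map_smul, Rx_e]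
    congr 2
    ext <;> simp [h]
  · simp [Mx_e, h]

theorem Mx_Rx (c : A) : Mx (Rx c) = Mx c := by
  refine A_ext_apply (Mx.comp Rx) Mx ?_ c
  intro k
  by_cases h : k.1 = 0
  · simp only [ContinuousLinearMap.comp_apply, Rx_e, Mx_e, h, neg_zero, if_true]
    congr 2
    ext <;> simp [h]
  · simp [Rx_e, Mx_e, h]

theorem Ry_My (c : A) : Ry (My c) = My c := by
  refine A_ext_apply (Ry.comp My) My ?_ c
  intro k
  by_cases h : k.2 = 0
  · simp only [ContinuousLinearMap.comp_apply, My_e, h, if_true, map_smul, Ry_e]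
    congr 2
    ext <;> simp [h]
  · simp [My_e, h]

theorem My_Ry (c : A) : My (Ry c) = My c := by
  refine A_ext_apply (My.comp Ry) My ?_ c
  intro k
  by_cases h : k.2 = 0
  · simp only [ContinuousLinearMap.comp_apply, Ry_e, My_e, h, neg_zero, if_true]
    congr 2
    ext <;> simp [h]
  · simp [Ry_e, My_e, h]

theorem Rx_My (c : A) : Rx (My c) = My (Rx c) := by
  refine A_ext_apply (Rx.comp My) (My.comp Rx) ?_ c
  intro k
  by_cases h : k.2 = 0 <;> simp [Rx_e, My_e, h]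

theorem Ry_Mx (c : A) : Ry (Mx c) = Mx (Ry c) := by
  refine A_ext_apply (Ry.comp Mx) (Mx.comp Ry) ?_ c
  intro k
  by_cases h : k.1 = 0 <;> simp [Ry_e, Mx_e, h]

theorem sw_Rx (c : A) : sw (Rx c) = Ry (sw c) := by
  refine A_ext_apply (sw.comp Rx) (Ry.comp sw) ?_ c
  intro k
  simp [sw_e, Rx_e, Ry_e]

theorem sw_Ry (c : A) : sw (Ry c) = Rx (sw c) := by
  refine A_ext_apply (sw.comp Ry) (Rx.comp sw) ?_ c
  intro k
  simp [sw_e, Rx_e, Ry_e]

theorem Rx_Ry (c : A) : Rx (Ry c) = Ry (Rx c) := by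
  refine A_ext_apply (Rx.comp Ry) (Ry.comp Rx) ?_ c
  intro k
  simp [Rx_e, Ry_e]

theorem Rx_Ex (c : A) : Rx (Ex c) = Ex c := by
  refine A_ext_apply (Rx.comp Ex) Ex ?_ c
  intro k
  simp [Rx_e, Ex_e]

theorem Ry_Ey (c : A) : Ry (Ey c) = Ey c := by
  refine A_ext_apply (Ry.comp Ey) Ey ?_ c
  intro k
  simp [Ry_e, Ey_e]

theorem Rx_Ey (c : A) : Rx (Ey c) = Ey (Rx c) := by
  refine A_ext_apply (Rx.comp Ey) (Ey.comp Rx) ?_ c
  intro k
  simp [Rx_e, Ey_e]

theorem Ry_Ex (c : A) : Ry (Ex c) = Ex (Ry c) := by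
  refine A_ext_apply (Ry.comp Ex) (Ex.comp Ry) ?_ c
  intro k
  simp [Ry_e, Ex_e]

/-! ### equivariance of the product -/

theorem bilin_ext_apply (T : A →L[ℝ] A) (h : ∀ i j, T (mulL (e i) (e j)) = mulL (T (e i)) (T (e j)))
    (c d : A) : T (mulL c d) = mulL (T c) (T d) := by
  have h1 : ∀ (j : Idx) (c : A), T (mulL c (e j)) = mulL (T c) (T (e j)) := by
    intro j c
    exact A_ext_apply (T.comp (mulL.flip (e j))) ((mulL.flip (T (e j))).comp T)
      (fun i => h i j) c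
  exact A_ext_apply (T.comp (mulL c)) ((mulL (T c)).comp T) (fun j => h1 j c) d

theorem Rx_mul (c d : A) : Rx (mulL c d) = mulL (Rx c) (Rx d) := by
  refine bilin_ext_apply Rx ?_ c d
  intro i j
  rw [mulL_e, Rx_e, Rx_e, mulL_e]
  simp only [prodE, map_smul, map_sub, map_add, Rx_e, om, nn, Prod.fst_sub, Prod.snd_sub,
    Prod.fst_add, Prod.snd_add, Prod.fst_neg, Prod.snd_neg, Int.natAbs_neg]
  have a1 : ((-(i.1 - j.1), i.2 - j.2) : Idx) = (-i.1, i.2) - (-j.1, j.2) := by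
    ext <;> simp <;> ring
  have a2 : ((-(j.1 - i.1), j.2 - i.2) : Idx) = (-j.1, j.2) - (-i.1, i.2) := by
    ext <;> simp <;> ring
  have a3 : ((-(i.1 + j.1), i.2 + j.2) : Idx) = (-i.1, i.2) + (-j.1, j.2) := by
    ext <;> simp <;> ring
  have a4 : ((-(-i.1 - j.1), -i.2 - j.2) : Idx) = -(-i.1, i.2) - (-j.1, j.2) := by
    ext <;> simp <;> ring
  have b1 : (-i.1 - -j.1).natAbs = (i.1 - j.1).natAbs := by omega
  have b2 : (-j.1 - -i.1).natAbs = (j.1 - i.1).natAbs := by omega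
  have b3 : (-i.1 + -j.1).natAbs = (i.1 + j.1).natAbs := by omega
  have b4 : (- -i.1 - -j.1).natAbs = (-i.1 - j.1).natAbs := by omega
  rw [a1, a2, a3, a4, b1, b2, b3, b4]

theorem Ry_mul (c d : A) : Ry (mulL c d) = mulL (Ry c) (Ry d) := by
  refine bilin_ext_apply Ry ?_ c d
  intro i j
  rw [mulL_e, Ry_e, Ry_e, mulL_e]
  simp only [prodE, map_smul, map_sub, map_add, Ry_e, om, nn, Prod.fst_sub, Prod.snd_sub,
    Prod.fst_add, Prod.snd_add, Prod.fst_neg, Prod.snd_neg, Int.natAbs_neg]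
  have a1 : ((i.1 - j.1, -(i.2 - j.2)) : Idx) = (i.1, -i.2) - (j.1, -j.2) := by
    ext <;> simp <;> ring
  have a2 : ((j.1 - i.1, -(j.2 - i.2)) : Idx) = (j.1, -j.2) - (i.1, -i.2) := by
    ext <;> simp <;> ring
  have a3 : ((i.1 + j.1, -(i.2 + j.2)) : Idx) = (i.1, -i.2) + (j.1, -j.2) := by
    ext <;> simp <;> ring
  have a4 : ((-i.1 - j.1, -(-i.2 - j.2)) : Idx) = -(i.1, -i.2) - (j.1, -j.2) := by
    ext <;> simp <;> ring
  have b1 : (-i.2 - -j.2).natAbs = (i.2 - j.2).natAbs := by omega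
  have b2 : (-j.2 - -i.2).natAbs = (j.2 - i.2).natAbs := by omega
  have b3 : (-i.2 + -j.2).natAbs = (i.2 + j.2).natAbs := by omega
  have b4 : (- -i.2 - -j.2).natAbs = (-i.2 - j.2).natAbs := by omega
  rw [a1, a2, a3, a4, b1, b2, b3, b4]

theorem sw_mul (c d : A) : sw (mulL c d) = mulL (sw c) (sw d) := by
  refine bilin_ext_apply sw ?_ c d
  intro i j
  rw [mulL_e, sw_e, sw_e, mulL_e]
  simp only [prodE, map_smul, map_sub, map_add, sw_e, om, nn, Prod.fst_sub, Prod.snd_sub,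
    Prod.fst_add, Prod.snd_add, Prod.fst_neg, Prod.snd_neg, Int.natAbs_neg]
  have c1 : i.2.natAbs + i.1.natAbs + (j.2.natAbs + j.1.natAbs)
      = i.1.natAbs + i.2.natAbs + (j.1.natAbs + j.2.natAbs) := by omega
  have d1 : (i.2 - j.2).natAbs + (i.1 - j.1).natAbs = (i.1 - j.1).natAbs + (i.2 - j.2).natAbs :=
    by omega
  have d2 : (j.2 - i.2).natAbs + (j.1 - i.1).natAbs = (j.1 - i.1).natAbs + (j.2 - i.2).natAbs :=
    by omega
  have d3 : (i.2 + j.2).natAbs + (i.1 + j.1).natAbs = (i.1 + j.1).natAbs + (i.2 + j.2).natAbs :=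
    by omega
  have d4 : (-i.2 - j.2).natAbs + (-i.1 - j.1).natAbs
      = (-i.1 - j.1).natAbs + (-i.2 - j.2).natAbs := by omega
  rw [c1, d1, d2, d3, d4]
  rfl

theorem Rx_one : Rx one = one := by
  unfold one; rw [Rx_e]; simp; rfl

theorem Ry_one : Ry one = one := by
  unfold one; rw [Ry_e]; simp; rfl

theorem sw_one : sw one = one := by
  unfold one; rw [sw_e]; simp; rfl

end

end MP_114753_an
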