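import Pool.Agent.Lib.MP_114753_an.Ops
import Pool.Agent.Lib.MP_114753_an.FixGen

/-!
# The fixed point system for the doubly periodic Gibbons–Tsarev reduction
-/

namespace MP_114753_an

open Real
open scoped ContDiff

noncomputable section

/-- unknowns `(T, s, b, ρ, Z)` -/
abbrev E5 := A × A × A × A × A

def Sf (X : E5) : A := X.2.1 + Ix X.1
def Rf (X : E5) : A := (1 / 2 : ℝ) • one + X.2.2.2.1
def Pf (X : E5) : A := X.2.2.1 + Iy X.1
def Tf (X : E5) : A := mulL (Sf X) (mulL (Rf X) (Pf X + (3 : ℝ) • sw (Sf X)))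
def Wf (X : E5) : A := (2 : ℝ) • mulL (sw (Sf X)) (Sf X)
def sf (F : A) (X : E5) : A := Mx (mulL (F + Ix (Wf X)) (Rf X))
def hf (X : E5) : A := (1 / 2 : ℝ) • Iy (Tf X) + (1 / 2 : ℝ) • mulL (Pf X) (Ix X.2.2.2.2)
  + mulL X.2.2.2.1 (Pf X + mulL (Pf X) (Ix X.2.2.2.2))
def nf (X : E5) : A := hf X + sw (hf X)
def bf (X : E5) : A := (-2 : ℝ) • My (nf X)
def Zf (X : E5) : A := nf X - Mx (nf X) - My (nf X) + Mx (My (nf X))
def kf (F : A) (X : E5) : A := Ix (bf X) + Iy (sf F X + Ix (Tf X))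
def df (F : A) (X : E5) : A := kf F X + sw (kf F X)
def rf (F : A) (X : E5) : A := (1 / 4 : ℝ) • df F X + (1 / 2 : ℝ) • mulL X.2.2.2.1 (df F X)

def Phi (p : A × E5) : E5 := (Tf p.2, sf p.1 p.2, bf p.2, rf p.1 p.2, Zf p.2)

/-! ### smoothness -/

theorem contDiff_mul {E : Type*} [NormedAddCommGroup E] [NormedSpace ℝ E] {f g : E → A}
    (hf : ContDiff ℝ 1 f) (hg : ContDiff ℝ 1 g) : ContDiff ℝ 1 (fun x => mulL (f x) (g x)) :=
  (mulL.contDiff.comp hf).clm_apply hg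

theorem contDiff_clm {E : Type*} [NormedAddCommGroup E] [NormedSpace ℝ E] {f : E → A}
    (L : A →L[ℝ] A) (hf : ContDiff ℝ 1 f) : ContDiff ℝ 1 (fun x => L (f x)) :=
  L.contDiff.comp hf

theorem cd_Sf : ContDiff ℝ 1 Sf := by
  unfold Sf
  exact (contDiff_fst.comp contDiff_snd).add (contDiff_clm Ix contDiff_fst)

theorem cd_rho : ContDiff ℝ 1 (fun X : E5 => X.2.2.2.1) :=
  contDiff_fst.comp (contDiff_snd.comp (contDiff_snd.comp contDiff_snd))

theorem cd_Z : ContDiff ℝ 1 (fun X : E5 => X.2.2.2.2) :=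
  contDiff_snd.comp (contDiff_snd.comp (contDiff_snd.comp contDiff_snd))

theorem cd_Rf : ContDiff ℝ 1 Rf := by
  unfold Rf
  exact contDiff_const.add cd_rho

theorem cd_Pf : ContDiff ℝ 1 Pf := by
  unfold Pf
  exact (contDiff_fst.comp (contDiff_snd.comp contDiff_snd)).add (contDiff_clm Iy contDiff_fst)

theorem cd_Tf : ContDiff ℝ 1 Tf := by
  unfold Tf
  exact contDiff_mul cd_Sf (contDiff_mul cd_Rf (cd_Pf.add ((contDiff_clm sw cd_Sf).const_smul _)))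

theorem cd_Wf : ContDiff ℝ 1 Wf := by
  unfold Wf
  exact (contDiff_mul (contDiff_clm sw cd_Sf) cd_Sf).const_smul _

theorem cd_hf : ContDiff ℝ 1 hf := by
  unfold hf
  exact (((contDiff_clm Iy cd_Tf).const_smul _).add
    ((contDiff_mul cd_Pf (contDiff_clm Ix cd_Z)).const_smul _)).add
    (contDiff_mul cd_rho (cd_Pf.add (contDiff_mul cd_Pf (contDiff_clm Ix cd_Z))))

theorem cd_nf : ContDiff ℝ 1 nf := by
  unfold nf
  exact cd_hf.add (contDiff_clm sw cd_hf)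

theorem cd_bf : ContDiff ℝ 1 bf := by
  unfold bf
  exact (contDiff_clm My cd_nf).const_smul _

theorem cd_Zf : ContDiff ℝ 1 Zf := by
  unfold Zf
  exact ((cd_nf.sub (contDiff_clm Mx cd_nf)).sub (contDiff_clm My cd_nf)).add
    (contDiff_clm Mx (contDiff_clm My cd_nf))

theorem cd_sf : ContDiff ℝ 1 (fun p : A × E5 => sf p.1 p.2) := by
  unfold sf
  exact contDiff_clm Mx (contDiff_mul (contDiff_fst.add
    (contDiff_clm Ix (cd_Wf.comp contDiff_snd))) (cd_Rf.comp contDiff_snd))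

theorem cd_kf : ContDiff ℝ 1 (fun p : A × E5 => kf p.1 p.2) := by
  unfold kf
  exact (contDiff_clm Ix (cd_bf.comp contDiff_snd)).add
    (contDiff_clm Iy (cd_sf.add (contDiff_clm Ix (cd_Tf.comp contDiff_snd))))

theorem cd_df : ContDiff ℝ 1 (fun p : A × E5 => df p.1 p.2) := by
  unfold df
  exact cd_kf.add (contDiff_clm sw cd_kf)

theorem cd_rf : ContDiff ℝ 1 (fun p : A × E5 => rf p.1 p.2) := by
  unfold rf
  exact (cd_df.const_smul _).add ((contDiff_mul (cd_rho.comp contDiff_snd) cd_df).const_smul _)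

theorem cd_Phi : ContDiff ℝ 1 Phi := by
  unfold Phi
  exact (cd_Tf.comp contDiff_snd).prodMk (cd_sf.prodMk ((cd_bf.comp contDiff_snd).prodMk
    (cd_rf.prodMk (cd_Zf.comp contDiff_snd))))

/-! ### order of vanishing -/

def Ord (n : ℕ) (f : E5 → A) : Prop := ∃ C, 0 ≤ C ∧ ∀ X, ‖X‖ ≤ 1 → ‖f X‖ ≤ C * ‖X‖ ^ n

theorem Ord.add {n : ℕ} {f g : E5 → A} (hf : Ord n f) (hg : Ord n g) :
    Ord n (fun X => f X + g X) := by
  obtain ⟨C, hC0, hC⟩ := hf
  obtain ⟨D, hD0, hD⟩ := hg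
  refine ⟨C + D, by positivity, fun X hX => ?_⟩
  have h1 := norm_add_le (f X) (g X)
  have h2 := hC X hX
  have h3 := hD X hX
  rw [add_mul]
  linarith

theorem Ord.smul {n : ℕ} {f : E5 → A} (a : ℝ) (hf : Ord n f) : Ord n (fun X => a • f X) := by
  obtain ⟨C, hC0, hC⟩ := hf
  refine ⟨|a| * C, by positivity, fun X hX => ?_⟩
  rw [norm_smul, mul_assoc]
  exact mul_le_mul_of_nonneg_left (hC X hX) (abs_nonneg a)

theorem Ord.sub {n : ℕ} {f g : E5 → A} (hf : Ord n f) (hg : Ord n g) :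
    Ord n (fun X => f X - g X) := by
  have := hf.add (hg.smul (-1))
  have e1 : (fun X => f X + (-1 : ℝ) • g X) = fun X => f X - g X := by
    funext X; rw [neg_one_smul, sub_eq_add_neg]
  rwa [e1] at this

theorem Ord.clm {n : ℕ} {f : E5 → A} (L : A →L[ℝ] A) (hf : Ord n f) : Ord n (fun X => L (f X)) := by
  obtain ⟨C, hC0, hC⟩ := hf
  refine ⟨‖L‖ * C, by positivity, fun X hX => ?_⟩
  rw [mul_assoc]
  exact (L.le_opNorm _).trans (mul_le_mul_of_nonneg_left (hC X hX) (norm_nonneg _))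

theorem Ord.mul {m n : ℕ} {f g : E5 → A} (hf : Ord m f) (hg : Ord n g) :
    Ord (m + n) (fun X => mulL (f X) (g X)) := by
  obtain ⟨C, hC0, hC⟩ := hf
  obtain ⟨D, hD0, hD⟩ := hg
  refine ⟨2 * C * D, by positivity, fun X hX => ?_⟩
  have h1 := norm_mulL_le (f X) (g X)
  have h2 := hC X hX
  have h3 := hD X hX
  calc ‖mulL (f X) (g X)‖ ≤ 2 * ‖f X‖ * ‖g X‖ := h1
    _ ≤ 2 * (C * ‖X‖ ^ m) * (D * ‖X‖ ^ n) := by
        apply mul_le_mul (mul_le_mul_of_nonneg_left h2 (by norm_num)) h3 (norm_nonneg _)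
          (by positivity)
    _ = 2 * C * D * ‖X‖ ^ (m + n) := by rw [pow_add]; ring

theorem Ord.mono {m n : ℕ} (h : m ≤ n) {f : E5 → A} (hf : Ord n f) : Ord m f := by
  obtain ⟨C, hC0, hC⟩ := hf
  refine ⟨C, hC0, fun X hX => (hC X hX).trans ?_⟩
  exact mul_le_mul_of_nonneg_left (pow_le_pow_of_le_one (norm_nonneg _) hX h) hC0

theorem Ord.const (c : A) : Ord 0 (fun _ => c) :=
  ⟨‖c‖, norm_nonneg _, fun X _ => by simp⟩

theorem ord_of_le {f : E5 → A} (h : ∀ X, ‖f X‖ ≤ ‖X‖) : Ord 1 f :=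
  ⟨1, zero_le_one, fun X _ => by simpa using h X⟩

theorem ord_T : Ord 1 (fun X => X.1) := ord_of_le fun X => norm_fst_le X
theorem ord_s : Ord 1 (fun X => X.2.1) :=
  ord_of_le fun X => (norm_fst_le X.2).trans (norm_snd_le X)
theorem ord_b : Ord 1 (fun X => X.2.2.1) :=
  ord_of_le fun X => (norm_fst_le X.2.2).trans ((norm_snd_le X.2).trans (norm_snd_le X))
theorem ord_rho : Ord 1 (fun X => X.2.2.2.1) :=
  ord_of_le fun X => (norm_fst_le X.2.2.2).trans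
    ((norm_snd_le X.2.2).trans ((norm_snd_le X.2).trans (norm_snd_le X)))
theorem ord_Z : Ord 1 (fun X => X.2.2.2.2) :=
  ord_of_le fun X => (norm_snd_le X.2.2.2).trans
    ((norm_snd_le X.2.2).trans ((norm_snd_le X.2).trans (norm_snd_le X)))

theorem ord_Sf : Ord 1 Sf := ord_s.add (ord_T.clm Ix)
theorem ord_Rf : Ord 0 Rf := (Ord.const _).add (ord_rho.mono (by norm_num))
theorem ord_Pf : Ord 1 Pf := ord_b.add (ord_T.clm Iy)
theorem ord_Tf : Ord 2 Tf := by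
  have := ord_Sf.mul (ord_Rf.mul (ord_Pf.add ((ord_Sf.clm sw).smul 3)))
  exact this
theorem ord_Wf : Ord 2 Wf := ((ord_Sf.clm sw).mul ord_Sf).smul 2
theorem ord_hf : Ord 2 hf := by
  have h1 := (ord_Tf.clm Iy).smul (1 / 2)
  have h2 := (ord_Pf.mul (ord_Z.clm Ix)).smul (1 / 2)
  have h3 := ord_rho.mul (ord_Pf.add ((ord_Pf.mul (ord_Z.clm Ix)).mono (by norm_num)))
  exact (h1.add h2).add h3
theorem ord_nf : Ord 2 nf := ord_hf.add (ord_hf.clm sw)
theorem ord_bf : Ord 2 bf := (ord_nf.clm My).smul (-2)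
theorem ord_Zf : Ord 2 Zf :=
  ((ord_nf.sub (ord_nf.clm Mx)).sub (ord_nf.clm My)).add ((ord_nf.clm My).clm Mx)
theorem ord_sf : Ord 2 (sf 0) := by
  have h1 : Ord 2 (fun X => (0 : A) + Ix (Wf X)) := by
    simpa using ord_Wf.clm Ix
  exact (h1.mul ord_Rf).clm Mx
theorem ord_kf : Ord 2 (kf 0) := (ord_bf.clm Ix).add ((ord_sf.add (ord_Tf.clm Ix)).clm Iy)
theorem ord_df : Ord 2 (df 0) := ord_kf.add (ord_kf.clm sw)
theorem ord_rf : Ord 2 (rf 0) :=
  (ord_df.smul (1 / 4)).add (((ord_rho.mul ord_df).mono (by norm_num)).smul (1 / 2))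

theorem Phi_ord : ∃ C, ∀ X, ‖X‖ ≤ 1 → ‖Phi (0, X)‖ ≤ C * ‖X‖ ^ 2 := by
  obtain ⟨C1, h1, H1⟩ := ord_Tf
  obtain ⟨C2, h2, H2⟩ := ord_sf
  obtain ⟨C3, h3, H3⟩ := ord_bf
  obtain ⟨C4, h4, H4⟩ := ord_rf
  obtain ⟨C5, h5, H5⟩ := ord_Zf
  refine ⟨C1 + C2 + C3 + C4 + C5, fun X hX => ?_⟩
  have a1 := H1 X hX
  have a2 := H2 X hX
  have a3 := H3 X hX
  have a4 := H4 X hX
  have a5 := H5 X hX
  have hn : 0 ≤ ‖X‖ ^ 2 := by positivity
  have b1 : C1 * ‖X‖ ^ 2 ≤ (C1 + C2 + C3 + C4 + C5) * ‖X‖ ^ 2 :=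
    mul_le_mul_of_nonneg_right (by linarith) hn
  have b2 : C2 * ‖X‖ ^ 2 ≤ (C1 + C2 + C3 + C4 + C5) * ‖X‖ ^ 2 :=
    mul_le_mul_of_nonneg_right (by linarith) hn
  have b3 : C3 * ‖X‖ ^ 2 ≤ (C1 + C2 + C3 + C4 + C5) * ‖X‖ ^ 2 :=
    mul_le_mul_of_nonneg_right (by linarith) hn
  have b4 : C4 * ‖X‖ ^ 2 ≤ (C1 + C2 + C3 + C4 + C5) * ‖X‖ ^ 2 :=
    mul_le_mul_of_nonneg_right (by linarith) hn
  have b5 : C5 * ‖X‖ ^ 2 ≤ (C1 + C2 + C3 + C4 + C5) * ‖X‖ ^ 2 :=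
    mul_le_mul_of_nonneg_right (by linarith) hn
  simp only [Phi, Prod.norm_def]
  exact max_le (a1.trans b1) (max_le (a2.trans b2) (max_le (a3.trans b3)
    (max_le (a4.trans b4) (a5.trans b5))))

/-! ### parity -/

/-- even in both variables -/
def EE (c : A) : Prop := Rx c = c ∧ Ry c = c
/-- even in `x`, odd in `y` -/
def EO (c : A) : Prop := Rx c = c ∧ Ry c = -c
/-- odd in `x`, even in `y` -/
def OE (c : A) : Prop := Rx c = -c ∧ Ry c = c
/-- odd in both variables -/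
def OO (c : A) : Prop := Rx c = -c ∧ Ry c = -c

theorem EE.add {c d : A} (h : EE c) (h' : EE d) : EE (c + d) := by
  constructor <;> simp [h.1, h.2, h'.1, h'.2]
theorem EO.add {c d : A} (h : EO c) (h' : EO d) : EO (c + d) := by
  constructor <;> simp [h.1, h.2, h'.1, h'.2, add_comm]
theorem OE.add {c d : A} (h : OE c) (h' : OE d) : OE (c + d) := by
  constructor <;> simp [h.1, h.2, h'.1, h'.2, add_comm]
theorem OO.add {c d : A} (h : OO c) (h' : OO d) : OO (c + d) := by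
  constructor <;> simp [h.1, h.2, h'.1, h'.2, add_comm]
theorem EE.smul {c : A} (a : ℝ) (h : EE c) : EE (a • c) := by
  constructor <;> simp [h.1, h.2]
theorem EO.smul {c : A} (a : ℝ) (h : EO c) : EO (a • c) := by
  constructor <;> simp [h.1, h.2]
theorem OE.smul {c : A} (a : ℝ) (h : OE c) : OE (a • c) := by
  constructor <;> simp [h.1, h.2]
theorem OO.smul {c : A} (a : ℝ) (h : OO c) : OO (a • c) := by
  constructor <;> simp [h.1, h.2]
theorem EE.neg {c : A} (h : EE c) : EE (-c) := by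
  constructor <;> simp [h.1, h.2]
theorem EO.neg {c : A} (h : EO c) : EO (-c) := by
  constructor <;> simp [h.1, h.2]
theorem OE.neg {c : A} (h : OE c) : OE (-c) := by
  constructor <;> simp [h.1, h.2]
theorem EE_one : EE one := ⟨Rx_one, Ry_one⟩

theorem EE.Ix {c : A} (h : EE c) : OE (Ix c) := by
  constructor <;> simp [Rx_Ix, Ry_Ix, h.1, h.2]
theorem EO.Ix {c : A} (h : EO c) : OO (Ix c) := by
  constructor <;> simp [Rx_Ix, Ry_Ix, h.1, h.2]
theorem OE.Ix {c : A} (h : OE c) : EE (Ix c) := by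
  constructor <;> simp [Rx_Ix, Ry_Ix, h.1, h.2]
theorem OO.Ix {c : A} (h : OO c) : EO (Ix c) := by
  constructor <;> simp [Rx_Ix, Ry_Ix, h.1, h.2]
theorem EE.Iy {c : A} (h : EE c) : EO (Iy c) := by
  constructor <;> simp [Rx_Iy, Ry_Iy, h.1, h.2]
theorem EO.Iy {c : A} (h : EO c) : EE (Iy c) := by
  constructor <;> simp [Rx_Iy, Ry_Iy, h.1, h.2]
theorem OE.Iy {c : A} (h : OE c) : OO (Iy c) := by
  constructor <;> simp [Rx_Iy, Ry_Iy, h.1, h.2]
theorem OO.Iy {c : A} (h : OO c) : OE (Iy c) := by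
  constructor <;> simp [Rx_Iy, Ry_Iy, h.1, h.2]

theorem EE.sw {c : A} (h : EE c) : EE (sw c) := by
  constructor
  · rw [← sw_Ry, h.2]
  · rw [← sw_Rx, h.1]
theorem EO.sw {c : A} (h : EO c) : OE (sw c) := by
  constructor
  · rw [← sw_Ry, h.2, map_neg]
  · rw [← sw_Rx, h.1]
theorem OE.sw {c : A} (h : OE c) : EO (sw c) := by
  constructor
  · rw [← sw_Ry, h.2]
  · rw [← sw_Rx, h.1, map_neg]
theorem OO.sw {c : A} (h : OO c) : OO (sw c) := by
  constructor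
  · rw [← sw_Ry, h.2, map_neg]
  · rw [← sw_Rx, h.1, map_neg]

theorem EO.Mx {c : A} (h : EO c) : EO (Mx c) := by
  constructor
  · rw [Rx_Mx]
  · rw [Ry_Mx, h.2, map_neg]

theorem Mx_eq_zero {c : A} (h : Rx c = -c) : Mx c = 0 := by
  have h1 := Mx_Rx c
  rw [h, map_neg] at h1
  have h2 : (2 : ℝ) • Mx c = 0 := by
    rw [two_smul]
    nth_rewrite 1 [← h1]
    simp
  simpa using h2

theorem My_eq_zero {c : A} (h : Ry c = -c) : My c = 0 := by
  have h1 := My_Ry c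
  rw [h, map_neg] at h1
  have h2 : (2 : ℝ) • My c = 0 := by
    rw [two_smul]
    nth_rewrite 1 [← h1]
    simp
  simpa using h2

theorem EE.mul_EE {c d : A} (h : EE c) (h' : EE d) : EE (mulL c d) := by
  constructor <;> simp [Rx_mul, Ry_mul, h.1, h.2, h'.1, h'.2]
theorem EO.mul_EE {c d : A} (h : EO c) (h' : EE d) : EO (mulL c d) := by
  constructor <;> simp [Rx_mul, Ry_mul, h.1, h.2, h'.1, h'.2]
theorem OE.mul_EE {c d : A} (h : OE c) (h' : EE d) : OE (mulL c d) := by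
  constructor <;> simp [Rx_mul, Ry_mul, h.1, h.2, h'.1, h'.2]
theorem EE.mul_OE {c d : A} (h : EE c) (h' : OE d) : OE (mulL c d) := by
  constructor <;> simp [Rx_mul, Ry_mul, h.1, h.2, h'.1, h'.2]
theorem EE.mul_EO {c d : A} (h : EE c) (h' : EO d) : EO (mulL c d) := by
  constructor <;> simp [Rx_mul, Ry_mul, h.1, h.2, h'.1, h'.2]
theorem EO.mul_OE {c d : A} (h : EO c) (h' : OE d) : OO (mulL c d) := by
  constructor <;> simp [Rx_mul, Ry_mul, h.1, h.2, h'.1, h'.2]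
theorem OE.mul_EO {c d : A} (h : OE c) (h' : EO d) : OO (mulL c d) := by
  constructor <;> simp [Rx_mul, Ry_mul, h.1, h.2, h'.1, h'.2]

/-- odd under the central reflection -/
def OG (c : A) : Prop := Rx (Ry c) = -c

theorem OG.add {c d : A} (h : OG c) (h' : OG d) : OG (c + d) := by
  unfold OG at *
  rw [map_add, map_add, h, h', neg_add]
theorem OG.sub {c d : A} (h : OG c) (h' : OG d) : OG (c - d) := by
  unfold OG at *
  rw [map_sub, map_sub, h, h', neg_sub_neg, neg_sub]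
theorem OG.smul {c : A} (a : ℝ) (h : OG c) : OG (a • c) := by
  unfold OG at *
  rw [map_smul, map_smul, h, smul_neg]
theorem OE.OG {c : A} (h : OE c) : OG c := by
  unfold MP_114753_an.OG
  rw [h.2, h.1]
theorem OG.sw {c : A} (h : OG c) : OG (sw c) := by
  unfold MP_114753_an.OG at *
  rw [← sw_Rx, ← sw_Ry, ← Rx_Ry, h, map_neg]
theorem OG.Mx {c : A} (h : OG c) : OG (Mx c) := by
  unfold MP_114753_an.OG at *
  rw [Ry_Mx, Rx_Mx, ← Mx_Rx, h, map_neg]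
theorem OG.My {c : A} (h : OG c) : OG (My c) := by
  unfold MP_114753_an.OG at *
  rw [Rx_Ry, Rx_My, Ry_My, ← My_Ry, ← Rx_Ry, h, map_neg]

theorem OG.mul_left {c d : A} (h : OG c) (h' : Rx (Ry d) = d) : OG (mulL c d) := by
  unfold MP_114753_an.OG at *
  rw [Ry_mul, Rx_mul, h, h']
  simp

theorem OG.mul_right {c d : A} (h' : Rx (Ry c) = c) (h : OG d) : OG (mulL c d) := by
  unfold MP_114753_an.OG at *
  rw [Ry_mul, Rx_mul, h, h']
  simp

theorem OG.Ix {c : A} (h : OG c) : Rx (Ry (Ix c)) = Ix c := by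
  unfold MP_114753_an.OG at *
  rw [Ry_Ix, Rx_Ix, h]
  simp

/-- the invariant set of unknowns -/
structure Par (X : E5) : Prop where
  T : OO X.1
  s : EO X.2.1
  b : OE X.2.2.1
  ρ : EE X.2.2.2.1
  ρs : sw X.2.2.2.1 = X.2.2.2.1
  Z : OG X.2.2.2.2
  Zs : sw X.2.2.2.2 = X.2.2.2.2

theorem isClosed_Par : IsClosed {X : E5 | Par X} := by
  have h : {X : E5 | Par X} = {X : E5 | Rx X.1 = -X.1} ∩ {X : E5 | Ry X.1 = -X.1}
      ∩ {X : E5 | Rx X.2.1 = X.2.1} ∩ {X : E5 | Ry X.2.1 = -X.2.1}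
      ∩ {X : E5 | Rx X.2.2.1 = -X.2.2.1} ∩ {X : E5 | Ry X.2.2.1 = X.2.2.1}
      ∩ {X : E5 | Rx X.2.2.2.1 = X.2.2.2.1} ∩ {X : E5 | Ry X.2.2.2.1 = X.2.2.2.1}
      ∩ {X : E5 | sw X.2.2.2.1 = X.2.2.2.1}
      ∩ {X : E5 | Rx (Ry X.2.2.2.2) = -X.2.2.2.2} ∩ {X : E5 | sw X.2.2.2.2 = X.2.2.2.2} := by
    ext X
    constructor
    · intro h
      exact ⟨⟨⟨⟨⟨⟨⟨⟨⟨⟨h.T.1, h.T.2⟩, h.s.1⟩, h.s.2⟩, h.b.1⟩, h.b.2⟩, h.ρ.1⟩, h.ρ.2⟩, h.ρs⟩, h.Z⟩, h.Zs⟩
    · rintro ⟨⟨⟨⟨⟨⟨⟨⟨⟨⟨a1, a2⟩, a3⟩, a4⟩, a5⟩, a6⟩, a7⟩, a8⟩, a9⟩, a10⟩, a11⟩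
      exact ⟨⟨a1, a2⟩, ⟨a3, a4⟩, ⟨a5, a6⟩, ⟨a7, a8⟩, a9, a10, a11⟩
  rw [h]
  have k1 : Continuous (fun X : E5 => X.1) := continuous_fst
  have k2 : Continuous (fun X : E5 => X.2.1) := continuous_fst.comp continuous_snd
  have k3 : Continuous (fun X : E5 => X.2.2.1) :=
    continuous_fst.comp (continuous_snd.comp continuous_snd)
  have k4 : Continuous (fun X : E5 => X.2.2.2.1) :=
    continuous_fst.comp (continuous_snd.comp (continuous_snd.comp continuous_snd))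
  have k5 : Continuous (fun X : E5 => X.2.2.2.2) :=
    continuous_snd.comp (continuous_snd.comp (continuous_snd.comp continuous_snd))
  have c1 := isClosed_eq (Rx.continuous.comp k1) k1.neg
  have c2 := isClosed_eq (Ry.continuous.comp k1) k1.neg
  have c3 := isClosed_eq (Rx.continuous.comp k2) k2
  have c4 := isClosed_eq (Ry.continuous.comp k2) k2.neg
  have c5 := isClosed_eq (Rx.continuous.comp k3) k3.neg
  have c6 := isClosed_eq (Ry.continuous.comp k3) k3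
  have c7 := isClosed_eq (Rx.continuous.comp k4) k4
  have c8 := isClosed_eq (Ry.continuous.comp k4) k4
  have c9 := isClosed_eq (sw.continuous.comp k4) k4
  have c10 := isClosed_eq (Rx.continuous.comp (Ry.continuous.comp k5)) k5.neg
  have c11 := isClosed_eq (sw.continuous.comp k5) k5
  exact ((((((((((c1.inter c2).inter c3).inter c4).inter c5).inter c6).inter c7).inter c8).inter
    c9).inter c10).inter c11)

theorem Par_zero : Par 0 := by
  constructor <;> simp [OO, EO, OE, EE, OG]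

section inv

variable {X : E5} (h : Par X)
include h

theorem Par.Sf : EO (Sf X) := h.s.add h.T.Ix
theorem Par.Rf : EE (Rf X) := (EE_one.smul _).add h.ρ
theorem Par.Pf : OE (Pf X) := h.b.add h.T.Iy
theorem Par.Tf : OO (Tf X) := h.Sf.mul_OE (h.Rf.mul_OE (h.Pf.add (h.Sf.sw.smul 3)))
theorem Par.Wf : OO (Wf X) := (h.Sf.sw.mul_EO h.Sf).smul 2
theorem Par.sf {F : A} (hF : EO F) : EO (sf F X) := ((hF.add h.Wf.Ix).mul_EE h.Rf).Mx
theorem Par.PZ : OG (mulL (MP_114753_an.Pf X) (Ix X.2.2.2.2)) :=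
  h.Pf.OG.mul_left h.Z.Ix
theorem Par.hf : OG (hf X) := by
  have h1 : OG ((1 / 2 : ℝ) • Iy (MP_114753_an.Tf X)) := (h.Tf.Iy.smul _).OG
  have h2 : OG ((1 / 2 : ℝ) • mulL (MP_114753_an.Pf X) (Ix X.2.2.2.2)) := h.PZ.smul _
  have h3 : OG (mulL X.2.2.2.1
      (MP_114753_an.Pf X + mulL (MP_114753_an.Pf X) (Ix X.2.2.2.2))) := by
    apply OG.mul_right
    · rw [h.ρ.2, h.ρ.1]
    · exact h.Pf.OG.add h.PZ
  exact (h1.add h2).add h3
theorem Par.nf : OG (nf X) := h.hf.add h.hf.sw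
theorem Par.bf : OE (bf X) := by
  have h1 : Rx (My (MP_114753_an.nf X)) = -My (MP_114753_an.nf X) := by
    have h2 := h.nf
    unfold OG at h2
    rw [Rx_My, ← My_Ry, ← Rx_Ry, h2, map_neg]
  constructor
  · unfold MP_114753_an.bf
    rw [map_smul, h1, smul_neg]
  · unfold MP_114753_an.bf
    rw [map_smul, Ry_My]
theorem Par.Zf : OG (Zf X) :=
  ((h.nf.sub h.nf.Mx).sub h.nf.My).add h.nf.My.Mx
omit h in
theorem sw_nf : sw (nf X) = nf X := by
  unfold nf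
  rw [map_add, sw_sw, add_comm]
omit h in
theorem sw_Zf : sw (Zf X) = Zf X := by
  unfold Zf
  rw [map_add, map_sub, map_sub, sw_Mx, sw_My, sw_Mx, sw_My, sw_nf, Mx_My]
  abel
theorem Par.kf {F : A} (hF : EO F) : EE (kf F X) :=
  h.bf.Ix.add ((h.sf hF).add h.Tf.Ix).Iy
theorem Par.df {F : A} (hF : EO F) : EE (df F X) := (h.kf hF).add (h.kf hF).sw
omit h in
theorem sw_df {F : A} : sw (df F X) = df F X := by
  unfold df
  rw [map_add, sw_sw, add_comm]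
theorem Par.rf {F : A} (hF : EO F) : EE (rf F X) :=
  ((h.df hF).smul _).add ((h.ρ.mul_EE (h.df hF)).smul _)
theorem Par.sw_rf {F : A} : sw (MP_114753_an.rf F X) = MP_114753_an.rf F X := by
  unfold MP_114753_an.rf
  rw [map_add, map_smul, map_smul, sw_mul, sw_df, h.ρs]

theorem Par.Phi {F : A} (hF : EO F) : Par (Phi (F, X)) :=
  ⟨h.Tf, h.sf hF, h.bf, h.rf hF, h.sw_rf, h.Zf, sw_Zf⟩

end inv

theorem exists_sol : ∃ K > 0, ∃ δ > 0, ∀ F : A, EO F → ‖F‖ ≤ δ →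
    ∃ X : E5, Par X ∧ ‖X‖ ≤ K * ‖F‖ ∧ Phi (F, X) = X := by
  obtain ⟨K, hK, δ, hδ, H⟩ := exists_fixed Phi cd_Phi Phi_ord
  refine ⟨K, hK, δ, hδ, fun F hF hFδ => ?_⟩
  obtain ⟨X, hX, h1, h2⟩ := H {X | Par X} isClosed_Par Par_zero F hFδ (fun X hX => Par.Phi hX hF)
  exact ⟨X, hX, h1, h2⟩

end

end MP_114753_an
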